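import Pool.Agent.Lib.MP_ad5d82_an.h24.FDefs

set_option autoImplicit false

namespace Pool.MP_ad5d82_an.Wl

open Real Set MeasureTheory Filter Topology
open scoped ContDiff

variable {ι : Type} [Fintype ι] [DecidableEq ι]

/-! ### F1 linear algebra and the forms `aa`, `bb` -/
theorem lin_complete (S : Sys ι) (a b : ι) :
    ∑ j, S.T a j * S.T b j = if a = b then (S.m a)⁻¹ else 0 := by
  let Q : Matrix ι ι ℝ := Matrix.of fun a j => Real.sqrt (S.m a) * S.T a j
  have h1 : Q.transpose * Q = 1 := by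
    ext j k
    rw [Matrix.mul_apply, Matrix.one_apply, ← S.orth j k]
    apply Finset.sum_congr rfl
    intro a _
    simp only [Q, Matrix.transpose_apply, Matrix.of_apply]
    have := Real.mul_self_sqrt (S.m_pos a).le
    linear_combination (S.T a j * S.T a k) * this
  have h2 : Q * Q.transpose = 1 := mul_eq_one_comm.mp h1
  have h3 := congrFun (congrFun h2 a) b
  rw [Matrix.mul_apply, Matrix.one_apply] at h3
  simp only [Q, Matrix.transpose_apply, Matrix.of_apply] at h3
  have ha : Real.sqrt (S.m a) ≠ 0 := (Real.sqrt_pos.mpr (S.m_pos a)).ne'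
  have hb : Real.sqrt (S.m b) ≠ 0 := (Real.sqrt_pos.mpr (S.m_pos b)).ne'
  have h4 : Real.sqrt (S.m a) * Real.sqrt (S.m b) * ∑ j, S.T a j * S.T b j =
      if a = b then 1 else 0 := by
    rw [← h3, Finset.mul_sum]
    apply Finset.sum_congr rfl
    intro j _
    ring
  by_cases hab : a = b
  · subst hab
    rw [if_pos rfl] at h4 ⊢
    rw [Real.mul_self_sqrt (S.m_pos a).le] at h4
    exact eq_inv_of_mul_eq_one_right h4
  · rw [if_neg hab] at h4 ⊢
    rcases mul_eq_zero.mp h4 with h | h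
    · exact absurd h (mul_ne_zero ha hb)
    · exact h

theorem lin_sq (S : Sys ι) (h : Ev ι) : ∑ a, S.m a * lin S a h ^ 2 = ‖h‖ ^ 2 := by
  rw [EuclideanSpace.real_norm_sq_eq]
  have h1 : ∀ a, S.m a * lin S a h ^ 2 =
      ∑ j, ∑ k, (S.m a * S.T a j * S.T a k) * (h j * h k) := by
    intro a
    unfold lin
    rw [pow_two, Finset.sum_mul_sum, Finset.mul_sum]
    apply Finset.sum_congr rfl
    intro j _
    rw [Finset.mul_sum]
    apply Finset.sum_congr rfl
    intro k _
    ring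
  simp only [h1]
  rw [Finset.sum_comm]
  apply Finset.sum_congr rfl
  intro j _
  rw [Finset.sum_comm]
  simp only [← Finset.sum_mul, S.orth]
  simp [pow_two]

theorem f1_lin_le (S : Sys ι) (a : ι) (h : Ev ι) :
    |lin S a h| ≤ (Real.sqrt (S.m a))⁻¹ * ‖h‖ := by
  have h1 : S.m a * lin S a h ^ 2 ≤ ‖h‖ ^ 2 := by
    rw [← lin_sq S h]
    exact Finset.single_le_sum (f := fun a => S.m a * lin S a h ^ 2)
      (fun b _ => mul_nonneg (S.m_pos b).le (sq_nonneg _)) (Finset.mem_univ a)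
  have hs : 0 < Real.sqrt (S.m a) := Real.sqrt_pos.mpr (S.m_pos a)
  rw [inv_mul_eq_div, le_div_iff₀ hs]
  apply abs_le_of_sq_le_sq' _ (norm_nonneg h) |>.2 |> fun h => h
  rw [mul_pow, sq_abs, Real.sq_sqrt (S.m_pos a).le]
  linarith

theorem lin_le (S : Sys ι) : ∃ C : ℝ, 0 < C ∧ ∀ a h, |lin S a h| ≤ C * ‖h‖ := by
  refine ⟨∑ a, (Real.sqrt (S.m a))⁻¹, ?_, ?_⟩
  · apply Finset.sum_pos
    · intro a _
      exact inv_pos.mpr (Real.sqrt_pos.mpr (S.m_pos a))
    · exact ⟨S.o, Finset.mem_univ _⟩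
  · intro a h
    refine (f1_lin_le S a h).trans ?_
    apply mul_le_mul_of_nonneg_right _ (norm_nonneg h)
    exact Finset.single_le_sum (f := fun a => (Real.sqrt (S.m a))⁻¹)
      (fun b _ => (inv_pos.mpr (Real.sqrt_pos.mpr (S.m_pos b))).le) (Finset.mem_univ a)

theorem lin_one (S : Sys ι) (a : ι) : lin S a (one S) = 1 := by
  unfold lin one bv
  rw [Finset.sum_eq_single S.o]
  · simp only [PiLp.smul_apply, EuclideanSpace.single_apply, if_true, smul_eq_mul, mul_one]
    exact S.T_o a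
  · intro j _ hj
    simp [hj]
  · intro h
    exact absurd (Finset.mem_univ _) h

theorem aa_nonneg (S : Sys ι) (h : Ev ι) : 0 ≤ aa S h :=
  Finset.sum_nonneg fun j _ => mul_nonneg (Nat.cast_nonneg _) (sq_nonneg _)

theorem f1_mu (S : Sys ι) (j : ι) : (1 : ℝ) ≤ S.μ j := by
  by_cases hj : j = S.o
  · rw [hj, S.μ_o]; simp
  · have := S.one_lt j hj
    exact_mod_cast this.le

theorem f1_parseval (S : Sys ι) (E : ι → ℝ) :
    ∑ j, (∑ a, S.m a * S.T a j * E a) ^ 2 = ∑ a, S.m a * E a ^ 2 := by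
  have h1 : ∀ j, (∑ a, S.m a * S.T a j * E a) ^ 2 =
      ∑ a, ∑ b, (S.m a * E a * (S.m b * E b)) * (S.T a j * S.T b j) := by
    intro j
    rw [pow_two, Finset.sum_mul_sum]
    apply Finset.sum_congr rfl
    intro a _
    apply Finset.sum_congr rfl
    intro b _
    ring
  simp only [h1]
  rw [Finset.sum_comm]
  apply Finset.sum_congr rfl
  intro a _
  rw [Finset.sum_comm]
  simp only [← Finset.mul_sum, lin_complete]
  rw [Finset.sum_eq_single a]
  · rw [if_pos rfl]
    have := (S.m_pos a).ne'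
    field_simp
  · intro b _ hb
    rw [if_neg (fun h => hb h.symm), mul_zero]
  · intro h
    exact absurd (Finset.mem_univ _) h

theorem aa_lower (S : Sys ι) (h : Ev ι) :
    ∑ a, S.m a * (exp (lin S a h) - 1) ^ 2 ≤ aa S h := by
  rw [← f1_parseval S fun a => exp (lin S a h) - 1]
  unfold aa
  apply Finset.sum_le_sum
  intro j _
  exact le_mul_of_one_le_left (sq_nonneg _) (f1_mu S j)

theorem aa_upper (S : Sys ι) (h : Ev ι) :
    aa S h ≤ (∑ j, (S.μ j : ℝ)) * ∑ a, S.m a * (exp (lin S a h) - 1) ^ 2 := by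
  rw [← f1_parseval S fun a => exp (lin S a h) - 1]
  unfold aa
  rw [Finset.mul_sum]
  apply Finset.sum_le_sum
  intro j _
  apply mul_le_mul_of_nonneg_right _ (sq_nonneg _)
  exact Finset.single_le_sum (f := fun j => (S.μ j : ℝ)) (fun _ _ => Nat.cast_nonneg _)
    (Finset.mem_univ j)

theorem bb_nonneg (S : Sys ι) (h : Ev ι) : 0 ≤ bb S h := by
  unfold bb
  apply Finset.sum_nonneg
  intro a _
  have := Real.add_one_le_exp (lin S a h)
  exact mul_nonneg (S.m_pos a).le (by linarith)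

theorem f1_exp (t : ℝ) : exp t - 1 - t ≤ 1 / 2 * (exp t - 1) ^ 2 + max (-t) 0 := by
  rcases le_total 0 t with ht | ht
  · have hmono : Monotone fun t : ℝ => 1 / 2 * (exp t - 1) ^ 2 - (exp t - 1 - t) := by
      apply monotone_of_deriv_nonneg
      · fun_prop
      · intro x
        have h1 : HasDerivAt (fun t : ℝ => 1 / 2 * (exp t - 1) ^ 2 - (exp t - 1 - t))
            (1 / 2 * (2 * (exp x - 1) ^ (2 - 1) * exp x) - (exp x - 1)) x := by
          have e1 : HasDerivAt (fun t : ℝ => exp t - 1) (exp x) x :=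
            (Real.hasDerivAt_exp x).sub_const 1
          have e2 : HasDerivAt (fun t : ℝ => (exp t - 1) ^ 2) (2 * (exp x - 1) ^ (2 - 1) * exp x) x := by
            have := e1.pow 2
            exact_mod_cast this
          have e3 : HasDerivAt (fun t : ℝ => exp t - 1 - t) (exp x - 1) x :=
            e1.sub (hasDerivAt_id x)
          exact (e2.const_mul (1 / 2)).sub e3
        rw [h1.deriv]
        have : 1 / 2 * (2 * (exp x - 1) ^ (2 - 1) * exp x) - (exp x - 1) = (exp x - 1) ^ 2 := by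
          ring
        rw [this]
        exact sq_nonneg _
    have h1 := hmono ht
    simp only [exp_zero] at h1
    have h2 := le_max_right (-t) 0
    linarith
  · have h1 : exp t ≤ 1 := Real.exp_le_one_iff.mpr ht
    have h2 := le_max_left (-t) 0
    have h3 := sq_nonneg (exp t - 1)
    linarith

theorem bb_le (S : Sys ι) (h : Ev ι) : bb S h ≤ 1 / 2 * aa S h + ngs S h := by
  have h1 := aa_lower S h
  have h2 : bb S h ≤ 1 / 2 * ∑ a, S.m a * (exp (lin S a h) - 1) ^ 2 + ngs S h := by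
    unfold bb ngs
    rw [Finset.mul_sum, ← Finset.sum_add_distrib]
    apply Finset.sum_le_sum
    intro a _
    have := mul_le_mul_of_nonneg_left (f1_exp (lin S a h)) (S.m_pos a).le
    linarith
  linarith

theorem ngs_nonneg (S : Sys ι) (h : Ev ι) : 0 ≤ ngs S h :=
  Finset.sum_nonneg fun a _ => mul_nonneg (S.m_pos a).le (le_max_right _ _)

theorem ngs_le (S : Sys ι) : ∃ C : ℝ, 0 < C ∧ ∀ h, ngs S h ≤ C * ‖h‖ := by
  obtain ⟨C, hC, hl⟩ := lin_le S
  refine ⟨(∑ a, S.m a) * C, mul_pos (Finset.sum_pos (fun a _ => S.m_pos a)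
    ⟨S.o, Finset.mem_univ _⟩) hC, fun h => ?_⟩
  unfold ngs
  rw [Finset.sum_mul, Finset.sum_mul]
  apply Finset.sum_le_sum
  intro a _
  rw [mul_assoc]
  apply mul_le_mul_of_nonneg_left _ (S.m_pos a).le
  apply max_le
  · exact (neg_le_abs _).trans (hl a h)
  · exact (abs_nonneg _).trans (hl a h)

theorem f1_exp_min (t : ℝ) :
    (1 - exp (-1)) ^ 2 * min (t ^ 2) 1 ≤ (exp t - 1) ^ 2 := by
  have hc : 0 < 1 - exp (-1) := by
    have : exp (-1) < 1 := by
      rw [← Real.exp_zero]; exact Real.exp_lt_exp.mpr (by norm_num)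
    linarith
  have hc1 : 1 - exp (-1) ≤ 1 := by
    have := Real.exp_pos (-1)
    linarith
  have hm0 : 0 ≤ min (t ^ 2) 1 := le_min (sq_nonneg _) zero_le_one
  rcases le_total 0 t with ht | ht
  · have h1 := Real.add_one_le_exp t
    have h2 : t ^ 2 ≤ (exp t - 1) ^ 2 := by
      apply pow_le_pow_left₀ ht; linarith
    have h3 : (1 - exp (-1)) ^ 2 ≤ 1 := by nlinarith
    calc (1 - exp (-1)) ^ 2 * min (t ^ 2) 1 ≤ 1 * t ^ 2 :=
          mul_le_mul h3 (min_le_left _ _) hm0 zero_le_one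
      _ ≤ (exp t - 1) ^ 2 := by linarith
  · -- concavity of `1 - e^t`
    set s := min (-t) 1 with hs
    have hs0 : 0 ≤ s := le_min (by linarith) zero_le_one
    have hs1 : s ≤ 1 := min_le_right _ _
    have hst : exp t ≤ exp (-s) := Real.exp_le_exp.mpr (by
      have := min_le_left (-t) 1
      linarith)
    have hconv := convexOn_exp.2 (mem_univ (0 : ℝ)) (mem_univ (-1 : ℝ)) (sub_nonneg.mpr hs1) hs0
      (by ring)
    simp only [smul_eq_mul, mul_zero, zero_add, exp_zero, mul_one, mul_neg] at hconv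
    have h1 : (1 - exp (-1)) * s ≤ 1 - exp t := by nlinarith
    have h2 : min (t ^ 2) 1 = s ^ 2 := by
      rcases le_total (-t) 1 with h | h
      · rw [hs, min_eq_left h, min_eq_left]
        · ring
        · nlinarith
      · rw [hs, min_eq_right h, min_eq_right]
        · ring
        · nlinarith
    rw [h2, ← mul_pow]
    have h3 : (exp t - 1) ^ 2 = (1 - exp t) ^ 2 := by ring
    rw [h3]
    exact pow_le_pow_left₀ (mul_nonneg hc.le hs0) h1 2

theorem aa_min (S : Sys ι) : ∃ c : ℝ, 0 < c ∧ ∀ h, c * min (‖h‖ ^ 2) 1 ≤ aa S h := by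
  have hne : (Finset.univ : Finset ι).Nonempty := ⟨S.o, Finset.mem_univ _⟩
  obtain ⟨a₀, -, ha₀⟩ := Finset.exists_min_image Finset.univ S.m hne
  have hc : 0 < 1 - exp (-1) := by
    have : exp (-1) < 1 := by
      rw [← Real.exp_zero]; exact Real.exp_lt_exp.mpr (by norm_num)
    linarith
  have hm : 0 < min 1 (S.m a₀) := lt_min one_pos (S.m_pos a₀)
  refine ⟨(1 - exp (-1)) ^ 2 * min 1 (S.m a₀), by positivity, fun h => ?_⟩
  refine le_trans ?_ (aa_lower S h)
  have key : min 1 (S.m a₀) * min (‖h‖ ^ 2) 1 ≤ ∑ a, S.m a * min (lin S a h ^ 2) 1 := by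
    by_cases hall : ∀ a, lin S a h ^ 2 ≤ 1
    · have h1 : ∑ a, S.m a * min (lin S a h ^ 2) 1 = ‖h‖ ^ 2 := by
        rw [← lin_sq S h]
        apply Finset.sum_congr rfl
        intro a _
        rw [min_eq_left (hall a)]
      rw [h1]
      calc min 1 (S.m a₀) * min (‖h‖ ^ 2) 1 ≤ 1 * ‖h‖ ^ 2 :=
            mul_le_mul (min_le_left _ _) (min_le_left _ _)
              (le_min (sq_nonneg _) zero_le_one) zero_le_one
        _ = ‖h‖ ^ 2 := one_mul _
    · push Not at hall
      obtain ⟨b, hb⟩ := hall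
      have h1 : S.m b * min (lin S b h ^ 2) 1 ≤ ∑ a, S.m a * min (lin S a h ^ 2) 1 :=
        Finset.single_le_sum (f := fun a => S.m a * min (lin S a h ^ 2) 1)
          (fun a _ => mul_nonneg (S.m_pos a).le (le_min (sq_nonneg _) zero_le_one))
          (Finset.mem_univ b)
      rw [min_eq_right hb.le, mul_one] at h1
      refine le_trans ?_ h1
      calc min 1 (S.m a₀) * min (‖h‖ ^ 2) 1 ≤ S.m a₀ * 1 :=
            mul_le_mul (min_le_right _ _) (min_le_right _ _)
              (le_min (sq_nonneg _) zero_le_one) (S.m_pos a₀).le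
        _ ≤ S.m b := by rw [mul_one]; exact ha₀ b (Finset.mem_univ _)
  calc (1 - exp (-1)) ^ 2 * min 1 (S.m a₀) * min (‖h‖ ^ 2) 1
      = (1 - exp (-1)) ^ 2 * (min 1 (S.m a₀) * min (‖h‖ ^ 2) 1) := by ring
    _ ≤ (1 - exp (-1)) ^ 2 * ∑ a, S.m a * min (lin S a h ^ 2) 1 :=
        mul_le_mul_of_nonneg_left key (sq_nonneg _)
    _ = ∑ a, S.m a * ((1 - exp (-1)) ^ 2 * min (lin S a h ^ 2) 1) := by
        rw [Finset.mul_sum]
        apply Finset.sum_congr rfl
        intro a _
        ring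
    _ ≤ ∑ a, S.m a * (exp (lin S a h) - 1) ^ 2 := by
        apply Finset.sum_le_sum
        intro a _
        exact mul_le_mul_of_nonneg_left (f1_exp_min _) (S.m_pos a).le

theorem f1_exp_scale (t η : ℝ) (h0 : 0 ≤ η) (h1 : η ≤ 1) :
    (exp (η * t) - 1) ^ 2 ≤ (exp t - 1) ^ 2 := by
  rcases le_total 0 t with ht | ht
  · have e1 : 1 ≤ exp (η * t) := Real.one_le_exp (mul_nonneg h0 ht)
    have e2 : exp (η * t) ≤ exp t := Real.exp_le_exp.mpr (by nlinarith)
    exact pow_le_pow_left₀ (by linarith) (by linarith) 2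
  · have e1 : exp t ≤ exp (η * t) := Real.exp_le_exp.mpr (by nlinarith)
    have e2 : exp (η * t) ≤ 1 := Real.exp_le_one_iff.mpr (by nlinarith)
    have := pow_le_pow_left₀ (show 0 ≤ 1 - exp (η * t) by linarith)
      (show 1 - exp (η * t) ≤ 1 - exp t by linarith) 2
    linarith [this, show (1 - exp (η * t)) ^ 2 = (exp (η * t) - 1) ^ 2 by ring,
      show (1 - exp t) ^ 2 = (exp t - 1) ^ 2 by ring]

theorem aa_scale (S : Sys ι) : ∃ C : ℝ, 0 < C ∧ ∀ (h : Ev ι) (η : ℝ), 0 ≤ η → η ≤ 1 →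
    aa S (η • h) ≤ C * aa S h := by
  have hpos : 0 < ∑ j, (S.μ j : ℝ) :=
    Finset.sum_pos (fun j _ => lt_of_lt_of_le one_pos (f1_mu S j)) ⟨S.o, Finset.mem_univ _⟩
  refine ⟨∑ j, (S.μ j : ℝ), hpos, fun h η h0 h1 => ?_⟩
  have hlin : ∀ a, lin S a (η • h) = η * lin S a h := by
    intro a
    unfold lin
    rw [Finset.mul_sum]
    apply Finset.sum_congr rfl
    intro j _
    simp only [PiLp.smul_apply, smul_eq_mul]
    ring
  calc aa S (η • h) ≤ (∑ j, (S.μ j : ℝ)) * ∑ a, S.m a * (exp (lin S a (η • h)) - 1) ^ 2 :=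
        aa_upper S _
    _ ≤ (∑ j, (S.μ j : ℝ)) * ∑ a, S.m a * (exp (lin S a h) - 1) ^ 2 := by
        apply mul_le_mul_of_nonneg_left _ hpos.le
        apply Finset.sum_le_sum
        intro a _
        rw [hlin]
        exact mul_le_mul_of_nonneg_left (f1_exp_scale _ _ h0 h1) (S.m_pos a).le
    _ ≤ (∑ j, (S.μ j : ℝ)) * aa S h :=
        mul_le_mul_of_nonneg_left (aa_lower S h) hpos.le

end Pool.MP_ad5d82_an.Wl
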