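import Pool.Agent.Lib.MP_ad5d82_an.h24.FDefs
import Pool.Agent.Lib.MP_ad5d82_an.h24.F.F1

set_option autoImplicit false

namespace Pool.MP_ad5d82_an.Wl

open Real Set MeasureTheory Filter Topology
open scoped ContDiff

variable {ι : Type} [Fintype ι] [DecidableEq ι]

/-! ### F2 the potential `WW` as a function of `s` -/
theorem f2_lin_zero (S : Sys ι) (a : ι) : lin S a 0 = 0 := by
  unfold lin
  simp

theorem f2_aa_zero (S : Sys ι) : aa S 0 = 0 := by
  unfold aa
  simp [f2_lin_zero]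

theorem f2_bb_zero (S : Sys ι) : bb S 0 = 0 := by
  unfold bb
  simp [f2_lin_zero]

theorem f2_WW (S : Sys ι) (s : ℝ) (h : Ev ι) :
    WW S s h = 1 / 2 * exp s ^ 2 * (aa S h + 2 * bb S h) - exp s * bb S h := by
  unfold WW
  rw [two_mul s, Real.exp_add, pow_two]

theorem WW_zero (S : Sys ι) (s : ℝ) : WW S s 0 = 0 := by
  rw [f2_WW, f2_aa_zero, f2_bb_zero]
  ring

theorem f2_low (S : Sys ι) (s : ℝ) (hs : 9 / 10 ≤ exp s) (hs' : s ≤ 0) (h : Ev ι) :
    0.35 * aa S h - exp s * (1 - exp s) * ngs S h ≤ WW S s h := by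
  have hy : exp s ≤ 1 := Real.exp_le_one_iff.mpr hs'
  have ha := aa_nonneg S h
  have hb := bb_le S h
  rw [f2_WW]
  have h1 : exp s * (1 - exp s) * bb S h ≤
      exp s * (1 - exp s) * (1 / 2 * aa S h + ngs S h) :=
    mul_le_mul_of_nonneg_left hb (mul_nonneg (Real.exp_pos s).le (by linarith))
  have h2 : (0.35 : ℝ) ≤ exp s * (exp s - 1 / 2) := by nlinarith
  have h3 := mul_le_mul_of_nonneg_right h2 ha
  nlinarith

theorem WW_lower (S : Sys ι) (s : ℝ) (hs : 9 / 10 ≤ exp s) (hs' : s ≤ 0) (h : Ev ι) :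
    0.35 * aa S h - (1 - exp s) * ngs S h ≤ WW S s h := by
  refine le_trans ?_ (f2_low S s hs hs' h)
  have hy : exp s ≤ 1 := Real.exp_le_one_iff.mpr hs'
  have h1 : exp s * (1 - exp s) * ngs S h ≤ (1 - exp s) * ngs S h :=
    mul_le_mul_of_nonneg_right
      (mul_le_of_le_one_left (by linarith) hy) (ngs_nonneg S h)
  linarith

/-- the part that is nonnegative (used with Fatou) -/
theorem WW_fatou (S : Sys ι) (s : ℝ) (hs : 9 / 10 ≤ exp s) (hs' : s ≤ 0) (h : Ev ι) :
    0 ≤ WW S s h + exp s * (1 - exp s) * ngs S h := by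
  have h1 := f2_low S s hs hs' h
  have h2 := aa_nonneg S h
  nlinarith

theorem WW_upper (S : Sys ι) (s : ℝ) (hs' : s ≤ 0) (h : Ev ι) : WW S s h ≤ 1 / 2 * aa S h := by
  have hy : exp s ≤ 1 := Real.exp_le_one_iff.mpr hs'
  have hp := Real.exp_pos s
  have h1 : 0 ≤ exp s * (1 - exp s) * bb S h :=
    mul_nonneg (mul_nonneg hp.le (by linarith)) (bb_nonneg S h)
  have h2 : exp s ^ 2 * aa S h ≤ 1 * aa S h :=
    mul_le_mul_of_nonneg_right (by nlinarith) (aa_nonneg S h)
  rw [f2_WW]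
  nlinarith

theorem WW_mono (S : Sys ι) (s s' : ℝ) (hs : -Real.log 2 ≤ s) (hss : s ≤ s') (hs' : s' ≤ 0)
    (h : Ev ι) : WW S s h ≤ WW S s' h := by
  have hp : exp s ≤ exp s' := Real.exp_le_exp.mpr hss
  have hy : 1 / 2 ≤ exp s := by
    have h1 : exp (-Real.log 2) ≤ exp s := Real.exp_le_exp.mpr hs
    rw [Real.exp_neg, Real.exp_log (by norm_num)] at h1
    linarith
  have hab : 0 ≤ aa S h + 2 * bb S h := by
    have := aa_nonneg S h
    have := bb_nonneg S h
    linarith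
  have ha := aa_nonneg S h
  rw [f2_WW, f2_WW]
  have h1 : (exp s' - exp s) * (aa S h + 2 * bb S h) * 1 ≤
      (exp s' - exp s) * (aa S h + 2 * bb S h) * (exp s + exp s') :=
    mul_le_mul_of_nonneg_left (by linarith) (mul_nonneg (by linarith) hab)
  have h2 : 0 ≤ (exp s' - exp s) * aa S h := mul_nonneg (by linarith) ha
  nlinarith

theorem f2_exp_sub (s s' : ℝ) (hs : s ≤ 0) (hs' : s' ≤ 0) :
    (exp s - exp s') ^ 2 ≤ (s - s') ^ 2 := by
  have key : ∀ x y : ℝ, x ≤ y → y ≤ 0 → (exp y - exp x) ^ 2 ≤ (y - x) ^ 2 := by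
    intro x y hxy hy
    have h1 : exp x ≤ exp y := Real.exp_le_exp.mpr hxy
    have h2 : exp y - exp x ≤ y - x := by
      have e1 := Real.add_one_le_exp (x - y)
      have e2 : exp x = exp y * exp (x - y) := by rw [← Real.exp_add]; congr 1; ring
      have e3 : exp y ≤ 1 := Real.exp_le_one_iff.mpr hy
      have e4 : 1 - exp (x - y) ≤ y - x := by linarith
      have e5 : 0 ≤ 1 - exp (x - y) := by
        have : exp (x - y) ≤ 1 := Real.exp_le_one_iff.mpr (by linarith)
        linarith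
      rw [e2]
      have e6 := mul_le_mul_of_nonneg_right e3 e5
      linarith
    exact pow_le_pow_left₀ (by linarith) h2 2
  rcases le_total s s' with h | h
  · have := key s s' h hs'
    linarith [this, show (exp s' - exp s) ^ 2 = (exp s - exp s') ^ 2 by ring,
      show (s' - s) ^ 2 = (s - s') ^ 2 by ring]
  · exact key s' s h hs

theorem WW_mid (S : Sys ι) (s s' : ℝ) (hs : s ≤ 0) (hs' : s' ≤ 0) (h : Ev ι) :
    WW S s h + WW S s' h - 2 * WW S ((s + s') / 2) h
      ≤ 1 / 2 * (aa S h + 2 * bb S h) * (s - s') ^ 2 := by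
  have hab : 0 ≤ aa S h + 2 * bb S h := by
    have := aa_nonneg S h
    have := bb_nonneg S h
    linarith
  have h1 := mul_le_mul_of_nonneg_left (f2_exp_sub s s' hs hs') hab
  have e1 : exp ((s + s') / 2) ^ 2 = exp s * exp s' := by
    rw [← Real.exp_add, ← Real.exp_nat_mul]
    congr 1
    push_cast
    ring
  have e2 : exp ((s + s') / 2) = exp (s / 2) * exp (s' / 2) := by
    rw [← Real.exp_add]
    congr 1
    ring
  have e3 : exp s = exp (s / 2) ^ 2 := by
    rw [← Real.exp_nat_mul]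
    congr 1
    push_cast
    ring
  have e4 : exp s' = exp (s' / 2) ^ 2 := by
    rw [← Real.exp_nat_mul]
    congr 1
    push_cast
    ring
  have h2 : 0 ≤ bb S h * (exp (s / 2) - exp (s' / 2)) ^ 2 :=
    mul_nonneg (bb_nonneg S h) (sq_nonneg _)
  have h3 : bb S h * (exp (s / 2) - exp (s' / 2)) ^ 2 =
      bb S h * (exp s + exp s' - 2 * exp ((s + s') / 2)) := by
    rw [e2, e3, e4]
    ring
  rw [f2_WW, f2_WW, f2_WW, e1]
  rw [h3] at h2
  have h4 : (aa S h + 2 * bb S h) * (exp s - exp s') ^ 2 =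
      (aa S h + 2 * bb S h) * (exp s ^ 2 + exp s' ^ 2 - 2 * (exp s * exp s')) := by ring
  rw [h4] at h1
  linarith

end Pool.MP_ad5d82_an.Wl
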