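import Pool.Agent.Lib.MP_ad5d82_an.h24.FDefs
import Pool.Agent.Lib.MP_ad5d82_an.h24.F.F1

set_option autoImplicit false

namespace Pool.MP_ad5d82_an.Wl

open Real Set MeasureTheory Filter Topology
open scoped ContDiff

variable {ι : Type} [Fintype ι] [DecidableEq ι]

/-! ### F3 growth and Taylor expansion of `WW` -/

/-- `lin` as a continuous linear map -/
private noncomputable def F3L (S : Sys ι) (a : ι) : Ev ι →L[ℝ] ℝ :=
  ∑ j, S.T a j • (EuclideanSpace.proj j : Ev ι →L[ℝ] ℝ)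

private theorem F3L_apply (S : Sys ι) (a : ι) (h : Ev ι) : F3L S a h = lin S a h := by
  simp [F3L, lin]

private theorem lin_add' (S : Sys ι) (a : ι) (h k : Ev ι) :
    lin S a (h + k) = lin S a h + lin S a k := by
  rw [← F3L_apply, ← F3L_apply, ← F3L_apply, map_add]

private theorem lin_line (S : Sys ι) (a : ι) (h k : Ev ι) (t : ℝ) :
    lin S a (h + t • k) = lin S a h + t * lin S a k := by
  rw [← F3L_apply, ← F3L_apply, ← F3L_apply, map_add, map_smul, smul_eq_mul]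

/-- the components of `A^{1/2}` applied to `e^h - 1` -/
private noncomputable def F3P (S : Sys ι) (h : Ev ι) (j : ι) : ℝ :=
  ∑ a, S.m a * S.T a j * (exp (lin S a h) - 1)

private theorem aa_eq (S : Sys ι) (h : Ev ι) : aa S h = ∑ j, (S.μ j : ℝ) * F3P S h j ^ 2 := rfl

theorem WW_smooth (S : Sys ι) : ContDiff ℝ ∞ (fun p : ℝ × Ev ι => WW S p.1 p.2) := by
  unfold WW aa bb
  simp only [← F3L_apply]
  fun_prop

private theorem WW_smooth' (S : Sys ι) (s : ℝ) : ContDiff ℝ ∞ (WW S s) :=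
  (WW_smooth S).comp (contDiff_const.prodMk contDiff_id)

private theorem WW_line (S : Sys ι) (s : ℝ) (h k : Ev ι) :
    HasDerivAt (fun t : ℝ => WW S s (h + t • k))
      (exp (2 * s) * (∑ j, (S.μ j : ℝ) * (∑ a, S.m a * S.T a j * (exp (lin S a h) - 1)) *
        (∑ a, S.m a * S.T a j * (exp (lin S a h) * lin S a k)))
      + (exp (2 * s) - exp s) * ∑ a, S.m a * ((exp (lin S a h) - 1) * lin S a k)) 0 := by
  have hl : ∀ a, HasDerivAt (fun t : ℝ => lin S a h + t * lin S a k) (lin S a k) 0 := fun a => by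
    have := ((hasDerivAt_id (0 : ℝ)).mul_const (lin S a k)).const_add (lin S a h)
    simpa using this
  have he : ∀ a, HasDerivAt (fun t : ℝ => exp (lin S a h + t * lin S a k))
      (exp (lin S a h) * lin S a k) 0 := fun a => by
    have := (hl a).exp
    simpa using this
  have hP : ∀ j, HasDerivAt (fun t : ℝ => ∑ a, S.m a * S.T a j *
      (exp (lin S a h + t * lin S a k) - 1))
      (∑ a, S.m a * S.T a j * (exp (lin S a h) * lin S a k)) 0 := fun j =>
    HasDerivAt.fun_sum fun a _ => ((he a).sub_const 1).const_mul _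
  have haa : HasDerivAt (fun t : ℝ => ∑ j, (S.μ j : ℝ) * (∑ a, S.m a * S.T a j *
      (exp (lin S a h + t * lin S a k) - 1)) ^ 2)
      (∑ j, (S.μ j : ℝ) * (2 * (∑ a, S.m a * S.T a j * (exp (lin S a h) - 1)) *
        (∑ a, S.m a * S.T a j * (exp (lin S a h) * lin S a k)))) 0 := by
    refine HasDerivAt.fun_sum fun j _ => ?_
    have := ((hP j).pow 2).const_mul (S.μ j : ℝ)
    simpa using this
  have hbb : HasDerivAt (fun t : ℝ => ∑ a, S.m a * (exp (lin S a h + t * lin S a k) - 1 -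
      (lin S a h + t * lin S a k)))
      (∑ a, S.m a * (exp (lin S a h) * lin S a k - lin S a k)) 0 :=
    HasDerivAt.fun_sum fun a _ => (((he a).sub_const 1).sub (hl a)).const_mul _
  have hW := ((haa.add (hbb.const_mul 2)).const_mul (1 / 2 * exp (2 * s))).sub
    (hbb.const_mul (exp s))
  have e1 : (fun t : ℝ => WW S s (h + t • k)) = fun t : ℝ =>
      1 / 2 * exp (2 * s) * ((∑ j, (S.μ j : ℝ) * (∑ a, S.m a * S.T a j *
      (exp (lin S a h + t * lin S a k) - 1)) ^ 2) + 2 * ∑ a, S.m a *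
        (exp (lin S a h + t * lin S a k) - 1 - (lin S a h + t * lin S a k))) -
        exp s * ∑ a, S.m a * (exp (lin S a h + t * lin S a k) - 1 -
      (lin S a h + t * lin S a k)) := by
    funext t
    unfold WW aa bb
    simp only [lin_line]
  rw [e1]
  refine hW.congr_deriv ?_
  have e2 : ∑ j, (S.μ j : ℝ) * (2 * (∑ a, S.m a * S.T a j * (exp (lin S a h) - 1)) *
        (∑ a, S.m a * S.T a j * (exp (lin S a h) * lin S a k))) =
      2 * ∑ j, (S.μ j : ℝ) * (∑ a, S.m a * S.T a j * (exp (lin S a h) - 1)) *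
        (∑ a, S.m a * S.T a j * (exp (lin S a h) * lin S a k)) := by
    rw [Finset.mul_sum]
    exact Finset.sum_congr rfl fun j _ => by ring
  have e3 : ∑ a, S.m a * (exp (lin S a h) * lin S a k - lin S a k) =
      ∑ a, S.m a * ((exp (lin S a h) - 1) * lin S a k) :=
    Finset.sum_congr rfl fun a _ => by ring
  rw [e2, e3]
  ring

/-- explicit derivative. -/
theorem dWW_eq (S : Sys ι) (s : ℝ) (h k : Ev ι) : fderiv ℝ (WW S s) h k =
    exp (2 * s) * (∑ j, (S.μ j : ℝ) * (∑ a, S.m a * S.T a j * (exp (lin S a h) - 1)) *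
        (∑ a, S.m a * S.T a j * (exp (lin S a h) * lin S a k)))
      + (exp (2 * s) - exp s) * ∑ a, S.m a * ((exp (lin S a h) - 1) * lin S a k) := by
  have hd : DifferentiableAt ℝ (WW S s) h :=
    (WW_smooth' S s).differentiable (by simp) h
  rw [← hd.lineDeriv_eq_fderiv]
  exact (WW_line S s h k).deriv

/-- uniform bounds for the finite sums -/
private theorem sum_bd (S : Sys ι) : ∃ M : ℝ, 1 ≤ M ∧ ∀ (X : ι → ℝ) (B : ℝ), (∀ a, |X a| ≤ B) →
    (∀ j, |∑ a, S.m a * S.T a j * X a| ≤ M * B) ∧ |∑ a, S.m a * X a| ≤ M * B := by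
  refine ⟨1 + ∑ a, S.m a + ∑ j, ∑ a, S.m a * |S.T a j|, ?_, ?_⟩
  · have h1 : 0 ≤ ∑ a, S.m a := Finset.sum_nonneg fun a _ => (S.m_pos a).le
    have h2 : 0 ≤ ∑ j, ∑ a, S.m a * |S.T a j| := Finset.sum_nonneg fun j _ =>
      Finset.sum_nonneg fun a _ => mul_nonneg (S.m_pos a).le (abs_nonneg _)
    linarith
  · intro X B hX
    have hB : 0 ≤ B := (abs_nonneg _).trans (hX S.o)
    have h1 : 0 ≤ ∑ a, S.m a := Finset.sum_nonneg fun a _ => (S.m_pos a).le
    have h2 : 0 ≤ ∑ j, ∑ a, S.m a * |S.T a j| := Finset.sum_nonneg fun j _ =>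
      Finset.sum_nonneg fun a _ => mul_nonneg (S.m_pos a).le (abs_nonneg _)
    constructor
    · intro j
      calc |∑ a, S.m a * S.T a j * X a| ≤ ∑ a, |S.m a * S.T a j * X a| :=
            Finset.abs_sum_le_sum_abs _ _
        _ ≤ ∑ a, S.m a * |S.T a j| * B := by
            refine Finset.sum_le_sum fun a _ => ?_
            rw [abs_mul, abs_mul, abs_of_pos (S.m_pos a)]
            exact mul_le_mul_of_nonneg_left (hX a)
              (mul_nonneg (S.m_pos a).le (abs_nonneg _))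
        _ = (∑ a, S.m a * |S.T a j|) * B := by rw [Finset.sum_mul]
        _ ≤ (∑ j, ∑ a, S.m a * |S.T a j|) * B := by
            refine mul_le_mul_of_nonneg_right ?_ hB
            exact Finset.single_le_sum (f := fun j => ∑ a, S.m a * |S.T a j|)
              (fun j _ => Finset.sum_nonneg fun a _ => mul_nonneg (S.m_pos a).le (abs_nonneg _))
              (Finset.mem_univ j)
        _ ≤ _ := mul_le_mul_of_nonneg_right (by linarith) hB
    · calc |∑ a, S.m a * X a| ≤ ∑ a, |S.m a * X a| := Finset.abs_sum_le_sum_abs _ _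
        _ ≤ ∑ a, S.m a * B := by
            refine Finset.sum_le_sum fun a _ => ?_
            rw [abs_mul, abs_of_pos (S.m_pos a)]
            exact mul_le_mul_of_nonneg_left (hX a) (S.m_pos a).le
        _ = (∑ a, S.m a) * B := by rw [Finset.sum_mul]
        _ ≤ _ := mul_le_mul_of_nonneg_right (by linarith) hB

private theorem mu_bd (S : Sys ι) (u v : ι → ℝ) (U V : ℝ) (hu : ∀ j, |u j| ≤ U)
    (hv : ∀ j, |v j| ≤ V) :
    |∑ j, (S.μ j : ℝ) * u j * v j| ≤ (∑ j, (S.μ j : ℝ)) * (U * V) := by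
  calc |∑ j, (S.μ j : ℝ) * u j * v j| ≤ ∑ j, |(S.μ j : ℝ) * u j * v j| :=
        Finset.abs_sum_le_sum_abs _ _
    _ ≤ ∑ j, (S.μ j : ℝ) * (U * V) := by
        refine Finset.sum_le_sum fun j _ => ?_
        rw [abs_mul, abs_mul, Nat.abs_cast, mul_assoc]
        refine mul_le_mul_of_nonneg_left ?_ (by positivity)
        exact mul_le_mul (hu j) (hv j) (abs_nonneg _) ((abs_nonneg _).trans (hu j))
    _ = _ := by rw [Finset.sum_mul]

private theorem exp_bd {C : ℝ} (hC : 0 < C) {t x : ℝ} (h : t ≤ C * x) (hx : 0 ≤ x) :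
    |exp t - 1| ≤ exp (C * x) := by
  have h1 : exp t ≤ exp (C * x) := exp_le_exp.mpr h
  have h2 := exp_pos t
  have h3 : 1 ≤ exp (C * x) := one_le_exp (by positivity)
  rw [abs_le]
  constructor <;> linarith

private theorem ys {s : ℝ} (hs : s ≤ 0) : 0 < exp s ∧ exp s ≤ 1 ∧ 0 < exp (2 * s) ∧
    exp (2 * s) ≤ exp s ∧ |exp (2 * s) - exp s| ≤ exp s := by
  have h1 := exp_pos s
  have h2 : exp s ≤ 1 := exp_le_one_iff.mpr hs
  have h3 := exp_pos (2 * s)
  have h4 : exp (2 * s) ≤ exp s := exp_le_exp.mpr (by linarith)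
  refine ⟨h1, h2, h3, h4, ?_⟩
  rw [abs_le]
  constructor <;> linarith

private theorem WW_eq2 (S : Sys ι) (s : ℝ) (h : Ev ι) :
    WW S s h = 1 / 2 * exp (2 * s) * aa S h + (exp (2 * s) - exp s) * bb S h := by
  unfold WW
  ring

theorem WW_growth (S : Sys ι) : ∃ C : ℝ, 0 < C ∧ ∀ (s : ℝ) (v h : Ev ι), s ≤ 0 →
    (∀ a, lin S a v ≤ 0) → |WW S s (v + h)| ≤ C * (‖v‖ + exp (C * ‖h‖)) := by
  obtain ⟨C0, hC0, hlin⟩ := lin_le S
  obtain ⟨M, hM, hbd⟩ := sum_bd S
  set N : ℝ := ∑ j, (S.μ j : ℝ) with hN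
  have hN0 : 0 ≤ N := Finset.sum_nonneg fun j _ => by positivity
  refine ⟨N * M ^ 2 + M + M * C0 + 2 * C0 + 1, by positivity, ?_⟩
  intro s v h hs hv
  set C : ℝ := N * M ^ 2 + M + M * C0 + 2 * C0 + 1 with hC
  obtain ⟨y0, y1, z0, z1, z2⟩ := ys hs
  have hh := norm_nonneg h
  have hvn := norm_nonneg v
  set B : ℝ := exp (C0 * ‖h‖) with hB
  set e : ℝ := exp (C * ‖h‖) with he
  have hNM : 0 ≤ N * M ^ 2 := by positivity
  have hMC : 0 ≤ M * C0 := by positivity
  have hB2 : B ^ 2 ≤ e := by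
    rw [hB, he, ← exp_nat_mul]
    refine exp_le_exp.mpr ?_
    push_cast
    nlinarith
  have hB0 : 0 < B := exp_pos _
  have hB1 : 1 ≤ B := one_le_exp (by positivity)
  have hBe : B ≤ e := by nlinarith
  have hhe : ‖h‖ ≤ e := by
    have h1 := add_one_le_exp (C * ‖h‖)
    have h2 : ‖h‖ ≤ C * ‖h‖ := by nlinarith
    linarith
  have ht : ∀ a, lin S a (v + h) ≤ C0 * ‖h‖ := fun a => by
    rw [lin_add']
    have := (abs_le.mp (hlin a h)).2
    linarith [hv a]
  have hE : ∀ a, |exp (lin S a (v + h)) - 1| ≤ B := fun a => exp_bd hC0 (ht a) hh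
  have hP := (hbd _ B hE).1
  have haa : |aa S (v + h)| ≤ N * ((M * B) * (M * B)) := by
    have := mu_bd S (F3P S (v + h)) (F3P S (v + h)) (M * B) (M * B) hP hP
    rw [aa_eq]
    refine le_trans (le_of_eq ?_) this
    congr 1
    exact Finset.sum_congr rfl fun j _ => by ring
  have hbb : |bb S (v + h)| ≤ M * (B + C0 * (‖v‖ + ‖h‖)) := by
    refine (hbd (fun a => exp (lin S a (v + h)) - 1 - lin S a (v + h)) _ fun a => ?_).2
    calc |exp (lin S a (v + h)) - 1 - lin S a (v + h)|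
        ≤ |exp (lin S a (v + h)) - 1| + |lin S a (v + h)| := abs_sub _ _
      _ ≤ B + C0 * (‖v‖ + ‖h‖) := by
          refine add_le_add (hE a) ((hlin a _).trans ?_)
          exact mul_le_mul_of_nonneg_left (norm_add_le _ _) hC0.le
  rw [WW_eq2]
  calc |1 / 2 * exp (2 * s) * aa S (v + h) + (exp (2 * s) - exp s) * bb S (v + h)|
      ≤ |1 / 2 * exp (2 * s) * aa S (v + h)| + |(exp (2 * s) - exp s) * bb S (v + h)| :=
        abs_add_le _ _
    _ ≤ 1 * (N * ((M * B) * (M * B))) + 1 * (M * (B + C0 * (‖v‖ + ‖h‖))) := by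
        rw [abs_mul, abs_mul (exp (2 * s) - exp s)]
        refine add_le_add (mul_le_mul ?_ haa (abs_nonneg _) (by norm_num))
          (mul_le_mul (z2.trans y1) hbb (abs_nonneg _) (by norm_num))
        rw [abs_of_pos (by positivity)]
        linarith
    _ = N * M ^ 2 * B ^ 2 + M * B + M * C0 * ‖v‖ + M * C0 * ‖h‖ := by ring
    _ ≤ N * M ^ 2 * e + M * e + M * C0 * ‖v‖ + M * C0 * e := by gcongr
    _ ≤ C * (‖v‖ + e) := by
        have e0 : 0 < e := exp_pos _
        rw [hC]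
        nlinarith [mul_nonneg hNM hvn, mul_nonneg (by linarith : (0 : ℝ) ≤ M) hvn,
          mul_nonneg hC0.le hvn, mul_nonneg hC0.le e0.le]

theorem dWW_growth (S : Sys ι) : ∃ C : ℝ, 0 < C ∧ ∀ (s : ℝ) (v h : Ev ι), s ≤ 0 →
    (∀ a, lin S a v ≤ 0) → ‖fderiv ℝ (WW S s) (v + h)‖ ≤ C * exp (C * ‖h‖) := by
  obtain ⟨C0, hC0, hlin⟩ := lin_le S
  obtain ⟨M, hM, hbd⟩ := sum_bd S
  set N : ℝ := ∑ j, (S.μ j : ℝ) with hN
  have hN0 : 0 ≤ N := Finset.sum_nonneg fun j _ => by positivity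
  refine ⟨N * M ^ 2 * C0 + M * C0 + 2 * C0, by positivity, ?_⟩
  intro s v h hs hv
  set C : ℝ := N * M ^ 2 * C0 + M * C0 + 2 * C0 with hC
  obtain ⟨y0, y1, z0, z1, z2⟩ := ys hs
  have hh := norm_nonneg h
  set B : ℝ := exp (C0 * ‖h‖) with hB
  set e : ℝ := exp (C * ‖h‖) with he
  have hNM : 0 ≤ N * M ^ 2 * C0 := by positivity
  have hMC : 0 ≤ M * C0 := by positivity
  have hB2 : B ^ 2 ≤ e := by
    rw [hB, he, ← exp_nat_mul]
    refine exp_le_exp.mpr ?_
    push_cast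
    nlinarith
  have hB0 : 0 < B := exp_pos _
  have hB1 : 1 ≤ B := one_le_exp (by positivity)
  have hBe : B ≤ e := by nlinarith
  have e0 : 0 < e := exp_pos _
  have ht : ∀ a, lin S a (v + h) ≤ C0 * ‖h‖ := fun a => by
    rw [lin_add']
    have := (abs_le.mp (hlin a h)).2
    linarith [hv a]
  have hE : ∀ a, |exp (lin S a (v + h)) - 1| ≤ B := fun a => exp_bd hC0 (ht a) hh
  have hE' : ∀ a, |exp (lin S a (v + h))| ≤ B := fun a => by
    rw [abs_of_pos (exp_pos _)]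
    exact exp_le_exp.mpr (ht a)
  refine ContinuousLinearMap.opNorm_le_bound _ (by positivity) fun k => ?_
  have hk := norm_nonneg k
  rw [dWW_eq, Real.norm_eq_abs]
  have h1 := (hbd _ B hE).1
  have h2 := (hbd (fun a => exp (lin S a (v + h)) * lin S a k) (B * (C0 * ‖k‖)) fun a => by
    rw [abs_mul]
    exact mul_le_mul (hE' a) (hlin a k) (abs_nonneg _) hB0.le).1
  have h3 := (hbd (fun a => (exp (lin S a (v + h)) - 1) * lin S a k) (B * (C0 * ‖k‖)) fun a => by
    rw [abs_mul]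
    exact mul_le_mul (hE a) (hlin a k) (abs_nonneg _) hB0.le).2
  have h4 := mu_bd S _ _ _ _ h1 h2
  refine (abs_add_le _ _).trans ?_
  rw [abs_mul, abs_mul (exp (2 * s) - exp s), abs_of_pos z0]
  calc exp (2 * s) * _ + |exp (2 * s) - exp s| * _
      ≤ 1 * ((∑ j, (S.μ j : ℝ)) * (M * B * (M * (B * (C0 * ‖k‖))))) +
          1 * (M * (B * (C0 * ‖k‖))) :=
        add_le_add (mul_le_mul (by linarith) h4 (abs_nonneg _) (by norm_num))
          (mul_le_mul (z2.trans y1) h3 (abs_nonneg _) (by norm_num))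
    _ = (N * M ^ 2 * C0 * B ^ 2 + M * C0 * B) * ‖k‖ := by rw [← hN]; ring
    _ ≤ (N * M ^ 2 * C0 * e + M * C0 * e) * ‖k‖ := by gcongr
    _ ≤ C * e * ‖k‖ := by
        refine mul_le_mul_of_nonneg_right ?_ hk
        rw [hC]
        nlinarith [mul_nonneg hC0.le e0.le]

/-- quadratic remainder of the exponential -/
private theorem exp_rem (t : ℝ) : |exp t - 1| ≤ |t| * exp |t| ∧
    |exp t - 1 - t| ≤ t ^ 2 * exp |t| := by
  have h0 : exp t - 1 ≤ t * exp t := by
    have h1 := add_one_le_exp (-t)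
    have h2 : exp t * (-t + 1) ≤ exp t * exp (-t) := mul_le_mul_of_nonneg_left h1 (exp_pos t).le
    rw [← exp_add, add_neg_cancel, exp_zero] at h2
    linarith
  have h1 := add_one_le_exp t
  have ha := abs_nonneg t
  have hea : 1 ≤ exp |t| := one_le_exp ha
  have key : |exp t - 1| ≤ |t| * exp |t| := by
    rcases le_total 0 t with ht | ht
    · rw [abs_of_nonneg ht, abs_of_nonneg (by linarith)]
      exact h0
    · rw [abs_of_nonpos (by linarith [exp_le_one_iff.mpr ht])]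
      have h2 : -t ≤ |t| := neg_le_abs t
      nlinarith
  refine ⟨key, ?_⟩
  rw [abs_of_nonneg (by linarith)]
  calc exp t - 1 - t ≤ t * (exp t - 1) := by linarith
    _ ≤ |t| * |exp t - 1| := by rw [← abs_mul]; exact le_abs_self _
    _ ≤ |t| * (|t| * exp |t|) := mul_le_mul_of_nonneg_left key ha
    _ = t ^ 2 * exp |t| := by rw [← sq_abs t]; ring

theorem WW_taylor (S : Sys ι) : ∃ C : ℝ, 0 < C ∧ ∀ (s : ℝ) (v h k : Ev ι), s ≤ 0 →
    (∀ a, lin S a v ≤ 0) →
    |WW S s (v + h + k) - WW S s (v + h) - fderiv ℝ (WW S s) (v + h) k|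
      ≤ C * exp (C * (‖h‖ + ‖k‖)) * ‖k‖ ^ 2 := by
  obtain ⟨C0, hC0, hlin⟩ := lin_le S
  obtain ⟨M, hM, hbd⟩ := sum_bd S
  set N : ℝ := ∑ j, (S.μ j : ℝ) with hN
  have hN0 : 0 ≤ N := Finset.sum_nonneg fun j _ => by positivity
  refine ⟨2 * (N * M ^ 2 * C0 ^ 2) + M * C0 ^ 2 + 2 * C0, by positivity, ?_⟩
  intro s v h k hs hv
  set C : ℝ := 2 * (N * M ^ 2 * C0 ^ 2) + M * C0 ^ 2 + 2 * C0 with hC
  obtain ⟨y0, y1, z0, z1, z2⟩ := ys hs
  have hh := norm_nonneg h
  have hk := norm_nonneg k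
  set B : ℝ := exp (C0 * ‖h‖) with hB
  set D : ℝ := exp (C0 * ‖k‖) with hD
  set e : ℝ := exp (C * (‖h‖ + ‖k‖)) with he
  have hNM : 0 ≤ N * M ^ 2 * C0 ^ 2 := by positivity
  have hMC : 0 ≤ M * C0 ^ 2 := by positivity
  have hBD2 : B ^ 2 * D ^ 2 ≤ e := by
    rw [hB, hD, he, ← exp_nat_mul, ← exp_nat_mul, ← exp_add]
    refine exp_le_exp.mpr ?_
    push_cast
    nlinarith
  have hB0 : 0 < B := exp_pos _
  have hB1 : 1 ≤ B := one_le_exp (by positivity)
  have hD0 : 0 < D := exp_pos _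
  have hD1 : 1 ≤ D := one_le_exp (by positivity)
  have e0 : 0 < e := exp_pos _
  have hBD1 : 1 ≤ B * D := by nlinarith
  have hBDe : B * D ≤ e := by nlinarith
  have hBDe2 : B * (B * D) ≤ e := by
    have : B * (B * D) ≤ (B * D) * (B * D) := by
      refine mul_le_mul_of_nonneg_right ?_ (by positivity)
      nlinarith
    nlinarith
  have ht : ∀ a, lin S a (v + h) ≤ C0 * ‖h‖ := fun a => by
    rw [lin_add']
    have := (abs_le.mp (hlin a h)).2
    linarith [hv a]
  have hE : ∀ a, |exp (lin S a (v + h)) - 1| ≤ B := fun a => exp_bd hC0 (ht a) hh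
  have hE' : ∀ a, |exp (lin S a (v + h))| ≤ B := fun a => by
    rw [abs_of_pos (exp_pos _)]
    exact exp_le_exp.mpr (ht a)
  -- the increments
  set E : ι → ℝ := fun a => exp (lin S a (v + h)) with hEd
  set κ : ι → ℝ := fun a => lin S a k with hκ
  set δ : ι → ℝ := fun a => E a * (exp (κ a) - 1) with hδ
  have hκb : ∀ a, |κ a| ≤ C0 * ‖k‖ := fun a => hlin a k
  have hκe : ∀ a, exp |κ a| ≤ D := fun a => exp_le_exp.mpr (hκb a)
  have hδb : ∀ a, |δ a| ≤ B * (C0 * ‖k‖ * D) := fun a => by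
    rw [hδ]
    simp only
    rw [abs_mul]
    refine mul_le_mul (hE' a) ((exp_rem (κ a)).1.trans ?_) (abs_nonneg _) hB0.le
    exact mul_le_mul (hκb a) (hκe a) (exp_pos _).le (by positivity)
  have hρb : ∀ a, |δ a - E a * κ a| ≤ B * ((C0 * ‖k‖) ^ 2 * D) := fun a => by
    have e1 : δ a - E a * κ a = E a * (exp (κ a) - 1 - κ a) := by rw [hδ]; ring
    rw [e1, abs_mul]
    refine mul_le_mul (hE' a) ((exp_rem (κ a)).2.trans ?_) (abs_nonneg _) hB0.le
    refine mul_le_mul ?_ (hκe a) (exp_pos _).le (by positivity)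
    rw [← sq_abs (κ a)]
    exact pow_le_pow_left₀ (abs_nonneg _) (hκb a) 2
  have hEk : ∀ a, exp (lin S a (v + h + k)) = E a + δ a := fun a => by
    rw [lin_add' S a (v + h) k, exp_add, hδ]
    simp only [hEd, hκ]
    ring
  have hPk : ∀ j, F3P S (v + h + k) j = F3P S (v + h) j + ∑ a, S.m a * S.T a j * δ a := by
    intro j
    unfold F3P
    rw [← Finset.sum_add_distrib]
    refine Finset.sum_congr rfl fun a _ => ?_
    rw [hEk a]
    simp only [hEd]
    ring
  have hbk : bb S (v + h + k) = bb S (v + h) + ∑ a, S.m a * (δ a - κ a) := by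
    unfold bb
    rw [← Finset.sum_add_distrib]
    refine Finset.sum_congr rfl fun a _ => ?_
    rw [hEk a, lin_add' S a (v + h) k]
    simp only [hEd, hκ]
    ring
  have e3 : WW S s (v + h + k) - WW S s (v + h) - fderiv ℝ (WW S s) (v + h) k =
      exp (2 * s) * (∑ j, (S.μ j : ℝ) * F3P S (v + h) j *
        (∑ a, S.m a * S.T a j * (δ a - E a * κ a)) +
        1 / 2 * ∑ j, (S.μ j : ℝ) * (∑ a, S.m a * S.T a j * δ a) *
          (∑ a, S.m a * S.T a j * δ a)) +
      (exp (2 * s) - exp s) * ∑ a, S.m a * (δ a - E a * κ a) := by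
    rw [dWW_eq, WW_eq2, WW_eq2, hbk]
    have e4 : aa S (v + h + k) = aa S (v + h) + 2 * ∑ j, (S.μ j : ℝ) * F3P S (v + h) j *
        (∑ a, S.m a * S.T a j * δ a) + ∑ j, (S.μ j : ℝ) * (∑ a, S.m a * S.T a j * δ a) *
          (∑ a, S.m a * S.T a j * δ a) := by
      rw [aa_eq, aa_eq, Finset.mul_sum, ← Finset.sum_add_distrib, ← Finset.sum_add_distrib]
      refine Finset.sum_congr rfl fun j _ => ?_
      rw [hPk j]
      ring
    have e5 : ∑ j, (S.μ j : ℝ) * F3P S (v + h) j * (∑ a, S.m a * S.T a j * (δ a - E a * κ a)) =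
        ∑ j, (S.μ j : ℝ) * F3P S (v + h) j * (∑ a, S.m a * S.T a j * δ a) -
        ∑ j, (S.μ j : ℝ) * F3P S (v + h) j * (∑ a, S.m a * S.T a j * (E a * κ a)) := by
      rw [← Finset.sum_sub_distrib]
      refine Finset.sum_congr rfl fun j _ => ?_
      rw [← mul_sub, ← Finset.sum_sub_distrib]
      congr 1
      exact Finset.sum_congr rfl fun a _ => by ring
    have e6 : ∑ a, S.m a * (δ a - E a * κ a) = ∑ a, S.m a * (δ a - κ a) -
        ∑ a, S.m a * ((E a - 1) * κ a) := by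
      rw [← Finset.sum_sub_distrib]
      exact Finset.sum_congr rfl fun a _ => by ring
    rw [e4, e5, e6]
    have e7 : ∑ j, (S.μ j : ℝ) * (∑ a, S.m a * S.T a j * (exp (lin S a (v + h)) - 1)) *
        (∑ a, S.m a * S.T a j * (exp (lin S a (v + h)) * lin S a k)) =
        ∑ j, (S.μ j : ℝ) * F3P S (v + h) j * (∑ a, S.m a * S.T a j * (E a * κ a)) := rfl
    have e8 : ∑ a, S.m a * ((exp (lin S a (v + h)) - 1) * lin S a k) =
        ∑ a, S.m a * ((E a - 1) * κ a) := rfl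
    rw [e7, e8]
    ring
  rw [e3]
  have h1 := (hbd _ B hE).1
  have h2 := (hbd _ _ hρb).1
  have h3 := (hbd _ _ hρb).2
  have h4 := (hbd _ _ hδb).1
  have h5 := mu_bd S _ _ _ _ h1 h2
  have h6 := mu_bd S _ _ _ _ h4 h4
  calc |exp (2 * s) * (∑ j, (S.μ j : ℝ) * F3P S (v + h) j *
        (∑ a, S.m a * S.T a j * (δ a - E a * κ a)) +
        1 / 2 * ∑ j, (S.μ j : ℝ) * (∑ a, S.m a * S.T a j * δ a) *
          (∑ a, S.m a * S.T a j * δ a)) +
      (exp (2 * s) - exp s) * ∑ a, S.m a * (δ a - E a * κ a)|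
      ≤ |exp (2 * s) * (∑ j, (S.μ j : ℝ) * F3P S (v + h) j *
        (∑ a, S.m a * S.T a j * (δ a - E a * κ a)) +
        1 / 2 * ∑ j, (S.μ j : ℝ) * (∑ a, S.m a * S.T a j * δ a) *
          (∑ a, S.m a * S.T a j * δ a))| +
        |(exp (2 * s) - exp s) * ∑ a, S.m a * (δ a - E a * κ a)| := abs_add_le _ _
    _ ≤ 1 * (N * (M * B * (M * (B * ((C0 * ‖k‖) ^ 2 * D)))) +
          N * (M * (B * (C0 * ‖k‖ * D)) * (M * (B * (C0 * ‖k‖ * D))))) +
        1 * (M * (B * ((C0 * ‖k‖) ^ 2 * D))) := by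
        rw [abs_mul, abs_mul (exp (2 * s) - exp s), abs_of_pos z0]
        refine add_le_add (mul_le_mul (by linarith) ((abs_add_le _ _).trans
          (add_le_add h5 ?_)) (abs_nonneg _) (by norm_num))
          (mul_le_mul (z2.trans y1) h3 (abs_nonneg _) (by norm_num))
        rw [abs_mul, abs_of_pos (by norm_num : (0 : ℝ) < 1 / 2)]
        have := abs_nonneg (∑ j, (S.μ j : ℝ) * (∑ a, S.m a * S.T a j * δ a) *
          (∑ a, S.m a * S.T a j * δ a))
        linarith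
    _ = (N * M ^ 2 * C0 ^ 2 * (B * (B * D)) + N * M ^ 2 * C0 ^ 2 * (B ^ 2 * D ^ 2) +
          M * C0 ^ 2 * (B * D)) * ‖k‖ ^ 2 := by ring
    _ ≤ (N * M ^ 2 * C0 ^ 2 * e + N * M ^ 2 * C0 ^ 2 * e + M * C0 ^ 2 * e) * ‖k‖ ^ 2 := by
        gcongr
    _ ≤ C * e * ‖k‖ ^ 2 := by
        refine mul_le_mul_of_nonneg_right ?_ (by positivity)
        rw [hC]
        nlinarith [mul_nonneg hC0.le e0.le]

theorem dWW_small (S : Sys ι) : ∃ C : ℝ, 0 < C ∧ ∀ (s : ℝ) (h : Ev ι), s ≤ 0 →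
    ‖fderiv ℝ (WW S s) h‖ ≤ C * ‖h‖ * exp (C * ‖h‖) := by
  obtain ⟨C0, hC0, hlin⟩ := lin_le S
  obtain ⟨M, hM, hbd⟩ := sum_bd S
  set N : ℝ := ∑ j, (S.μ j : ℝ) with hN
  have hN0 : 0 ≤ N := Finset.sum_nonneg fun j _ => by positivity
  refine ⟨N * M ^ 2 * C0 ^ 2 + M * C0 ^ 2 + 2 * C0, by positivity, ?_⟩
  intro s h hs
  set C : ℝ := N * M ^ 2 * C0 ^ 2 + M * C0 ^ 2 + 2 * C0 with hC
  obtain ⟨y0, y1, z0, z1, z2⟩ := ys hs
  have hh := norm_nonneg h
  set B : ℝ := exp (C0 * ‖h‖) with hB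
  set e : ℝ := exp (C * ‖h‖) with he
  have hNM : 0 ≤ N * M ^ 2 * C0 ^ 2 := by positivity
  have hMC : 0 ≤ M * C0 ^ 2 := by positivity
  have hB2 : B ^ 2 ≤ e := by
    rw [hB, he, ← exp_nat_mul]
    refine exp_le_exp.mpr ?_
    push_cast
    nlinarith
  have hB0 : 0 < B := exp_pos _
  have hB1 : 1 ≤ B := one_le_exp (by positivity)
  have hBe : B ≤ e := by nlinarith
  have e0 : 0 < e := exp_pos _
  have hE : ∀ a, |exp (lin S a h) - 1| ≤ C0 * ‖h‖ * B := fun a =>
    (exp_rem _).1.trans (mul_le_mul (hlin a h) (exp_le_exp.mpr (hlin a h)) (exp_pos _).le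
      (by positivity))
  have hE' : ∀ a, |exp (lin S a h)| ≤ B := fun a => by
    rw [abs_of_pos (exp_pos _)]
    exact exp_le_exp.mpr ((le_abs_self _).trans (hlin a h))
  refine ContinuousLinearMap.opNorm_le_bound _ (by positivity) fun k => ?_
  have hk := norm_nonneg k
  rw [dWW_eq, Real.norm_eq_abs]
  have h1 := (hbd _ _ hE).1
  have h2 := (hbd (fun a => exp (lin S a h) * lin S a k) (B * (C0 * ‖k‖)) fun a => by
    rw [abs_mul]
    exact mul_le_mul (hE' a) (hlin a k) (abs_nonneg _) hB0.le).1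
  have h3 := (hbd (fun a => (exp (lin S a h) - 1) * lin S a k) (C0 * ‖h‖ * B * (C0 * ‖k‖))
    fun a => by
    rw [abs_mul]
    exact mul_le_mul (hE a) (hlin a k) (abs_nonneg _) (by positivity)).2
  have h4 := mu_bd S _ _ _ _ h1 h2
  refine (abs_add_le _ _).trans ?_
  rw [abs_mul, abs_mul (exp (2 * s) - exp s), abs_of_pos z0]
  calc exp (2 * s) * _ + |exp (2 * s) - exp s| * _
      ≤ 1 * ((∑ j, (S.μ j : ℝ)) * (M * (C0 * ‖h‖ * B) * (M * (B * (C0 * ‖k‖))))) +
          1 * (M * (C0 * ‖h‖ * B * (C0 * ‖k‖))) :=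
        add_le_add (mul_le_mul (by linarith) h4 (abs_nonneg _) (by norm_num))
          (mul_le_mul (z2.trans y1) h3 (abs_nonneg _) (by norm_num))
    _ = (N * M ^ 2 * C0 ^ 2 * B ^ 2 + M * C0 ^ 2 * B) * ‖h‖ * ‖k‖ := by rw [← hN]; ring
    _ ≤ (N * M ^ 2 * C0 ^ 2 * e + M * C0 ^ 2 * e) * ‖h‖ * ‖k‖ := by gcongr
    _ ≤ C * ‖h‖ * e * ‖k‖ := by
        refine mul_le_mul_of_nonneg_right ?_ hk
        have : (N * M ^ 2 * C0 ^ 2 * e + M * C0 ^ 2 * e) * ‖h‖ ≤ (C * e) * ‖h‖ := by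
          refine mul_le_mul_of_nonneg_right ?_ hh
          rw [hC]
          nlinarith [mul_nonneg hC0.le e0.le]
        linarith

theorem WW_small (S : Sys ι) : ∃ C : ℝ, 0 < C ∧ ∀ (s : ℝ) (h : Ev ι), s ≤ 0 →
    |WW S s h| ≤ C * exp s * ‖h‖ ^ 2 * exp (C * ‖h‖) := by
  obtain ⟨C0, hC0, hlin⟩ := lin_le S
  obtain ⟨M, hM, hbd⟩ := sum_bd S
  set N : ℝ := ∑ j, (S.μ j : ℝ) with hN
  have hN0 : 0 ≤ N := Finset.sum_nonneg fun j _ => by positivity
  refine ⟨N * M ^ 2 * C0 ^ 2 + M * C0 ^ 2 + 2 * C0, by positivity, ?_⟩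
  intro s h hs
  set C : ℝ := N * M ^ 2 * C0 ^ 2 + M * C0 ^ 2 + 2 * C0 with hC
  obtain ⟨y0, y1, z0, z1, z2⟩ := ys hs
  have hh := norm_nonneg h
  set B : ℝ := exp (C0 * ‖h‖) with hB
  set e : ℝ := exp (C * ‖h‖) with he
  have hNM : 0 ≤ N * M ^ 2 * C0 ^ 2 := by positivity
  have hMC : 0 ≤ M * C0 ^ 2 := by positivity
  have hB2 : B ^ 2 ≤ e := by
    rw [hB, he, ← exp_nat_mul]
    refine exp_le_exp.mpr ?_
    push_cast
    nlinarith
  have hB0 : 0 < B := exp_pos _
  have hB1 : 1 ≤ B := one_le_exp (by positivity)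
  have hBe : B ≤ e := by nlinarith
  have e0 : 0 < e := exp_pos _
  have hE : ∀ a, |exp (lin S a h) - 1| ≤ C0 * ‖h‖ * B := fun a =>
    (exp_rem _).1.trans (mul_le_mul (hlin a h) (exp_le_exp.mpr (hlin a h)) (exp_pos _).le
      (by positivity))
  have hR : ∀ a, |exp (lin S a h) - 1 - lin S a h| ≤ (C0 * ‖h‖) ^ 2 * B := fun a => by
    refine (exp_rem _).2.trans (mul_le_mul ?_ (exp_le_exp.mpr (hlin a h)) (exp_pos _).le
      (by positivity))
    rw [← sq_abs]
    exact pow_le_pow_left₀ (abs_nonneg _) (hlin a h) 2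
  have h1 := (hbd _ _ hE).1
  have h2 := mu_bd S _ _ _ _ h1 h1
  have haa : |aa S h| ≤ N * ((M * (C0 * ‖h‖ * B)) * (M * (C0 * ‖h‖ * B))) := by
    rw [aa_eq]
    refine le_trans (le_of_eq ?_) h2
    congr 1
    exact Finset.sum_congr rfl fun j _ => by unfold F3P; ring
  have hbb : |bb S h| ≤ M * ((C0 * ‖h‖) ^ 2 * B) := (hbd _ _ hR).2
  rw [WW_eq2]
  calc |1 / 2 * exp (2 * s) * aa S h + (exp (2 * s) - exp s) * bb S h|
      ≤ |1 / 2 * exp (2 * s) * aa S h| + |(exp (2 * s) - exp s) * bb S h| :=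
        abs_add_le _ _
    _ ≤ exp s * (N * ((M * (C0 * ‖h‖ * B)) * (M * (C0 * ‖h‖ * B)))) +
          exp s * (M * ((C0 * ‖h‖) ^ 2 * B)) := by
        rw [abs_mul, abs_mul (exp (2 * s) - exp s)]
        refine add_le_add (mul_le_mul ?_ haa (abs_nonneg _) y0.le)
          (mul_le_mul z2 hbb (abs_nonneg _) y0.le)
        rw [abs_of_pos (by positivity)]
        linarith
    _ = (N * M ^ 2 * C0 ^ 2 * B ^ 2 + M * C0 ^ 2 * B) * (exp s * ‖h‖ ^ 2) := by ring
    _ ≤ (N * M ^ 2 * C0 ^ 2 * e + M * C0 ^ 2 * e) * (exp s * ‖h‖ ^ 2) := by gcongr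
    _ ≤ (C * e) * (exp s * ‖h‖ ^ 2) := by
        refine mul_le_mul_of_nonneg_right ?_ (by positivity)
        rw [hC]
        nlinarith [mul_nonneg hC0.le e0.le]
    _ = _ := by ring

/-- derivative in `s` = derivative in the direction `1` up to the linear term. -/
theorem WW_ds (S : Sys ι) (s : ℝ) (h : Ev ι) :
    HasDerivAt (fun s => WW S s h) (fderiv ℝ (WW S s) h (one S)
      - (2 * exp (2 * s) - exp s) * (Real.sqrt (∑ a, S.m a) * h S.o)) s := by
  set q : ℝ := Real.sqrt (∑ a, S.m a) with hq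
  have hTo : ∀ a, S.T a S.o * q = 1 := S.T_o
  have hq0 : q ≠ 0 := by
    intro h0
    have := hTo S.o
    rw [h0, mul_zero] at this
    exact zero_ne_one this
  -- sums of the columns
  have hcol : ∀ j, ∑ a, S.m a * S.T a j = if j = S.o then q else 0 := by
    intro j
    have h1 := S.orth j S.o
    have h2 : (∑ a, S.m a * S.T a j * S.T a S.o) * q = ∑ a, S.m a * S.T a j := by
      rw [Finset.sum_mul]
      refine Finset.sum_congr rfl fun a _ => ?_
      rw [mul_assoc, hTo a, mul_one]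
    rw [← h2, h1]
    split_ifs <;> simp
  have hlin1 : ∑ a, S.m a * lin S a h = q * h S.o := by
    unfold lin
    simp only [Finset.mul_sum]
    rw [Finset.sum_comm]
    have : ∀ j, ∑ a, S.m a * (S.T a j * h j) = (if j = S.o then q else 0) * h j := by
      intro j
      rw [← hcol j, Finset.sum_mul]
      exact Finset.sum_congr rfl fun a _ => by ring
    rw [Finset.sum_congr rfl fun j _ => this j]
    simp
  have hQ : q * F3P S h S.o = ∑ a, S.m a * (exp (lin S a h) - 1) := by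
    unfold F3P
    rw [Finset.mul_sum]
    refine Finset.sum_congr rfl fun a _ => ?_
    calc q * (S.m a * S.T a S.o * (exp (lin S a h) - 1))
        = (S.T a S.o * q) * (S.m a * (exp (lin S a h) - 1)) := by ring
      _ = _ := by rw [hTo a, one_mul]
  have hb : ∑ a, S.m a * (exp (lin S a h) - 1) = bb S h + q * h S.o := by
    rw [← hlin1]
    unfold bb
    rw [← Finset.sum_add_distrib]
    exact Finset.sum_congr rfl fun a _ => by ring
  have hfd : fderiv ℝ (WW S s) h (one S) =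
      exp (2 * s) * aa S h + (2 * exp (2 * s) - exp s) * (bb S h + q * h S.o) := by
    rw [dWW_eq, ← hb]
    have e1 : ∀ j, ∑ a, S.m a * S.T a j * (exp (lin S a h) * lin S a (one S)) =
        F3P S h j + if j = S.o then q else 0 := by
      intro j
      rw [← hcol j]
      unfold F3P
      rw [← Finset.sum_add_distrib]
      refine Finset.sum_congr rfl fun a _ => ?_
      rw [lin_one]
      ring
    have e2 : ∑ j, (S.μ j : ℝ) * (∑ a, S.m a * S.T a j * (exp (lin S a h) - 1)) *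
        (∑ a, S.m a * S.T a j * (exp (lin S a h) * lin S a (one S))) =
        aa S h + q * F3P S h S.o := by
      rw [aa_eq]
      have e3 : ∀ j, (S.μ j : ℝ) * (∑ a, S.m a * S.T a j * (exp (lin S a h) - 1)) *
        (∑ a, S.m a * S.T a j * (exp (lin S a h) * lin S a (one S))) =
        (S.μ j : ℝ) * F3P S h j ^ 2 + if j = S.o then (S.μ j : ℝ) * F3P S h j * q else 0 := by
        intro j
        rw [e1 j]
        change (S.μ j : ℝ) * F3P S h j * _ = _
        split_ifs <;> ring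
      rw [Finset.sum_congr rfl fun j _ => e3 j, Finset.sum_add_distrib]
      simp only [Finset.sum_ite_eq', Finset.mem_univ, if_true]
      rw [S.μ_o]
      push_cast
      ring
    have e4 : ∑ a, S.m a * ((exp (lin S a h) - 1) * lin S a (one S)) =
        ∑ a, S.m a * (exp (lin S a h) - 1) := by
      refine Finset.sum_congr rfl fun a _ => ?_
      rw [lin_one, mul_one]
    rw [e2, e4, hQ]
    ring
  rw [hfd]
  have h2s : HasDerivAt (fun s : ℝ => exp (2 * s)) (exp (2 * s) * 2) s := by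
    have := ((hasDerivAt_id s).const_mul 2).exp
    simpa using this
  have hd := ((h2s.const_mul (1 / 2)).mul_const (aa S h + 2 * bb S h)).sub
    ((Real.hasDerivAt_exp s).mul_const (bb S h))
  refine hd.congr_deriv ?_
  ring

end Pool.MP_ad5d82_an.Wl
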