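import Pool.Agent.Lib.MP_ad5d82_an.h24.FDefs
import Pool.Agent.Lib.MP_ad5d82_an.h24.F.F1
import Pool.Agent.Lib.MP_ad5d82_an.h24.F.F3

set_option autoImplicit false

namespace Pool.MP_ad5d82_an.Wl

open Real Set MeasureTheory Filter Topology
open scoped ContDiff

/-! ### Functions with bounds on value, derivative and Lipschitz constant of the derivative -/

section C2b
variable {E : Type*} [NormedAddCommGroup E] [NormedSpace ℝ E]

private def C2b (f : E → ℝ) (A B C : ℝ) : Prop :=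
  Differentiable ℝ f ∧ (∀ x, |f x| ≤ A) ∧ (∀ x, ‖fderiv ℝ f x‖ ≤ B) ∧
    ∀ x y, ‖fderiv ℝ f x - fderiv ℝ f y‖ ≤ C * ‖x - y‖

private theorem C2b.mono {f : E → ℝ} {A B C A' B' C' : ℝ} (h : C2b f A B C) (hA : A ≤ A')
    (hB : B ≤ B') (hC : C ≤ C') : C2b f A' B' C' :=
  ⟨h.1, fun x => (h.2.1 x).trans hA, fun x => (h.2.2.1 x).trans hB,
    fun x y => (h.2.2.2 x y).trans (mul_le_mul_of_nonneg_right hC (norm_nonneg _))⟩

private theorem C2b.lip {f : E → ℝ} {A B C : ℝ} (h : C2b f A B C) (x y : E) :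
    |f x - f y| ≤ B * ‖x - y‖ := by
  have h1 := Convex.norm_image_sub_le_of_norm_fderiv_le (𝕜 := ℝ) (f := f) (C := B) (s := Set.univ)
    (x := y) (y := x) (fun z _ => h.1 z) (fun z _ => h.2.2.1 z) convex_univ (mem_univ _) (mem_univ _)
  simpa using h1

private theorem C2b.add {f g : E → ℝ} {A B C A' B' C' : ℝ} (hf : C2b f A B C)
    (hg : C2b g A' B' C') : C2b (fun x => f x + g x) (A + A') (B + B') (C + C') := by
  obtain ⟨f0, f1, f2, f3⟩ := hf
  obtain ⟨g0, g1, g2, g3⟩ := hg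
  have hd : ∀ x, fderiv ℝ (fun x => f x + g x) x = fderiv ℝ f x + fderiv ℝ g x := fun x =>
    fderiv_fun_add (f0 x) (g0 x)
  refine ⟨f0.add g0, fun x => ?_, fun x => ?_, fun x y => ?_⟩
  · exact (abs_add_le _ _).trans (add_le_add (f1 x) (g1 x))
  · rw [hd]
    exact (norm_add_le _ _).trans (add_le_add (f2 x) (g2 x))
  · rw [hd, hd, add_sub_add_comm]
    refine (norm_add_le _ _).trans ?_
    rw [add_mul]
    exact add_le_add (f3 x y) (g3 x y)

private theorem C2b.smul {f : E → ℝ} {A B C : ℝ} (hf : C2b f A B C) (c : ℝ) :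
    C2b (fun x => c * f x) (|c| * A) (|c| * B) (|c| * C) := by
  obtain ⟨f0, f1, f2, f3⟩ := hf
  have hd : ∀ x, fderiv ℝ (fun x => c * f x) x = c • fderiv ℝ f x := fun x =>
    fderiv_const_mul (f0 x) c
  refine ⟨f0.const_mul c, fun x => ?_, fun x => ?_, fun x y => ?_⟩
  · rw [abs_mul]
    exact mul_le_mul_of_nonneg_left (f1 x) (abs_nonneg _)
  · rw [hd, norm_smul, Real.norm_eq_abs]
    exact mul_le_mul_of_nonneg_left (f2 x) (abs_nonneg _)
  · rw [hd, hd, ← smul_sub, norm_smul, Real.norm_eq_abs, mul_assoc]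
    exact mul_le_mul_of_nonneg_left (f3 x y) (abs_nonneg _)

private theorem C2b.mul {f g : E → ℝ} {A B C A' B' C' : ℝ} (hf : C2b f A B C)
    (hg : C2b g A' B' C') :
    C2b (fun x => f x * g x) (A * A') (A * B' + A' * B) (A * C' + 2 * (B * B') + A' * C) := by
  have hfl := hf.lip
  have hgl := hg.lip
  obtain ⟨f0, f1, f2, f3⟩ := hf
  obtain ⟨g0, g1, g2, g3⟩ := hg
  have hd : ∀ x, fderiv ℝ (fun x => f x * g x) x = f x • fderiv ℝ g x + g x • fderiv ℝ f x :=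
    fun x => fderiv_fun_mul (f0 x) (g0 x)
  refine ⟨f0.mul g0, fun x => ?_, fun x => ?_, fun x y => ?_⟩
  · rw [abs_mul]
    exact mul_le_mul (f1 x) (g1 x) (abs_nonneg _) ((abs_nonneg _).trans (f1 x))
  · rw [hd]
    refine (norm_add_le _ _).trans (add_le_add ?_ ?_)
    · rw [norm_smul, Real.norm_eq_abs]
      exact mul_le_mul (f1 x) (g2 x) (norm_nonneg _) ((abs_nonneg _).trans (f1 x))
    · rw [norm_smul, Real.norm_eq_abs]
      exact mul_le_mul (g1 x) (f2 x) (norm_nonneg _) ((abs_nonneg _).trans (g1 x))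
  · rw [hd, hd]
    have e : f x • fderiv ℝ g x + g x • fderiv ℝ f x - (f y • fderiv ℝ g y + g y • fderiv ℝ f y) =
        (f x • (fderiv ℝ g x - fderiv ℝ g y) + (f x - f y) • fderiv ℝ g y) +
        ((g x - g y) • fderiv ℝ f x + g y • (fderiv ℝ f x - fderiv ℝ f y)) := by
      simp only [smul_sub, sub_smul]
      abel
    rw [e]
    have hn := norm_nonneg (x - y)
    have a1 : ‖f x • (fderiv ℝ g x - fderiv ℝ g y)‖ ≤ A * (C' * ‖x - y‖) := by
      rw [norm_smul, Real.norm_eq_abs]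
      exact mul_le_mul (f1 x) (g3 x y) (norm_nonneg _) ((abs_nonneg _).trans (f1 x))
    have a2 : ‖(f x - f y) • fderiv ℝ g y‖ ≤ (B * ‖x - y‖) * B' := by
      rw [norm_smul, Real.norm_eq_abs]
      exact mul_le_mul (hfl x y) (g2 y) (norm_nonneg _) ((abs_nonneg _).trans (hfl x y))
    have a3 : ‖(g x - g y) • fderiv ℝ f x‖ ≤ (B' * ‖x - y‖) * B := by
      rw [norm_smul, Real.norm_eq_abs]
      exact mul_le_mul (hgl x y) (f2 x) (norm_nonneg _) ((abs_nonneg _).trans (hgl x y))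
    have a4 : ‖g y • (fderiv ℝ f x - fderiv ℝ f y)‖ ≤ A' * (C * ‖x - y‖) := by
      rw [norm_smul, Real.norm_eq_abs]
      exact mul_le_mul (g1 y) (f3 x y) (norm_nonneg _) ((abs_nonneg _).trans (g1 y))
    refine (norm_add_le _ _).trans ?_
    have b1 := norm_add_le (f x • (fderiv ℝ g x - fderiv ℝ g y)) ((f x - f y) • fderiv ℝ g y)
    have b2 := norm_add_le ((g x - g y) • fderiv ℝ f x) (g y • (fderiv ℝ f x - fderiv ℝ f y))
    have b3 : (A * C' + 2 * (B * B') + A' * C) * ‖x - y‖ = A * (C' * ‖x - y‖) +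
      (B * ‖x - y‖) * B' + ((B' * ‖x - y‖) * B + A' * (C * ‖x - y‖)) := by ring
    rw [b3]
    linarith

private theorem C2b.comp {f : E → ℝ} {A B C P Q R : ℝ} (hf : C2b f A B C) (φ : ℝ → ℝ)
    (h0 : Differentiable ℝ φ) (h1 : ∀ t, |t| ≤ A → |φ t| ≤ P) (h2 : ∀ t, |t| ≤ A → |deriv φ t| ≤ Q)
    (h3 : ∀ t t', |t| ≤ A → |t'| ≤ A → |deriv φ t - deriv φ t'| ≤ R * |t - t'|) (hR : 0 ≤ R) :
    C2b (fun x => φ (f x)) P (Q * B) (R * B * B + Q * C) := by
  have hfl := hf.lip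
  obtain ⟨f0, f1, f2, f3⟩ := hf
  have hd : ∀ x, fderiv ℝ (fun x => φ (f x)) x = deriv φ (f x) • fderiv ℝ f x := by
    intro x
    have h4 : HasDerivAt φ (deriv φ (f x)) (f x) := (h0 (f x)).hasDerivAt
    exact (h4.comp_hasFDerivAt x (f0 x).hasFDerivAt).fderiv
  refine ⟨fun x => (h0 (f x)).comp x (f0 x), fun x => h1 _ (f1 x), fun x => ?_, fun x y => ?_⟩
  · rw [hd, norm_smul, Real.norm_eq_abs]
    exact mul_le_mul (h2 _ (f1 x)) (f2 x) (norm_nonneg _) ((abs_nonneg _).trans (h2 _ (f1 x)))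
  · rw [hd, hd]
    have e : deriv φ (f x) • fderiv ℝ f x - deriv φ (f y) • fderiv ℝ f y =
        (deriv φ (f x) - deriv φ (f y)) • fderiv ℝ f x +
        deriv φ (f y) • (fderiv ℝ f x - fderiv ℝ f y) := by
      simp only [smul_sub, sub_smul]
      abel
    rw [e]
    have hB : 0 ≤ B := (norm_nonneg _).trans (f2 x)
    have a1 : ‖(deriv φ (f x) - deriv φ (f y)) • fderiv ℝ f x‖ ≤ (R * (B * ‖x - y‖)) * B := by
      rw [norm_smul, Real.norm_eq_abs]
      have h5 : |deriv φ (f x) - deriv φ (f y)| ≤ R * (B * ‖x - y‖) :=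
        (h3 _ _ (f1 x) (f1 y)).trans (mul_le_mul_of_nonneg_left (hfl x y) hR)
      exact mul_le_mul h5 (f2 x) (norm_nonneg _) ((abs_nonneg _).trans h5)
    have a2 : ‖deriv φ (f y) • (fderiv ℝ f x - fderiv ℝ f y)‖ ≤ Q * (C * ‖x - y‖) := by
      rw [norm_smul, Real.norm_eq_abs]
      exact mul_le_mul (h2 _ (f1 y)) (f3 x y) (norm_nonneg _) ((abs_nonneg _).trans (h2 _ (f1 y)))
    refine (norm_add_le _ _).trans ?_
    have b3 : (R * B * B + Q * C) * ‖x - y‖ = (R * (B * ‖x - y‖)) * B + Q * (C * ‖x - y‖) := by ring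
    rw [b3]
    exact add_le_add a1 a2

private theorem C2b.taylor {f : E → ℝ} {A B C : ℝ} (hf : C2b f A B C) (x y : E) :
    |f y - f x - fderiv ℝ f x (y - x)| ≤ C * ‖y - x‖ ^ 2 := by
  obtain ⟨f0, f1, f2, f3⟩ := hf
  have h1 := Convex.norm_image_sub_le_of_norm_fderiv_le' (𝕜 := ℝ) (f := f) (C := C * ‖y - x‖)
    (φ := fderiv ℝ f x) (s := segment ℝ x y) (x := x) (y := y) (fun z _ => f0 z) (fun z hz => by
      refine (f3 z x).trans ?_
      rcases eq_or_ne x y with h | h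
      · subst h
        rw [segment_same] at hz
        rw [Set.mem_singleton_iff.1 hz]
      · have hC : 0 ≤ C := by
          have h4 := (norm_nonneg _).trans (f3 x y)
          have h5 : 0 < ‖x - y‖ := norm_pos_iff.2 (sub_ne_zero.2 h)
          by_contra hneg
          push Not at hneg
          have := mul_neg_of_neg_of_pos hneg h5
          linarith
        refine mul_le_mul_of_nonneg_left ?_ hC
        rw [segment_eq_image'] at hz
        obtain ⟨t, ht, rfl⟩ := hz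
        have h6 : x + t • (y - x) - x = t • (y - x) := by abel
        simp only [h6]
        rw [norm_smul, Real.norm_eq_abs, abs_of_nonneg ht.1]
        exact mul_le_of_le_one_left (norm_nonneg _) ht.2)
    (convex_segment x y) (left_mem_segment ℝ x y) (right_mem_segment ℝ x y)
  rw [Real.norm_eq_abs] at h1
  calc |f y - f x - fderiv ℝ f x (y - x)| ≤ C * ‖y - x‖ * ‖y - x‖ := h1
    _ = C * ‖y - x‖ ^ 2 := by ring

private theorem C2b.comp_linear {φ : ℝ → ℝ} {P Q R : ℝ} (h0 : Differentiable ℝ φ)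
    (h1 : ∀ t, |φ t| ≤ P) (h2 : ∀ t, |deriv φ t| ≤ Q)
    (h3 : ∀ t t', |deriv φ t - deriv φ t'| ≤ R * |t - t'|) (hR : 0 ≤ R) (l : E →L[ℝ] ℝ)
    (hl : ‖l‖ ≤ 1) : C2b (fun x => φ (l x)) P Q R := by
  have hQ : 0 ≤ Q := (abs_nonneg _).trans (h2 0)
  have hd : ∀ x, fderiv ℝ (fun x => φ (l x)) x = deriv φ (l x) • l := by
    intro x
    have h4 : HasDerivAt φ (deriv φ (l x)) (l x) := (h0 (l x)).hasDerivAt
    exact (h4.comp_hasFDerivAt x l.hasFDerivAt).fderiv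
  have hl1 : ∀ x, |l x| ≤ ‖x‖ := by
    intro x
    have := l.le_opNorm x
    rw [Real.norm_eq_abs] at this
    exact this.trans (mul_le_of_le_one_left (norm_nonneg _) hl)
  refine ⟨fun x => (h0 (l x)).comp x l.differentiableAt, fun x => h1 _, fun x => ?_, fun x y => ?_⟩
  · rw [hd, norm_smul, Real.norm_eq_abs]
    calc |deriv φ (l x)| * ‖l‖ ≤ Q * 1 := mul_le_mul (h2 _) hl (norm_nonneg _) hQ
      _ = Q := mul_one Q
  · rw [hd, hd, ← sub_smul, norm_smul, Real.norm_eq_abs]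
    have h5 : |deriv φ (l x) - deriv φ (l y)| ≤ R * ‖x - y‖ := by
      refine (h3 _ _).trans (mul_le_mul_of_nonneg_left ?_ hR)
      rw [← map_sub]
      exact hl1 _
    calc |deriv φ (l x) - deriv φ (l y)| * ‖l‖ ≤ (R * ‖x - y‖) * 1 :=
          mul_le_mul h5 hl (norm_nonneg _) ((abs_nonneg _).trans h5)
      _ = R * ‖x - y‖ := mul_one _

private theorem C2b.zero {A B C : ℝ} (hA : 0 ≤ A) (hB : 0 ≤ B) (hC : 0 ≤ C) :
    C2b (fun _ : E => (0 : ℝ)) A B C := by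
  have hd : ∀ x : E, fderiv ℝ (fun _ : E => (0 : ℝ)) x = 0 := fun x => by simp
  refine ⟨differentiable_const _, fun x => by simpa using hA, fun x => ?_, fun x y => ?_⟩
  · rw [hd]
    simpa using hB
  · rw [hd, hd]
    simp only [sub_self, norm_zero]
    positivity

/-- order `n` in the scale `τ` -/
private def Od (n : ℤ) (f : ℝ → E → ℝ) : Prop :=
  ∃ C : ℝ, 0 < C ∧ ∀ τ, 0 < τ → C2b (f τ) (C * τ ^ n * exp (C * τ))
    (C * τ ^ (n - 1) * exp (C * τ)) (C * τ ^ (n - 2) * exp (C * τ))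

private theorem od_le {K D C τ : ℝ} (n : ℤ) (hτ : 0 < τ) (hC : 0 ≤ C) (hK : K ≤ C) (hD : D ≤ C) :
    K * τ ^ n * exp (D * τ) ≤ C * τ ^ n * exp (C * τ) := by
  have h1 : 0 < τ ^ n := zpow_pos hτ n
  have h2 : exp (D * τ) ≤ exp (C * τ) := exp_le_exp.2 (mul_le_mul_of_nonneg_right hD hτ.le)
  exact mul_le_mul (mul_le_mul_of_nonneg_right hK h1.le) h2 (exp_pos _).le (by positivity)

private theorem Od.add {n : ℤ} {f g : ℝ → E → ℝ} (hf : Od n f) (hg : Od n g) :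
    Od n (fun τ x => f τ x + g τ x) := by
  obtain ⟨C, hC, h⟩ := hf
  obtain ⟨D, hD, h'⟩ := hg
  refine ⟨C + D, by positivity, fun τ hτ => ((h τ hτ).add (h' τ hτ)).mono ?_ ?_ ?_⟩
  all_goals
    rw [add_mul, add_mul]
    refine add_le_add ?_ ?_
  all_goals
    refine mul_le_mul_of_nonneg_left (exp_le_exp.2 ?_) (by positivity)
    nlinarith

private theorem Od.smul {n : ℤ} {f : ℝ → E → ℝ} (hf : Od n f) (c : ℝ) :
    Od n (fun τ x => c * f τ x) := by
  obtain ⟨C, hC, h⟩ := hf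
  refine ⟨(|c| + 1) * C, by positivity, fun τ hτ => ((h τ hτ).smul c).mono ?_ ?_ ?_⟩
  all_goals
    have hc := abs_nonneg c
    rw [← mul_assoc, ← mul_assoc]
    refine od_le _ hτ (by positivity) ?_ ?_
    · nlinarith
    · nlinarith

private theorem Od.mul {n m : ℤ} {f g : ℝ → E → ℝ} (hf : Od n f) (hg : Od m g) :
    Od (n + m) (fun τ x => f τ x * g τ x) := by
  obtain ⟨C, hC, h⟩ := hf
  obtain ⟨D, hD, h'⟩ := hg
  have hCD : 0 < C * D := mul_pos hC hD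
  refine ⟨4 * (C * D) + (C + D), by positivity, fun τ hτ => ((h τ hτ).mul (h' τ hτ)).mono ?_ ?_ ?_⟩
  · have e : C * τ ^ n * exp (C * τ) * (D * τ ^ m * exp (D * τ)) =
        (C * D) * τ ^ (n + m) * exp ((C + D) * τ) := by
      rw [zpow_add₀ hτ.ne', add_mul, exp_add]; ring
    rw [e]
    exact od_le _ hτ (by positivity) (by linarith) (by linarith)
  · have e : C * τ ^ n * exp (C * τ) * (D * τ ^ (m - 1) * exp (D * τ)) +
        D * τ ^ m * exp (D * τ) * (C * τ ^ (n - 1) * exp (C * τ)) =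
        (2 * (C * D)) * τ ^ (n + m - 1) * exp ((C + D) * τ) := by
      have e1 : τ ^ (n + m - 1) = τ ^ n * τ ^ (m - 1) := by
        rw [← zpow_add₀ hτ.ne']; congr 1; ring
      have e2 : τ ^ m * τ ^ (n - 1) = τ ^ n * τ ^ (m - 1) := by
        rw [← zpow_add₀ hτ.ne', ← zpow_add₀ hτ.ne']; congr 1; ring
      rw [e1, add_mul, exp_add]
      linear_combination (C * D * exp (C * τ) * exp (D * τ)) * e2
    rw [e]
    exact od_le _ hτ (by positivity) (by linarith) (by linarith)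
  · have e : C * τ ^ n * exp (C * τ) * (D * τ ^ (m - 2) * exp (D * τ)) +
        2 * (C * τ ^ (n - 1) * exp (C * τ) * (D * τ ^ (m - 1) * exp (D * τ))) +
        D * τ ^ m * exp (D * τ) * (C * τ ^ (n - 2) * exp (C * τ)) =
        (4 * (C * D)) * τ ^ (n + m - 2) * exp ((C + D) * τ) := by
      have e1 : τ ^ (n + m - 2) = τ ^ n * τ ^ (m - 2) := by
        rw [← zpow_add₀ hτ.ne']; congr 1; ring
      have e2 : τ ^ m * τ ^ (n - 2) = τ ^ n * τ ^ (m - 2) := by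
        rw [← zpow_add₀ hτ.ne', ← zpow_add₀ hτ.ne']; congr 1; ring
      have e3 : τ ^ (n - 1) * τ ^ (m - 1) = τ ^ n * τ ^ (m - 2) := by
        rw [← zpow_add₀ hτ.ne', ← zpow_add₀ hτ.ne']; congr 1; ring
      rw [e1, add_mul, exp_add]
      linear_combination (C * D * exp (C * τ) * exp (D * τ)) * e2 +
        (2 * C * D * exp (C * τ) * exp (D * τ)) * e3
    rw [e]
    exact od_le _ hτ (by positivity) (by linarith) (by linarith)

private theorem Od.sum {κ : Type*} (s : Finset κ) {n : ℤ} {f : κ → ℝ → E → ℝ}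
    (hf : ∀ k, Od n (f k)) : Od n (fun τ x => ∑ k ∈ s, f k τ x) := by
  classical
  induction s using Finset.induction_on with
  | empty =>
    refine ⟨1, one_pos, fun τ hτ => ?_⟩
    simp only [Finset.sum_empty]
    exact C2b.zero (by positivity) (by positivity) (by positivity)
  | insert a s ha ih =>
    simp only [Finset.sum_insert ha]
    exact (hf a).add ih

/-- composition of a function of pure order one with `φ` -/
private theorem od_comp (m : ℤ) (φ : ℝ → ℝ) (h0 : Differentiable ℝ φ) (K : ℝ) (hK : 0 < K)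
    (h1 : ∀ R t, 0 < R → |t| ≤ R → |φ t| ≤ K * R ^ m * exp (2 * R) ∧
      |deriv φ t| ≤ K * R ^ (m - 1) * exp (2 * R))
    (h2 : ∀ R t t', 0 < R → |t| ≤ R → |t'| ≤ R →
      |deriv φ t - deriv φ t'| ≤ K * R ^ (m - 2) * exp (2 * R) * |t - t'|)
    (f : ℝ → E → ℝ) (B : ℝ) (hB : 0 < B) (hf : ∀ τ, 0 < τ → C2b (f τ) (B * τ) B (B / τ)) :
    Od m (fun τ x => φ (f τ x)) := by
  have hBm : 0 < B ^ m := zpow_pos hB m
  refine ⟨2 * (K * B ^ m) + 2 * B, by positivity, fun τ hτ => ?_⟩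
  have hR : 0 < B * τ := by positivity
  refine ((hf τ hτ).comp φ h0 (fun t ht => (h1 _ t hR ht).1) (fun t ht => (h1 _ t hR ht).2)
    (fun t t' ht ht' => h2 _ t t' hR ht ht') (by positivity)).mono ?_ ?_ ?_
  · have e : K * (B * τ) ^ m * exp (2 * (B * τ)) = (K * B ^ m) * τ ^ m * exp ((2 * B) * τ) := by
      rw [mul_zpow]
      have : 2 * (B * τ) = 2 * B * τ := by ring
      rw [this]; ring
    rw [e]
    exact od_le _ hτ (by positivity) (by nlinarith [mul_pos hK hBm]) (by nlinarith [mul_pos hK hBm])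
  · have e : K * (B * τ) ^ (m - 1) * exp (2 * (B * τ)) * B =
        (K * B ^ m) * τ ^ (m - 1) * exp ((2 * B) * τ) := by
      have e1 : B ^ m = B ^ (m - 1) * B := by
        rw [← zpow_add_one₀ hB.ne']; congr 1; ring
      have e2 : 2 * (B * τ) = 2 * B * τ := by ring
      rw [mul_zpow, e1, e2]; ring
    rw [e]
    exact od_le _ hτ (by positivity) (by nlinarith [mul_pos hK hBm]) (by nlinarith [mul_pos hK hBm])
  · have e : K * (B * τ) ^ (m - 2) * exp (2 * (B * τ)) * B * B +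
        K * (B * τ) ^ (m - 1) * exp (2 * (B * τ)) * (B / τ) =
        (2 * (K * B ^ m)) * τ ^ (m - 2) * exp ((2 * B) * τ) := by
      have e1 : B ^ m = B ^ (m - 2) * B * B := by
        rw [← zpow_add_one₀ hB.ne', ← zpow_add_one₀ hB.ne']; congr 1; ring
      have e3 : B ^ (m - 1) = B ^ (m - 2) * B := by
        rw [← zpow_add_one₀ hB.ne']; congr 1; ring
      have e4 : τ ^ (m - 1) = τ ^ (m - 2) * τ := by
        rw [← zpow_add_one₀ hτ.ne']; congr 1; ring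
      have e2 : 2 * (B * τ) = 2 * B * τ := by ring
      rw [mul_zpow, mul_zpow, e1, e2, e3, e4]
      field_simp
      ring
    rw [e]
    exact od_le _ hτ (by positivity) (by nlinarith [mul_pos hK hBm]) (by nlinarith [mul_pos hK hBm])

end C2b

/-! ### The scalar functions -/

private noncomputable def fe2 (t : ℝ) : ℝ := exp t - 1 - t - t ^ 2 / 2
private noncomputable def fe1 (t : ℝ) : ℝ := exp t - 1 - t
private noncomputable def fe0 (t : ℝ) : ℝ := exp t - 1 + t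

private theorem fe2_deriv (t : ℝ) : HasDerivAt fe2 (fe1 t) t := by
  have h1 := (((Real.hasDerivAt_exp t).sub_const 1).sub (hasDerivAt_id' t)).sub
    ((hasDerivAt_pow 2 t).div_const 2)
  refine h1.congr_deriv ?_
  unfold fe1
  norm_num

private theorem fe1_deriv (t : ℝ) : HasDerivAt fe1 (exp t - 1) t := by
  have h1 := ((Real.hasDerivAt_exp t).sub_const 1).sub (hasDerivAt_id' t)
  exact h1

private theorem fe0_deriv (t : ℝ) : HasDerivAt fe0 (exp t + 1) t := by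
  have h1 := ((Real.hasDerivAt_exp t).sub_const 1).add (hasDerivAt_id' t)
  exact h1

private theorem lip_of_deriv {φ φ' : ℝ → ℝ} (h : ∀ t, HasDerivAt φ (φ' t) t) (R M : ℝ)
    (hM : ∀ t, |t| ≤ R → |φ' t| ≤ M) (t t' : ℝ) (ht : |t| ≤ R) (ht' : |t'| ≤ R) :
    |φ t - φ t'| ≤ M * |t - t'| := by
  have h1 := Convex.norm_image_sub_le_of_norm_hasDerivWithin_le (f := φ) (f' := φ') (C := M)
    (s := Set.Icc (-R) R) (x := t') (y := t) (fun x _ => (h x).hasDerivWithinAt)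
    (fun x hx => hM x (abs_le.2 hx)) (convex_Icc _ _) (abs_le.1 ht') (abs_le.1 ht)
  simpa using h1

private theorem exp_lip (R t t' : ℝ) (ht : |t| ≤ R) (ht' : |t'| ≤ R) :
    |exp t - exp t'| ≤ exp R * |t - t'| :=
  lip_of_deriv Real.hasDerivAt_exp R (exp R) (fun x hx => by
    rw [abs_of_pos (exp_pos x)]
    exact exp_le_exp.2 ((le_abs_self x).trans hx)) t t' ht ht'

private theorem fem_bd (R t : ℝ) (hR : 0 ≤ R) (ht : |t| ≤ R) : |exp t - 1| ≤ R * exp R := by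
  have h1 := exp_lip R t 0 ht (by simpa using hR)
  rw [exp_zero, sub_zero] at h1
  refine h1.trans ?_
  rw [mul_comm]
  exact mul_le_mul_of_nonneg_right ht (exp_pos _).le

private theorem fe1_lip (R t t' : ℝ) (hR : 0 ≤ R) (ht : |t| ≤ R) (ht' : |t'| ≤ R) :
    |fe1 t - fe1 t'| ≤ R * exp R * |t - t'| :=
  lip_of_deriv fe1_deriv R (R * exp R) (fun x hx => fem_bd R x hR hx) t t' ht ht'

private theorem fe1_bd (R t : ℝ) (hR : 0 ≤ R) (ht : |t| ≤ R) : |fe1 t| ≤ R ^ 2 * exp R := by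
  have h1 := fe1_lip R t 0 hR ht (by simpa using hR)
  have h2 : fe1 0 = 0 := by simp [fe1]
  rw [h2, sub_zero, sub_zero] at h1
  have h3 : 0 ≤ R * exp R := by positivity
  calc |fe1 t| ≤ R * exp R * |t| := h1
    _ ≤ R * exp R * R := mul_le_mul_of_nonneg_left ht h3
    _ = R ^ 2 * exp R := by ring

private theorem fe2_bd (R t : ℝ) (hR : 0 ≤ R) (ht : |t| ≤ R) : |fe2 t| ≤ R ^ 3 * exp R := by
  have h1 := lip_of_deriv fe2_deriv R (R ^ 2 * exp R) (fun x hx => fe1_bd R x hR hx) t 0 ht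
    (by simpa using hR)
  have h2 : fe2 0 = 0 := by simp [fe2]
  rw [h2, sub_zero, sub_zero] at h1
  have h3 : 0 ≤ R ^ 2 * exp R := by positivity
  calc |fe2 t| ≤ R ^ 2 * exp R * |t| := h1
    _ ≤ R ^ 2 * exp R * R := mul_le_mul_of_nonneg_left ht h3
    _ = R ^ 3 * exp R := by ring

private theorem exp_le_two (R : ℝ) (hR : 0 ≤ R) : exp R ≤ exp (2 * R) :=
  exp_le_exp.2 (by linarith)

private theorem R_exp_le (R : ℝ) : R * exp R ≤ exp (2 * R) := by
  have h1 : R ≤ exp R := (by linarith : R ≤ R + 1).trans (Real.add_one_le_exp R)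
  have h2 : exp (2 * R) = exp R * exp R := by rw [← exp_add]; congr 1; ring
  rw [h2]
  exact mul_le_mul_of_nonneg_right h1 (exp_pos _).le

private theorem fe2_diff : Differentiable ℝ fe2 := fun t => (fe2_deriv t).differentiableAt
private theorem fe1_diff : Differentiable ℝ fe1 := fun t => (fe1_deriv t).differentiableAt
private theorem fe0_diff : Differentiable ℝ fe0 := fun t => (fe0_deriv t).differentiableAt

section comp
variable {E : Type*} [NormedAddCommGroup E] [NormedSpace ℝ E]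

private theorem od_fe2 (f : ℝ → E → ℝ) (B : ℝ) (hB : 0 < B)
    (hf : ∀ τ, 0 < τ → C2b (f τ) (B * τ) B (B / τ)) : Od 3 (fun τ x => fe2 (f τ x)) := by
  refine od_comp 3 fe2 fe2_diff 1 one_pos ?_ ?_ f B hB hf
  · intro R t hR ht
    rw [(fe2_deriv t).deriv]
    have h1 := fe2_bd R t hR.le ht
    have h2 := fe1_bd R t hR.le ht
    have h3 := exp_le_two R hR.le
    refine ⟨h1.trans ?_, h2.trans ?_⟩
    · have e : (1 : ℝ) * R ^ (3 : ℤ) = R ^ 3 := by rw [one_mul]; norm_cast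
      rw [e]
      exact mul_le_mul_of_nonneg_left h3 (by positivity)
    · have e : (1 : ℝ) * R ^ ((3 : ℤ) - 1) = R ^ 2 := by rw [one_mul]; norm_num
      rw [e]
      exact mul_le_mul_of_nonneg_left h3 (by positivity)
  · intro R t t' hR ht ht'
    rw [(fe2_deriv t).deriv, (fe2_deriv t').deriv]
    refine (fe1_lip R t t' hR.le ht ht').trans (mul_le_mul_of_nonneg_right ?_ (abs_nonneg _))
    have e : (1 : ℝ) * R ^ ((3 : ℤ) - 2) = R := by rw [one_mul]; norm_num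
    rw [e]
    exact mul_le_mul_of_nonneg_left (exp_le_two R hR.le) hR.le

private theorem od_fe1 (f : ℝ → E → ℝ) (B : ℝ) (hB : 0 < B)
    (hf : ∀ τ, 0 < τ → C2b (f τ) (B * τ) B (B / τ)) : Od 2 (fun τ x => fe1 (f τ x)) := by
  refine od_comp 2 fe1 fe1_diff 1 one_pos ?_ ?_ f B hB hf
  · intro R t hR ht
    rw [(fe1_deriv t).deriv]
    have h1 := fe1_bd R t hR.le ht
    have h2 := fem_bd R t hR.le ht
    have h3 := exp_le_two R hR.le
    refine ⟨h1.trans ?_, h2.trans ?_⟩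
    · have e : (1 : ℝ) * R ^ (2 : ℤ) = R ^ 2 := by rw [one_mul]; norm_cast
      rw [e]
      exact mul_le_mul_of_nonneg_left h3 (by positivity)
    · have e : (1 : ℝ) * R ^ ((2 : ℤ) - 1) = R := by rw [one_mul]; norm_num
      rw [e]
      exact mul_le_mul_of_nonneg_left h3 (by positivity)
  · intro R t t' hR ht ht'
    rw [(fe1_deriv t).deriv, (fe1_deriv t').deriv]
    have h1 := exp_lip R t t' ht ht'
    have e1 : exp t - 1 - (exp t' - 1) = exp t - exp t' := by ring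
    rw [e1]
    refine h1.trans (mul_le_mul_of_nonneg_right ?_ (abs_nonneg _))
    have e : (1 : ℝ) * R ^ ((2 : ℤ) - 2) = 1 := by rw [one_mul]; norm_num
    rw [e, one_mul]
    exact exp_le_two R hR.le

private theorem od_fe0 (f : ℝ → E → ℝ) (B : ℝ) (hB : 0 < B)
    (hf : ∀ τ, 0 < τ → C2b (f τ) (B * τ) B (B / τ)) : Od 1 (fun τ x => fe0 (f τ x)) := by
  refine od_comp 1 fe0 fe0_diff 2 two_pos ?_ ?_ f B hB hf
  · intro R t hR ht
    rw [(fe0_deriv t).deriv]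
    have h2 := fem_bd R t hR.le ht
    have h3 := exp_le_two R hR.le
    have h4 : 1 ≤ exp R := Real.one_le_exp hR.le
    refine ⟨?_, ?_⟩
    · have e : (2 : ℝ) * R ^ (1 : ℤ) = 2 * R := by norm_num
      rw [e]
      have h5 : |fe0 t| ≤ |exp t - 1| + |t| := abs_add_le _ _
      have h6 : R ≤ R * exp R := by nlinarith
      have h7 : R * exp R ≤ R * exp (2 * R) := mul_le_mul_of_nonneg_left h3 hR.le
      linarith
    · have e : (2 : ℝ) * R ^ ((1 : ℤ) - 1) = 2 := by norm_num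
      rw [e, abs_of_pos (by positivity)]
      have h5 : exp t ≤ exp R := exp_le_exp.2 ((le_abs_self t).trans ht)
      linarith
  · intro R t t' hR ht ht'
    rw [(fe0_deriv t).deriv, (fe0_deriv t').deriv]
    have h1 := exp_lip R t t' ht ht'
    have e1 : exp t + 1 - (exp t' + 1) = exp t - exp t' := by ring
    rw [e1]
    refine h1.trans (mul_le_mul_of_nonneg_right ?_ (abs_nonneg _))
    have e : (2 : ℝ) * R ^ ((1 : ℤ) - 2) = 2 * R⁻¹ := by
      norm_num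
    rw [e]
    have h5 := R_exp_le R
    have h6 : exp R ≤ R⁻¹ * exp (2 * R) := by
      rw [inv_mul_eq_div, le_div_iff₀ hR]
      linarith
    have h7 : 0 ≤ R⁻¹ * exp (2 * R) := by positivity
    linarith

end comp

/-! ### The truncation -/

private theorem ch_one_smooth : ContDiff ℝ ∞ (ch 1) := by
  unfold ch
  refine contDiff_id.mul (Real.smoothTransition.contDiff.comp ?_)
  fun_prop

private theorem ch_scale (τ : ℝ) (hτ : 0 < τ) (t : ℝ) : ch τ t = τ * ch 1 (t / τ) := by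
  unfold ch
  rw [div_one]
  field_simp

private theorem ch_smooth (τ : ℝ) (hτ : 0 < τ) : ContDiff ℝ ∞ (ch τ) := by
  have e : ch τ = fun t => τ * ch 1 (t / τ) := funext (ch_scale τ hτ)
  rw [e]
  exact contDiff_const.mul (ch_one_smooth.comp (contDiff_id.div_const τ))

private theorem ch_one_supp : HasCompactSupport (ch 1) := by
  refine HasCompactSupport.intro (isCompact_Icc (a := (-2 : ℝ)) (b := 2)) fun t ht => ?_
  have h1 : 2 < |t| := by
    by_contra hcon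
    push Not at hcon
    exact ht (abs_le.1 hcon)
  unfold ch
  rw [Real.smoothTransition.zero_of_nonpos, mul_zero]
  rw [div_one, ← sq_abs]
  nlinarith

/-- uniform bounds for the truncation -/
private theorem ch_bounds : ∃ K : ℝ, 0 < K ∧ ∀ τ, 0 < τ →
    (∀ t, |ch τ t| ≤ K * τ) ∧ (∀ t, |deriv (ch τ) t| ≤ K) ∧
    (∀ t t', |deriv (ch τ) t - deriv (ch τ) t'| ≤ K / τ * |t - t'|) := by
  have c1 : Continuous (ch 1) := ch_one_smooth.continuous
  have s1 : ContDiff ℝ ∞ (deriv (ch 1)) :=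
    (contDiff_infty_iff_deriv.1 ch_one_smooth).2
  have s2 : ContDiff ℝ ∞ (deriv (deriv (ch 1))) := (contDiff_infty_iff_deriv.1 s1).2
  have p1 : HasCompactSupport (deriv (ch 1)) := ch_one_supp.deriv
  have p2 : HasCompactSupport (deriv (deriv (ch 1))) := p1.deriv
  obtain ⟨K0, hK0⟩ := ch_one_supp.exists_bound_of_continuous c1
  obtain ⟨K1, hK1⟩ := p1.exists_bound_of_continuous s1.continuous
  obtain ⟨K2, hK2⟩ := p2.exists_bound_of_continuous s2.continuous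
  have hK0' := (norm_nonneg _).trans (hK0 0)
  have hK1' := (norm_nonneg _).trans (hK1 0)
  have hK2' := (norm_nonneg _).trans (hK2 0)
  have hL : ∀ x y, |deriv (ch 1) x - deriv (ch 1) y| ≤ K2 * |x - y| := by
    intro x y
    have h1 := Convex.norm_image_sub_le_of_norm_deriv_le (𝕜 := ℝ) (f := deriv (ch 1)) (C := K2)
      (s := Set.univ) (x := y) (y := x) (fun z _ => s1.differentiable (by simp) z)
      (fun z _ => hK2 z) convex_univ (mem_univ _) (mem_univ _)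
    simpa using h1
  have hd : ∀ τ, 0 < τ → ∀ t, deriv (ch τ) t = deriv (ch 1) (t / τ) := by
    intro τ hτ t
    have e : ch τ = fun t => τ * ch 1 (t / τ) := funext (ch_scale τ hτ)
    have h1 : HasDerivAt (ch 1) (deriv (ch 1) (t / τ)) (t / τ) :=
      (ch_one_smooth.differentiable (by simp) _).hasDerivAt
    have h2 : HasDerivAt (fun t : ℝ => t / τ) (1 / τ) t := (hasDerivAt_id' t).div_const τ
    have h3 := (h1.comp t h2).const_mul τ
    have h4 : HasDerivAt (ch τ) (τ * (deriv (ch 1) (t / τ) * (1 / τ))) t := by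
      rw [e]; exact h3
    rw [h4.deriv]
    field_simp
  refine ⟨K0 + K1 + K2 + 1, by linarith, fun τ hτ => ⟨fun t => ?_, fun t => ?_, fun t t' => ?_⟩⟩
  · rw [ch_scale τ hτ, abs_mul, abs_of_pos hτ, mul_comm]
    have := hK0 (t / τ)
    rw [Real.norm_eq_abs] at this
    exact mul_le_mul_of_nonneg_right (by linarith) hτ.le
  · rw [hd τ hτ]
    have := hK1 (t / τ)
    rw [Real.norm_eq_abs] at this
    linarith
  · rw [hd τ hτ, hd τ hτ]
    refine (hL _ _).trans ?_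
    rw [← sub_div, abs_div, abs_of_pos hτ]
    have e : K2 * (|t - t'| / τ) = K2 / τ * |t - t'| := by ring
    rw [e]
    refine mul_le_mul_of_nonneg_right ?_ (abs_nonneg _)
    exact div_le_div_of_nonneg_right (by linarith) hτ.le

variable {ι : Type} [Fintype ι] [DecidableEq ι]

private noncomputable def LL (S : Sys ι) (a : ι) (τ : ℝ) (h : Ev ι) : ℝ := lin S a (trc τ h)

private theorem LL_eq (S : Sys ι) (a : ι) (τ : ℝ) (h : Ev ι) :
    LL S a τ h = ∑ j, S.T a j * ch τ (h j) := rfl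

private theorem coord_C2b {φ : ℝ → ℝ} {P Q R : ℝ} (h0 : Differentiable ℝ φ)
    (h1 : ∀ t, |φ t| ≤ P) (h2 : ∀ t, |deriv φ t| ≤ Q)
    (h3 : ∀ t t', |deriv φ t - deriv φ t'| ≤ R * |t - t'|) (hR : 0 ≤ R) (j : ι) :
    C2b (fun h : Ev ι => φ (h j)) P Q R := by
  have hl : ‖(EuclideanSpace.proj j : Ev ι →L[ℝ] ℝ)‖ ≤ 1 := by
    refine ContinuousLinearMap.opNorm_le_bound _ zero_le_one fun x => ?_
    rw [one_mul]
    exact PiLp.norm_apply_le x j
  exact C2b.comp_linear h0 h1 h2 h3 hR (EuclideanSpace.proj j : Ev ι →L[ℝ] ℝ) hl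

private theorem C2b_sum {E : Type*} [NormedAddCommGroup E] [NormedSpace ℝ E] {κ : Type*}
    (s : Finset κ) (f : κ → E → ℝ) (A B C : κ → ℝ) (h : ∀ k, C2b (f k) (A k) (B k) (C k)) :
    C2b (fun x => ∑ k ∈ s, f k x) (∑ k ∈ s, A k) (∑ k ∈ s, B k) (∑ k ∈ s, C k) := by
  classical
  induction s using Finset.induction_on with
  | empty =>
    simp only [Finset.sum_empty]
    exact C2b.zero le_rfl le_rfl le_rfl
  | insert a s ha ih =>
    simp only [Finset.sum_insert ha]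
    exact (h a).add ih

private theorem LL_C2b (S : Sys ι) : ∃ B : ℝ, 0 < B ∧ ∀ a τ, 0 < τ →
    C2b (LL S a τ) (B * τ) B (B / τ) := by
  obtain ⟨K, hK, hb⟩ := ch_bounds
  obtain ⟨M, hM⟩ : ∃ M : ℝ, M = ∑ a, ∑ j, |S.T a j| := ⟨_, rfl⟩
  have hM0 : 0 ≤ M := by
    rw [hM]
    exact Finset.sum_nonneg fun a _ => Finset.sum_nonneg fun j _ => abs_nonneg _
  refine ⟨(M + 1) * K, by positivity, fun a τ hτ => ?_⟩
  obtain ⟨h1, h2, h3⟩ := hb τ hτ
  have hMa : ∑ j, |S.T a j| ≤ M + 1 := by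
    have : ∑ j, |S.T a j| ≤ M := by
      rw [hM]
      exact Finset.single_le_sum (f := fun a => ∑ j, |S.T a j|)
        (fun a _ => Finset.sum_nonneg fun j _ => abs_nonneg _) (Finset.mem_univ a)
    linarith
  have h4 : ∀ j, C2b (fun h : Ev ι => S.T a j * ch τ (h j)) (|S.T a j| * (K * τ))
      (|S.T a j| * K) (|S.T a j| * (K / τ)) := fun j =>
    (coord_C2b ((ch_smooth τ hτ).differentiable (by simp)) h1 h2 h3 (by positivity) j).smul _
  have h5 := C2b_sum Finset.univ _ _ _ _ h4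
  refine C2b.mono h5 ?_ ?_ ?_
  · rw [← Finset.sum_mul]
    calc (∑ j, |S.T a j|) * (K * τ) ≤ (M + 1) * (K * τ) :=
          mul_le_mul_of_nonneg_right hMa (by positivity)
      _ = (M + 1) * K * τ := by ring
  · rw [← Finset.sum_mul]
    exact mul_le_mul_of_nonneg_right hMa hK.le
  · rw [← Finset.sum_mul]
    calc (∑ j, |S.T a j|) * (K / τ) ≤ (M + 1) * (K / τ) :=
          mul_le_mul_of_nonneg_right hMa (by positivity)
      _ = (M + 1) * K / τ := by ring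

private noncomputable def BBt (S : Sys ι) (τ : ℝ) (h : Ev ι) : ℝ := ∑ a, S.m a * fe2 (LL S a τ h)

private noncomputable def PPt (S : Sys ι) (τ : ℝ) (h : Ev ι) : ℝ :=
  ∑ j, ((S.μ j : ℝ) / 2) * ((∑ a, (S.m a * S.T a j) * fe1 (LL S a τ h)) *
    (∑ a, (S.m a * S.T a j) * fe0 (LL S a τ h)))

private noncomputable def UUt (S : Sys ι) (τ : ℝ) (h : Ev ι) : ℝ := PPt S τ h + BBt S τ h

private noncomputable def VVt (S : Sys ι) (τ : ℝ) (h : Ev ι) : ℝ := (-1) * BBt S τ h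

private theorem lin_orth (S : Sys ι) (j : ι) (v : Ev ι) :
    ∑ a, (S.m a * S.T a j) * lin S a v = v j := by
  unfold lin
  have h1 : ∑ a, (S.m a * S.T a j) * ∑ k, S.T a k * v k =
      ∑ k, (∑ a, S.m a * S.T a j * S.T a k) * v k := by
    simp_rw [Finset.mul_sum, Finset.sum_mul]
    rw [Finset.sum_comm]
    exact Finset.sum_congr rfl fun k _ => Finset.sum_congr rfl fun a _ => by ring
  rw [h1]
  simp_rw [S.orth]
  simp

private theorem RT_formula (S : Sys ι) (τ s : ℝ) (h : Ev ι) :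
    RT S τ s h = exp (2 * s) * UUt S τ h + exp s * VVt S τ h := by
  obtain ⟨v, hv⟩ : ∃ v : Ev ι, v = trc τ h := ⟨_, rfl⟩
  have hL : ∀ a, LL S a τ h = lin S a v := fun a => by rw [hv]; rfl
  have hsq : ∑ a, S.m a * lin S a v ^ 2 = ∑ j, v j ^ 2 := by
    rw [lin_sq, EuclideanSpace.norm_sq_eq]
    exact Finset.sum_congr rfl fun j _ => by rw [Real.norm_eq_abs, sq_abs]
  have hB : BBt S τ h = bb S v - 1 / 2 * ∑ j, v j ^ 2 := by
    rw [← hsq]
    unfold BBt bb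
    rw [Finset.mul_sum, ← Finset.sum_sub_distrib]
    refine Finset.sum_congr rfl fun a _ => ?_
    rw [hL]
    unfold fe2
    ring
  have hP : PPt S τ h = 1 / 2 * aa S v - 1 / 2 * ∑ j, (S.μ j : ℝ) * v j ^ 2 := by
    unfold PPt aa
    rw [Finset.mul_sum, Finset.mul_sum, ← Finset.sum_sub_distrib]
    refine Finset.sum_congr rfl fun j _ => ?_
    have e1 : ∑ a, (S.m a * S.T a j) * fe1 (LL S a τ h) =
        (∑ a, S.m a * S.T a j * (exp (lin S a v) - 1)) - v j := by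
      rw [← lin_orth S j v, ← Finset.sum_sub_distrib]
      refine Finset.sum_congr rfl fun a _ => ?_
      rw [hL]
      unfold fe1
      ring
    have e2 : ∑ a, (S.m a * S.T a j) * fe0 (LL S a τ h) =
        (∑ a, S.m a * S.T a j * (exp (lin S a v) - 1)) + v j := by
      rw [← lin_orth S j v, ← Finset.sum_add_distrib]
      refine Finset.sum_congr rfl fun a _ => ?_
      rw [hL]
      unfold fe0
      ring
    rw [e1, e2]
    ring
  unfold RT RR WW qV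
  rw [← hv]
  unfold UUt VVt
  rw [hB, hP]
  have hq : ∑ j, vj S s j * v j ^ 2 = exp (2 * s) * (∑ j, (S.μ j : ℝ) * v j ^ 2) +
      (exp (2 * s) - exp s) * ∑ j, v j ^ 2 := by
    rw [Finset.mul_sum, Finset.mul_sum, ← Finset.sum_add_distrib]
    refine Finset.sum_congr rfl fun j _ => ?_
    unfold vj
    ring
  rw [hq]
  ring

private theorem LL_zero (S : Sys ι) (a : ι) (τ : ℝ) : LL S a τ 0 = 0 := by
  rw [LL_eq]
  refine Finset.sum_eq_zero fun j _ => ?_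
  have : ch τ ((0 : Ev ι) j) = 0 := by
    unfold ch
    simp
  rw [this, mul_zero]

private theorem UV_od (S : Sys ι) : Od 3 (UUt S) ∧ Od 3 (VVt S) := by
  obtain ⟨B, hB, hL⟩ := LL_C2b S
  have h2 : ∀ a, Od 3 (fun τ (x : Ev ι) => fe2 (LL S a τ x)) := fun a => od_fe2 _ B hB (hL a)
  have h1 : ∀ a, Od 2 (fun τ (x : Ev ι) => fe1 (LL S a τ x)) := fun a => od_fe1 _ B hB (hL a)
  have h0 : ∀ a, Od 1 (fun τ (x : Ev ι) => fe0 (LL S a τ x)) := fun a => od_fe0 _ B hB (hL a)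
  have hBB : Od 3 (BBt S) := Od.sum Finset.univ fun a => (h2 a).smul (S.m a)
  have hPP : Od 3 (PPt S) := Od.sum Finset.univ fun j =>
    Od.smul (n := 3) ((Od.sum Finset.univ fun a => (h1 a).smul (S.m a * S.T a j)).mul
      (Od.sum Finset.univ fun a => (h0 a).smul (S.m a * S.T a j))) ((S.μ j : ℝ) / 2)
  exact ⟨hPP.add hBB, hBB.smul (-1)⟩

/-- value and derivative zero at the origin -/
private def ZZ (f : Ev ι → ℝ) : Prop := f 0 = 0 ∧ HasFDerivAt f (0 : Ev ι →L[ℝ] ℝ) 0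

private theorem ZZ.smul {f : Ev ι → ℝ} (h : ZZ f) (c : ℝ) : ZZ (fun x => c * f x) := by
  refine ⟨by show c * f 0 = 0; rw [h.1, mul_zero], ?_⟩
  have := h.2.const_mul c
  rwa [smul_zero] at this

private theorem ZZ.add {f g : Ev ι → ℝ} (h : ZZ f) (h' : ZZ g) : ZZ (fun x => f x + g x) := by
  refine ⟨by show f 0 + g 0 = 0; rw [h.1, h'.1, add_zero], ?_⟩
  have := h.2.fun_add h'.2
  rwa [add_zero] at this

private theorem ZZ.sum {κ : Type*} (s : Finset κ) {f : κ → Ev ι → ℝ} (h : ∀ k, ZZ (f k)) :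
    ZZ (fun x => ∑ k ∈ s, f k x) := by
  classical
  induction s using Finset.induction_on with
  | empty =>
    simp only [Finset.sum_empty]
    exact ⟨rfl, hasFDerivAt_const _ _⟩
  | insert a s ha ih =>
    simp only [Finset.sum_insert ha]
    exact (h a).add ih

private theorem ZZ_mul {f g : Ev ι → ℝ} (h0 : f 0 = 0) (h1 : g 0 = 0)
    (hf : DifferentiableAt ℝ f 0) (hg : DifferentiableAt ℝ g 0) : ZZ (fun x => f x * g x) := by
  refine ⟨by show f 0 * g 0 = 0; rw [h0, zero_mul], ?_⟩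
  have := hf.hasFDerivAt.fun_mul hg.hasFDerivAt
  rwa [h0, h1, zero_smul, zero_smul, add_zero] at this

private theorem ZZ_fe2 {f : Ev ι → ℝ} (h0 : f 0 = 0) (hf : DifferentiableAt ℝ f 0) :
    ZZ (fun x => fe2 (f x)) := by
  have e : fe1 0 = 0 := by simp [fe1]
  refine ⟨by show fe2 (f 0) = 0; rw [h0]; simp [fe2], ?_⟩
  have h1 : HasDerivAt fe2 (fe1 (f 0)) (f 0) := fe2_deriv _
  have := h1.comp_hasFDerivAt (0 : Ev ι) hf.hasFDerivAt
  rwa [h0, e, zero_smul] at this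

private theorem UV_zz (S : Sys ι) (τ : ℝ) (hτ : 0 < τ) : ZZ (UUt S τ) ∧ ZZ (VVt S τ) := by
  obtain ⟨B, hB, hL⟩ := LL_C2b S
  have hd : ∀ a, Differentiable ℝ (LL S a τ) := fun a => (hL a τ hτ).1
  have hBB : ZZ (BBt S τ) := ZZ.sum Finset.univ fun a =>
    (ZZ_fe2 (LL_zero S a τ) (hd a 0)).smul (S.m a)
  have d1 : ∀ j, Differentiable ℝ (fun x => ∑ a, (S.m a * S.T a j) * fe1 (LL S a τ x)) := fun j =>
    Differentiable.fun_sum fun a _ => (fe1_diff.comp (hd a)).const_mul _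
  have d0 : ∀ j, Differentiable ℝ (fun x => ∑ a, (S.m a * S.T a j) * fe0 (LL S a τ x)) := fun j =>
    Differentiable.fun_sum fun a _ => (fe0_diff.comp (hd a)).const_mul _
  have z1 : ∀ j, (fun x => ∑ a, (S.m a * S.T a j) * fe1 (LL S a τ x)) (0 : Ev ι) = 0 := by
    intro j
    refine Finset.sum_eq_zero fun a _ => ?_
    rw [LL_zero]
    simp [fe1]
  have z0 : ∀ j, (fun x => ∑ a, (S.m a * S.T a j) * fe0 (LL S a τ x)) (0 : Ev ι) = 0 := by
    intro j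
    refine Finset.sum_eq_zero fun a _ => ?_
    rw [LL_zero]
    simp [fe0]
  have hPP : ZZ (PPt S τ) := ZZ.sum Finset.univ fun j =>
    (ZZ_mul (z1 j) (z0 j) (d1 j 0) (d0 j 0)).smul ((S.μ j : ℝ) / 2)
  exact ⟨hPP.add hBB, hBB.smul (-1)⟩

/-- bounds at zero -/
private theorem C2b.zz {f : Ev ι → ℝ} {A B L : ℝ} (hf : C2b f A B L) (hz : ZZ f) (g : Ev ι) :
    |f g| ≤ L * ‖g‖ ^ 2 ∧ ‖fderiv ℝ f g‖ ≤ L * ‖g‖ := by
  have h1 := hf.taylor 0 g
  have h2 := hf.2.2.2 g 0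
  rw [hz.2.fderiv, sub_zero, sub_zero] at h2
  rw [hz.2.fderiv, hz.1, sub_zero, sub_zero, _root_.zero_apply, sub_zero] at h1
  exact ⟨h1, h2⟩

/-- all information on `U` and `V` -/
private theorem UV_all (S : Sys ι) : ∃ C : ℝ, 0 < C ∧ ∀ τ, 0 < τ →
    (∃ A B, C2b (UUt S τ) A B (C * τ * exp (C * τ))) ∧
    (∃ A B, C2b (VVt S τ) A B (C * τ * exp (C * τ))) := by
  obtain ⟨⟨C, hC, h⟩, ⟨D, hD, h'⟩⟩ := UV_od S
  refine ⟨C + D, by positivity, fun τ hτ => ⟨⟨_, _, (h τ hτ).mono le_rfl le_rfl ?_⟩,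
    ⟨_, _, (h' τ hτ).mono le_rfl le_rfl ?_⟩⟩⟩
  · have e : τ ^ ((3 : ℤ) - 2) = τ := by norm_num
    have := od_le (K := C) (D := C) (C := C + D) ((3 : ℤ) - 2) hτ (by positivity) (by linarith)
      (by linarith)
    rwa [e] at this ⊢
  · have e : τ ^ ((3 : ℤ) - 2) = τ := by norm_num
    have := od_le (K := D) (D := D) (C := C + D) ((3 : ℤ) - 2) hτ (by positivity) (by linarith)
      (by linarith)
    rwa [e] at this ⊢

/-! ### F4 the truncated remainder -/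

theorem RT_smooth (S : Sys ι) (τ : ℝ) (hτ : 0 < τ) :
    ContDiff ℝ ∞ (fun p : ℝ × Ev ι => RT S τ p.1 p.2) := by
  have e : (fun p : ℝ × Ev ι => RT S τ p.1 p.2) =
      fun p : ℝ × Ev ι => exp (2 * p.1) * UUt S τ p.2 + exp p.1 * VVt S τ p.2 :=
    funext fun p => RT_formula S τ p.1 p.2
  rw [e]
  have hLL : ∀ a, ContDiff ℝ ∞ (fun p : ℝ × Ev ι => LL S a τ p.2) := by
    intro a
    unfold LL lin trc
    refine ContDiff.sum fun j _ => contDiff_const.mul ?_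
    have h2 : ContDiff ℝ ∞ (fun p : ℝ × Ev ι => p.2 j) := by
      have h3 : ContDiff ℝ ∞ (fun p : ℝ × Ev ι => (EuclideanSpace.proj j : Ev ι →L[ℝ] ℝ) p.2) :=
        (EuclideanSpace.proj j : Ev ι →L[ℝ] ℝ).contDiff.comp contDiff_snd
      exact h3
    exact (ch_smooth τ hτ).comp h2
  have he2 : ContDiff ℝ ∞ fe2 := by unfold fe2; fun_prop
  have he1 : ContDiff ℝ ∞ fe1 := by unfold fe1; fun_prop
  have he0 : ContDiff ℝ ∞ fe0 := by unfold fe0; fun_prop
  have hBB : ContDiff ℝ ∞ (fun p : ℝ × Ev ι => BBt S τ p.2) := by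
    unfold BBt
    exact ContDiff.sum fun a _ => contDiff_const.mul (he2.comp (hLL a))
  have hPP : ContDiff ℝ ∞ (fun p : ℝ × Ev ι => PPt S τ p.2) := by
    unfold PPt
    exact ContDiff.sum fun j _ => contDiff_const.mul
      ((ContDiff.sum fun a _ => contDiff_const.mul (he1.comp (hLL a))).mul
      (ContDiff.sum fun a _ => contDiff_const.mul (he0.comp (hLL a))))
  have hU : ContDiff ℝ ∞ (fun p : ℝ × Ev ι => UUt S τ p.2) := hPP.add hBB
  have hV : ContDiff ℝ ∞ (fun p : ℝ × Ev ι => VVt S τ p.2) := contDiff_const.mul hBB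
  have h1 : ContDiff ℝ ∞ (fun p : ℝ × Ev ι => exp (2 * p.1)) :=
    (contDiff_const.mul contDiff_fst).exp
  have h2 : ContDiff ℝ ∞ (fun p : ℝ × Ev ι => exp p.1) := contDiff_fst.exp
  exact (h1.mul hU).add (h2.mul hV)

theorem RT_eq (S : Sys ι) (τ s : ℝ) (hτ : 0 < τ) (h : Ev ι) (hh : ∀ j, |h j| ≤ τ) :
    RT S τ s h = RR S s h := by
  have e : trc τ h = h := by
    unfold trc
    ext j
    show ch τ (h j) = h j
    unfold ch
    rw [Real.smoothTransition.one_of_one_le, mul_one]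
    have h1 : (h j / τ) ^ 2 ≤ 1 := by
      rw [← sq_abs, abs_div, abs_of_pos hτ]
      have h2 : |h j| / τ ≤ 1 := (div_le_one hτ).2 (hh j)
      have h3 : 0 ≤ |h j| / τ := by positivity
      nlinarith
    linarith
  unfold RT
  rw [e]

/-- the modulus `e^s τ e^{Cτ}` -/
noncomputable def LT (C τ s : ℝ) : ℝ := C * exp s * τ * exp (C * τ)

private theorem LT_ge {C D τ s : ℝ} (hC : 0 < C) (hτ : 0 < τ) (hD : 1 ≤ D) :
    D * (exp s * (C * τ * exp (C * τ))) ≤ LT (D * C) τ s := by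
  unfold LT
  have h1 : exp (C * τ) ≤ exp (D * C * τ) := by
    refine exp_le_exp.2 ?_
    have : 0 < C * τ := mul_pos hC hτ
    nlinarith
  calc D * (exp s * (C * τ * exp (C * τ))) = D * C * exp s * τ * exp (C * τ) := by ring
    _ ≤ D * C * exp s * τ * exp (D * C * τ) :=
      mul_le_mul_of_nonneg_left h1 (by positivity)

theorem RT_bounds (S : Sys ι) : ∃ C : ℝ, 0 < C ∧ ∀ (τ s : ℝ), 0 < τ → s ≤ 0 → ∀ g g' : Ev ι,
    |RT S τ s g| ≤ LT C τ s * ‖g‖ ^ 2 ∧ ‖fderiv ℝ (RT S τ s) g‖ ≤ LT C τ s * ‖g‖ ∧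
    ‖fderiv ℝ (RT S τ s) g - fderiv ℝ (RT S τ s) g'‖ ≤ LT C τ s * ‖g - g'‖ ∧
    |RT S τ s g' - RT S τ s g - fderiv ℝ (RT S τ s) g (g' - g)| ≤ LT C τ s * ‖g' - g‖ ^ 2 := by
  obtain ⟨C, hC, h⟩ := UV_all S
  refine ⟨2 * C, by positivity, fun τ s hτ hs g g' => ?_⟩
  obtain ⟨⟨A, B, hU⟩, ⟨A', B', hV⟩⟩ := h τ hτ
  obtain ⟨zU, zV⟩ := UV_zz S τ hτ
  have e : RT S τ s = fun h => exp (2 * s) * UUt S τ h + exp s * VVt S τ h :=
    funext fun h => RT_formula S τ s h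
  obtain ⟨A₂, B₂, hR⟩ : ∃ A₂ B₂, C2b (RT S τ s) A₂ B₂ (LT (2 * C) τ s) := by
    rw [e]
    refine ⟨_, _, ((hU.smul (exp (2 * s))).add (hV.smul (exp s))).mono le_rfl le_rfl ?_⟩
    refine le_trans ?_ (LT_ge hC hτ one_le_two)
    rw [abs_of_pos (exp_pos _), abs_of_pos (exp_pos _)]
    have h1 : exp (2 * s) ≤ exp s := exp_le_exp.2 (by linarith)
    have h2 : 0 ≤ C * τ * exp (C * τ) := by positivity
    nlinarith [mul_le_mul_of_nonneg_right h1 h2]
  have hz : ZZ (RT S τ s) := by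
    rw [e]
    exact (zU.smul _).add (zV.smul _)
  have h1 := hR.zz hz g
  exact ⟨h1.1, h1.2, hR.2.2.2 g g', hR.taylor g g'⟩

/-! ### dependence on `s` -/

private theorem expk_lip (k M x y : ℝ) (hk : 0 ≤ k) (hx : x ≤ M) (hy : y ≤ M) :
    |exp (k * x) - exp (k * y)| ≤ k * exp (k * M) * |x - y| := by
  have hd : ∀ t, HasDerivAt (fun t : ℝ => exp (k * t)) (exp (k * t) * k) t := by
    intro t
    have h1 : HasDerivAt (fun t : ℝ => k * t) k t := by simpa using (hasDerivAt_id' t).const_mul k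
    exact h1.exp
  have h1 := Convex.norm_image_sub_le_of_norm_hasDerivWithin_le (f := fun t : ℝ => exp (k * t))
    (f' := fun t => exp (k * t) * k) (C := k * exp (k * M))
    (s := Set.Iic M) (x := y) (y := x) (fun t _ => (hd t).hasDerivWithinAt)
    (fun t ht => by
      rw [Real.norm_eq_abs, abs_mul, abs_of_pos (exp_pos _), abs_of_nonneg hk, mul_comm]
      exact mul_le_mul_of_nonneg_left (exp_le_exp.2 (mul_le_mul_of_nonneg_left ht hk)) hk)
    (convex_Iic _) hy hx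
  simpa using h1

private theorem expk_mid (k M x y : ℝ) (hk : 0 ≤ k) (hx : x ≤ M) (hy : y ≤ M) :
    |exp (k * x) + exp (k * y) - 2 * exp (k * ((x + y) / 2))| ≤
      (k / 2) ^ 2 * exp (k * M) * (x - y) ^ 2 := by
  have h1 := expk_lip (k / 2) M x y (by positivity) hx hy
  have e : exp (k * x) + exp (k * y) - 2 * exp (k * ((x + y) / 2)) =
      (exp (k / 2 * x) - exp (k / 2 * y)) ^ 2 := by
    have e1 : exp (k * x) = exp (k / 2 * x) * exp (k / 2 * x) := by rw [← exp_add]; congr 1; ring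
    have e2 : exp (k * y) = exp (k / 2 * y) * exp (k / 2 * y) := by rw [← exp_add]; congr 1; ring
    have e3 : exp (k * ((x + y) / 2)) = exp (k / 2 * x) * exp (k / 2 * y) := by
      rw [← exp_add]; congr 1; ring
    rw [e1, e2, e3]; ring
  have e4 : exp (k * M) = exp (k / 2 * M) * exp (k / 2 * M) := by rw [← exp_add]; congr 1; ring
  rw [e, abs_of_nonneg (sq_nonneg _), ← sq_abs]
  calc |exp (k / 2 * x) - exp (k / 2 * y)| ^ 2 ≤ (k / 2 * exp (k / 2 * M) * |x - y|) ^ 2 :=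
        pow_le_pow_left₀ (abs_nonneg _) h1 2
    _ = (k / 2) ^ 2 * exp (k * M) * (x - y) ^ 2 := by
        rw [e4, mul_pow, sq_abs]; ring

/-- `1 ≤ k ≤ 2` -/
private theorem expk_all (k M : ℝ) (hk1 : 1 ≤ k) (hk2 : k ≤ 2) (hM : M ≤ 0) :
    (∀ x, x ≤ M → exp (k * x) ≤ exp M) ∧
    (∀ x y, x ≤ M → y ≤ M → |exp (k * x) - exp (k * y)| ≤ 2 * exp M * |x - y|) ∧
    (∀ x y, x ≤ M → y ≤ M → |exp (k * x) + exp (k * y) - 2 * exp (k * ((x + y) / 2))| ≤
      exp M * (x - y) ^ 2) := by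
  have h0 : exp (k * M) ≤ exp M := exp_le_exp.2 (by nlinarith)
  have hp : 0 < exp (k * M) := exp_pos _
  refine ⟨fun x hx => exp_le_exp.2 (by nlinarith), fun x y hx hy => ?_, fun x y hx hy => ?_⟩
  · refine (expk_lip k M x y (by linarith) hx hy).trans ?_
    refine mul_le_mul_of_nonneg_right ?_ (abs_nonneg _)
    exact mul_le_mul hk2 h0 hp.le (by norm_num)
  · refine (expk_mid k M x y (by linarith) hx hy).trans ?_
    refine mul_le_mul_of_nonneg_right ?_ (sq_nonneg _)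
    have h1 : (k / 2) ^ 2 ≤ 1 := by nlinarith
    nlinarith

theorem RT_s (S : Sys ι) : ∃ C : ℝ, 0 < C ∧ ∀ (τ s s' : ℝ), 0 < τ → s ≤ 0 → s' ≤ 0 → ∀ g : Ev ι,
    |RT S τ s g - RT S τ s' g| ≤ LT C τ (max s s') * ‖g‖ ^ 2 * |s - s'| ∧
    |RT S τ s g + RT S τ s' g - 2 * RT S τ ((s + s') / 2) g|
      ≤ LT C τ (max s s') * ‖g‖ ^ 2 * (s - s') ^ 2 := by
  obtain ⟨C, hC, h⟩ := UV_all S
  refine ⟨4 * C, by positivity, fun τ s s' hτ hs hs' g => ?_⟩
  obtain ⟨⟨A, B, hU⟩, ⟨A', B', hV⟩⟩ := h τ hτ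
  obtain ⟨zU, zV⟩ := UV_zz S τ hτ
  obtain ⟨L, hL⟩ : ∃ L, L = C * τ * exp (C * τ) := ⟨_, rfl⟩
  rw [← hL] at hU hV
  have hL0 : 0 ≤ L := by rw [hL]; positivity
  have u1 := (hU.zz zU g).1
  have v1 := (hV.zz zV g).1
  obtain ⟨M, hM⟩ : ∃ M, M = max s s' := ⟨_, rfl⟩
  rw [← hM]
  have hsM : s ≤ M := by rw [hM]; exact le_max_left _ _
  have hsM' : s' ≤ M := by rw [hM]; exact le_max_right _ _
  have hM0 : M ≤ 0 := by rw [hM]; exact max_le hs hs'
  have hLT : 4 * (exp M * L) ≤ LT (4 * C) τ M := by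
    rw [hL]
    exact LT_ge hC hτ (by norm_num)
  obtain ⟨-, b1, b2⟩ := expk_all 2 M (by norm_num) le_rfl hM0
  obtain ⟨-, c1, c2⟩ := expk_all 1 M le_rfl (by norm_num) hM0
  have b1' := b1 s s' hsM hsM'
  have b2' := b2 s s' hsM hsM'
  have c1' := c1 s s' hsM hsM'
  have c2' := c2 s s' hsM hsM'
  simp only [one_mul] at c1' c2'
  have hg0 : 0 ≤ L * ‖g‖ ^ 2 := by positivity
  have hE : 0 < exp M := exp_pos _
  constructor
  · rw [RT_formula, RT_formula]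
    have e : exp (2 * s) * UUt S τ g + exp s * VVt S τ g -
        (exp (2 * s') * UUt S τ g + exp s' * VVt S τ g) =
        (exp (2 * s) - exp (2 * s')) * UUt S τ g + (exp s - exp s') * VVt S τ g := by ring
    rw [e]
    refine (abs_add_le _ _).trans ?_
    rw [abs_mul, abs_mul]
    have m1 := mul_le_mul b1' u1 (abs_nonneg _) ((abs_nonneg _).trans b1')
    have m2 := mul_le_mul c1' v1 (abs_nonneg _) ((abs_nonneg _).trans c1')
    have m3 : 4 * (exp M * L) * ‖g‖ ^ 2 * |s - s'| ≤ LT (4 * C) τ M * ‖g‖ ^ 2 * |s - s'| :=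
      mul_le_mul_of_nonneg_right (mul_le_mul_of_nonneg_right hLT (by positivity)) (abs_nonneg _)
    refine le_trans ?_ m3
    have m4 : 4 * (exp M * L) * ‖g‖ ^ 2 * |s - s'| =
      2 * exp M * |s - s'| * (L * ‖g‖ ^ 2) + 2 * exp M * |s - s'| * (L * ‖g‖ ^ 2) := by ring
    rw [m4]
    exact add_le_add m1 m2
  · rw [RT_formula, RT_formula, RT_formula]
    have e : exp (2 * s) * UUt S τ g + exp s * VVt S τ g +
        (exp (2 * s') * UUt S τ g + exp s' * VVt S τ g) -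
        2 * (exp (2 * ((s + s') / 2)) * UUt S τ g + exp ((s + s') / 2) * VVt S τ g) =
        (exp (2 * s) + exp (2 * s') - 2 * exp (2 * ((s + s') / 2))) * UUt S τ g +
        (exp s + exp s' - 2 * exp ((s + s') / 2)) * VVt S τ g := by ring
    rw [e]
    refine (abs_add_le _ _).trans ?_
    rw [abs_mul, abs_mul]
    have m1 := mul_le_mul b2' u1 (abs_nonneg _) ((abs_nonneg _).trans b2')
    have m2 := mul_le_mul c2' v1 (abs_nonneg _) ((abs_nonneg _).trans c2')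
    have m3 : 4 * (exp M * L) * ‖g‖ ^ 2 * (s - s') ^ 2 ≤ LT (4 * C) τ M * ‖g‖ ^ 2 * (s - s') ^ 2 :=
      mul_le_mul_of_nonneg_right (mul_le_mul_of_nonneg_right hLT (by positivity)) (sq_nonneg _)
    refine le_trans ?_ m3
    have m4 : 4 * (exp M * L) * ‖g‖ ^ 2 * (s - s') ^ 2 =
      exp M * (s - s') ^ 2 * (L * ‖g‖ ^ 2) + exp M * (s - s') ^ 2 * (L * ‖g‖ ^ 2) +
      2 * (exp M * (s - s') ^ 2 * (L * ‖g‖ ^ 2)) := by ring
    have m5 : 0 ≤ exp M * (s - s') ^ 2 * (L * ‖g‖ ^ 2) := by positivity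
    rw [m4]
    linarith

/-- difference of values -/
private theorem C2b.diff {f : Ev ι → ℝ} {A B L : ℝ} (hf : C2b f A B L) (hz : ZZ f) (x y : Ev ι) :
    |f x - f y| ≤ 2 * L * (‖x‖ + ‖y‖) * ‖x - y‖ := by
  have h1 := hf.taylor y x
  have h2 := (hf.zz hz y).2
  have h3 : |fderiv ℝ f y (x - y)| ≤ L * ‖y‖ * ‖x - y‖ := by
    have := (fderiv ℝ f y).le_opNorm (x - y)
    rw [Real.norm_eq_abs] at this
    exact this.trans (mul_le_mul_of_nonneg_right h2 (norm_nonneg _))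
  have h4 : |f x - f y| ≤ L * ‖x - y‖ ^ 2 + L * ‖y‖ * ‖x - y‖ := by
    have e : f x - f y = (f x - f y - fderiv ℝ f y (x - y)) + fderiv ℝ f y (x - y) := by ring
    rw [e]
    exact (abs_add_le _ _).trans (add_le_add h1 h3)
  rcases eq_or_ne x y with hxy | hxy
  · subst hxy
    simp
  · have hn : 0 < ‖x - y‖ := norm_pos_iff.2 (sub_ne_zero.2 hxy)
    have hL : 0 ≤ L := by
      have h5 := (norm_nonneg _).trans (hf.2.2.2 x y)
      by_contra hneg
      push Not at hneg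
      have := mul_neg_of_neg_of_pos hneg hn
      linarith
    refine h4.trans ?_
    have h5 : ‖x - y‖ ≤ ‖x‖ + ‖y‖ := norm_sub_le _ _
    have h6 : L * ‖x - y‖ ^ 2 ≤ L * (‖x‖ + ‖y‖) * ‖x - y‖ := by
      have : L * ‖x - y‖ ^ 2 = L * ‖x - y‖ * ‖x - y‖ := by ring
      rw [this]
      exact mul_le_mul_of_nonneg_right (mul_le_mul_of_nonneg_left h5 hL) hn.le
    have h7 : L * ‖y‖ * ‖x - y‖ ≤ L * (‖x‖ + ‖y‖) * ‖x - y‖ :=
      mul_le_mul_of_nonneg_right (mul_le_mul_of_nonneg_left (by linarith [norm_nonneg x]) hL) hn.le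
    linarith

/-- second difference of one term -/
private theorem joint_one (f : Ev ι → ℝ) (A B L : ℝ) (hL : 0 ≤ L) (hf : C2b f A B L) (hz : ZZ f)
    (k s₀ s₁ s₂ M : ℝ) (hk1 : 1 ≤ k) (hk2 : k ≤ 2) (h0 : s₀ ≤ M) (h1 : s₁ ≤ M) (h2 : s₂ ≤ M)
    (hM : M ≤ 0) (g₀ g₁ g₂ : Ev ι) (D₁ D₂ : ℝ) (hD₁ : ‖g₀ - g₂‖ ≤ D₁)
    (hD₂ : ‖g₀ + g₂ - (2 : ℝ) • g₁‖ ≤ D₂) :
    |exp (k * s₀) * f g₀ + exp (k * s₂) * f g₂ - 2 * (exp (k * s₁) * f g₁)| ≤
      8 * (exp M * L) * ((‖g₀‖ + ‖g₁‖ + ‖g₂‖) ^ 2 * ((s₀ - s₂) ^ 2 + |s₀ + s₂ - 2 * s₁|)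
        + (‖g₀‖ + ‖g₁‖ + ‖g₂‖) * (D₁ * |s₀ - s₂| + D₂) + D₁ ^ 2) := by
  obtain ⟨e0, e1, e2⟩ := expk_all k M hk1 hk2 hM
  obtain ⟨G, hG⟩ : ∃ G, G = ‖g₀‖ + ‖g₁‖ + ‖g₂‖ := ⟨_, rfl⟩
  rw [← hG]
  have n0 := norm_nonneg g₀
  have n1 := norm_nonneg g₁
  have n2 := norm_nonneg g₂
  have hG0 : 0 ≤ G := by rw [hG]; positivity
  have hD₁0 : 0 ≤ D₁ := (norm_nonneg _).trans hD₁
  have hD₂0 : 0 ≤ D₂ := (norm_nonneg _).trans hD₂
  have hE : 0 < exp M := exp_pos _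
  -- the midpoint
  obtain ⟨gm, hgm⟩ : ∃ gm : Ev ι, gm = (1 / 2 : ℝ) • (g₀ + g₂) := ⟨_, rfl⟩
  have m0 : g₀ - gm = (1 / 2 : ℝ) • (g₀ - g₂) := by rw [hgm]; module
  have m2 : g₂ - gm = (1 / 2 : ℝ) • (g₂ - g₀) := by rw [hgm]; module
  have m1 : gm - g₁ = (1 / 2 : ℝ) • (g₀ + g₂ - (2 : ℝ) • g₁) := by rw [hgm]; module
  have hn0 : ‖g₀ - gm‖ ≤ D₁ / 2 := by
    rw [m0, norm_smul, Real.norm_eq_abs, abs_of_pos (by norm_num : (0 : ℝ) < 1 / 2)]
    linarith
  have hn2 : ‖g₂ - gm‖ ≤ D₁ / 2 := by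
    rw [m2, norm_smul, Real.norm_eq_abs, abs_of_pos (by norm_num : (0 : ℝ) < 1 / 2), norm_sub_rev]
    linarith
  have hn1 : ‖gm - g₁‖ ≤ D₂ / 2 := by
    rw [m1, norm_smul, Real.norm_eq_abs, abs_of_pos (by norm_num : (0 : ℝ) < 1 / 2)]
    linarith
  have hngm : ‖gm‖ ≤ (‖g₀‖ + ‖g₂‖) / 2 := by
    rw [hgm, norm_smul, Real.norm_eq_abs, abs_of_pos (by norm_num : (0 : ℝ) < 1 / 2)]
    have := norm_add_le g₀ g₂
    linarith
  -- values
  have v1 : |f g₁| ≤ L * G ^ 2 := by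
    refine (hf.zz hz g₁).1.trans (mul_le_mul_of_nonneg_left ?_ hL)
    exact pow_le_pow_left₀ n1 (by rw [hG]; linarith) 2
  have v2 : |f gm - f g₁| ≤ L * G * D₂ := by
    refine (hf.diff hz gm g₁).trans ?_
    have a1 : ‖gm‖ + ‖g₁‖ ≤ G := by rw [hG]; linarith
    have a2 : 2 * L * (‖gm‖ + ‖g₁‖) ≤ 2 * L * G := mul_le_mul_of_nonneg_left a1 (by positivity)
    calc 2 * L * (‖gm‖ + ‖g₁‖) * ‖gm - g₁‖ ≤ 2 * L * G * (D₂ / 2) :=
          mul_le_mul a2 hn1 (norm_nonneg _) (by positivity)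
      _ = L * G * D₂ := by ring
  have v3 : |f g₂ - f gm| ≤ 2 * (L * G * D₁) := by
    refine (hf.diff hz g₂ gm).trans ?_
    have a1 : ‖g₂‖ + ‖gm‖ ≤ 2 * G := by rw [hG]; linarith
    have a2 : 2 * L * (‖g₂‖ + ‖gm‖) ≤ 2 * L * (2 * G) := mul_le_mul_of_nonneg_left a1 (by positivity)
    calc 2 * L * (‖g₂‖ + ‖gm‖) * ‖g₂ - gm‖ ≤ 2 * L * (2 * G) * (D₁ / 2) :=
          mul_le_mul a2 hn2 (norm_nonneg _) (by positivity)
      _ = 2 * (L * G * D₁) := by ring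
  have v4 : |f g₀ + f g₂ - 2 * f gm| ≤ L * D₁ ^ 2 := by
    have t0 := hf.taylor gm g₀
    have t2 := hf.taylor gm g₂
    have t3 : fderiv ℝ f gm (g₀ - gm) + fderiv ℝ f gm (g₂ - gm) = 0 := by
      rw [← map_add, m0, m2]
      have : (1 / 2 : ℝ) • (g₀ - g₂) + (1 / 2 : ℝ) • (g₂ - g₀) = 0 := by module
      rw [this, map_zero]
    have e : f g₀ + f g₂ - 2 * f gm = (f g₀ - f gm - fderiv ℝ f gm (g₀ - gm)) +
        (f g₂ - f gm - fderiv ℝ f gm (g₂ - gm)) := by linarith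
    rw [e]
    refine (abs_add_le _ _).trans ?_
    have q0 : L * ‖g₀ - gm‖ ^ 2 ≤ L * (D₁ / 2) ^ 2 :=
      mul_le_mul_of_nonneg_left (pow_le_pow_left₀ (norm_nonneg _) hn0 2) hL
    have q2 : L * ‖g₂ - gm‖ ^ 2 ≤ L * (D₁ / 2) ^ 2 :=
      mul_le_mul_of_nonneg_left (pow_le_pow_left₀ (norm_nonneg _) hn2 2) hL
    have q3 : L * (D₁ / 2) ^ 2 + L * (D₁ / 2) ^ 2 ≤ L * D₁ ^ 2 := by
      nlinarith only [mul_nonneg hL (sq_nonneg D₁)]
    linarith
  -- exponentials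
  have x0 : exp (k * s₀) ≤ exp M := e0 s₀ h0
  have x2 : exp (k * s₂) ≤ exp M := e0 s₂ h2
  have p0 := exp_pos (k * s₀)
  have p2 := exp_pos (k * s₂)
  have x3 : |exp (k * s₂) - exp (k * s₀)| ≤ exp M := by
    rw [abs_le]
    constructor <;> linarith
  have x4 : |exp (k * s₂) - exp (k * s₀)| ≤ 2 * exp M * |s₀ - s₂| := by
    rw [abs_sub_comm s₀ s₂]
    exact e1 s₂ s₀ h2 h0
  have x5 : |exp (k * s₀) + exp (k * s₂) - 2 * exp (k * s₁)| ≤
      2 * exp M * ((s₀ - s₂) ^ 2 + |s₀ + s₂ - 2 * s₁|) := by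
    have a1 := e2 s₀ s₂ h0 h2
    have a2 := e1 ((s₀ + s₂) / 2) s₁ (by linarith) h1
    have a3 : |(s₀ + s₂) / 2 - s₁| = |s₀ + s₂ - 2 * s₁| / 2 := by
      have : (s₀ + s₂) / 2 - s₁ = (s₀ + s₂ - 2 * s₁) / 2 := by ring
      rw [this, abs_div, abs_of_pos (by norm_num : (0 : ℝ) < 2)]
    rw [a3] at a2
    have e : exp (k * s₀) + exp (k * s₂) - 2 * exp (k * s₁) =
        (exp (k * s₀) + exp (k * s₂) - 2 * exp (k * ((s₀ + s₂) / 2))) +
        2 * (exp (k * ((s₀ + s₂) / 2)) - exp (k * s₁)) := by ring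
    rw [e]
    refine (abs_add_le _ _).trans ?_
    rw [abs_mul, abs_of_pos (by norm_num : (0 : ℝ) < 2)]
    have a4 : 0 ≤ exp M * (s₀ - s₂) ^ 2 := by positivity
    linarith
  -- the decomposition
  have e : exp (k * s₀) * f g₀ + exp (k * s₂) * f g₂ - 2 * (exp (k * s₁) * f g₁) =
      (exp (k * s₀) + exp (k * s₂) - 2 * exp (k * s₁)) * f g₁ +
      exp (k * s₀) * (f g₀ + f g₂ - 2 * f gm) + exp (k * s₀) * (2 * (f gm - f g₁)) +
      (exp (k * s₂) - exp (k * s₀)) * (f g₂ - f gm) +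
      (exp (k * s₂) - exp (k * s₀)) * (f gm - f g₁) := by ring
  have w1 : |(exp (k * s₀) + exp (k * s₂) - 2 * exp (k * s₁)) * f g₁| ≤
      2 * exp M * ((s₀ - s₂) ^ 2 + |s₀ + s₂ - 2 * s₁|) * (L * G ^ 2) := by
    rw [abs_mul]
    exact mul_le_mul x5 v1 (abs_nonneg _) ((abs_nonneg _).trans x5)
  have w2 : |exp (k * s₀) * (f g₀ + f g₂ - 2 * f gm)| ≤ exp M * (L * D₁ ^ 2) := by
    rw [abs_mul, abs_of_pos p0]
    exact mul_le_mul x0 v4 (abs_nonneg _) hE.le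
  have w3 : |exp (k * s₀) * (2 * (f gm - f g₁))| ≤ exp M * (2 * (L * G * D₂)) := by
    rw [abs_mul, abs_of_pos p0, abs_mul, abs_of_pos (by norm_num : (0 : ℝ) < 2)]
    exact mul_le_mul x0 (by linarith) (by positivity) hE.le
  have w4 : |(exp (k * s₂) - exp (k * s₀)) * (f g₂ - f gm)| ≤
      2 * exp M * |s₀ - s₂| * (2 * (L * G * D₁)) := by
    rw [abs_mul]
    exact mul_le_mul x4 v3 (abs_nonneg _) ((abs_nonneg _).trans x4)
  have w5 : |(exp (k * s₂) - exp (k * s₀)) * (f gm - f g₁)| ≤ exp M * (L * G * D₂) := by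
    rw [abs_mul]
    exact mul_le_mul x3 v2 (abs_nonneg _) hE.le
  rw [e]
  have t1 := abs_add_le ((exp (k * s₀) + exp (k * s₂) - 2 * exp (k * s₁)) * f g₁ +
      exp (k * s₀) * (f g₀ + f g₂ - 2 * f gm) + exp (k * s₀) * (2 * (f gm - f g₁)) +
      (exp (k * s₂) - exp (k * s₀)) * (f g₂ - f gm))
      ((exp (k * s₂) - exp (k * s₀)) * (f gm - f g₁))
  have t2 := abs_add_le ((exp (k * s₀) + exp (k * s₂) - 2 * exp (k * s₁)) * f g₁ +
      exp (k * s₀) * (f g₀ + f g₂ - 2 * f gm) + exp (k * s₀) * (2 * (f gm - f g₁)))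
      ((exp (k * s₂) - exp (k * s₀)) * (f g₂ - f gm))
  have t3 := abs_add_le ((exp (k * s₀) + exp (k * s₂) - 2 * exp (k * s₁)) * f g₁ +
      exp (k * s₀) * (f g₀ + f g₂ - 2 * f gm)) (exp (k * s₀) * (2 * (f gm - f g₁)))
  have t4 := abs_add_le ((exp (k * s₀) + exp (k * s₂) - 2 * exp (k * s₁)) * f g₁)
      (exp (k * s₀) * (f g₀ + f g₂ - 2 * f gm))
  have hX : 0 ≤ (s₀ - s₂) ^ 2 + |s₀ + s₂ - 2 * s₁| := by positivity
  have y1 : 0 ≤ exp M * L * (G ^ 2 * ((s₀ - s₂) ^ 2 + |s₀ + s₂ - 2 * s₁|)) := by positivity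
  have y2 : 0 ≤ exp M * L * (G * (D₁ * |s₀ - s₂|)) := by positivity
  have y3 : 0 ≤ exp M * L * (G * D₂) := by positivity
  have y4 : 0 ≤ exp M * L * D₁ ^ 2 := by positivity
  linarith only [t1, t2, t3, t4, w1, w2, w3, w4, w5, y1, y2, y3, y4]

/-- joint second difference -/
theorem RT_joint (S : Sys ι) : ∃ C : ℝ, 0 < C ∧ ∀ (τ s₀ s₁ s₂ M : ℝ), 0 < τ → s₀ ≤ M → s₁ ≤ M →
    s₂ ≤ M → M ≤ 0 → ∀ g₀ g₁ g₂ : Ev ι, ∀ D₁ D₂ : ℝ,
    ‖g₀ - g₂‖ ≤ D₁ → ‖g₀ + g₂ - (2 : ℝ) • g₁‖ ≤ D₂ →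
    |RT S τ s₀ g₀ + RT S τ s₂ g₂ - 2 * RT S τ s₁ g₁|
      ≤ LT C τ M * ((‖g₀‖ + ‖g₁‖ + ‖g₂‖) ^ 2 * ((s₀ - s₂) ^ 2 + |s₀ + s₂ - 2 * s₁|)
        + (‖g₀‖ + ‖g₁‖ + ‖g₂‖) * (D₁ * |s₀ - s₂| + D₂) + D₁ ^ 2) := by
  obtain ⟨C, hC, h⟩ := UV_all S
  refine ⟨16 * C, by positivity, fun τ s₀ s₁ s₂ M hτ h0 h1 h2 hM g₀ g₁ g₂ D₁ D₂ hD₁ hD₂ => ?_⟩
  obtain ⟨⟨A, B, hU⟩, ⟨A', B', hV⟩⟩ := h τ hτ
  obtain ⟨zU, zV⟩ := UV_zz S τ hτ
  obtain ⟨L, hL⟩ : ∃ L, L = C * τ * exp (C * τ) := ⟨_, rfl⟩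
  rw [← hL] at hU hV
  have hL0 : 0 ≤ L := by rw [hL]; positivity
  have hLT : 16 * (exp M * L) ≤ LT (16 * C) τ M := by
    rw [hL]
    exact LT_ge hC hτ (by norm_num)
  have a1 := joint_one (UUt S τ) A B L hL0 hU zU 2 s₀ s₁ s₂ M (by norm_num) le_rfl h0 h1 h2 hM
    g₀ g₁ g₂ D₁ D₂ hD₁ hD₂
  have a2 := joint_one (VVt S τ) A' B' L hL0 hV zV 1 s₀ s₁ s₂ M le_rfl (by norm_num) h0 h1 h2 hM
    g₀ g₁ g₂ D₁ D₂ hD₁ hD₂
  simp only [one_mul] at a2
  rw [RT_formula, RT_formula, RT_formula]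
  have hD₁0 : 0 ≤ D₁ := (norm_nonneg _).trans hD₁
  have hD₂0 : 0 ≤ D₂ := (norm_nonneg _).trans hD₂
  obtain ⟨Z, hZ⟩ : ∃ Z, Z = (‖g₀‖ + ‖g₁‖ + ‖g₂‖) ^ 2 * ((s₀ - s₂) ^ 2 + |s₀ + s₂ - 2 * s₁|)
        + (‖g₀‖ + ‖g₁‖ + ‖g₂‖) * (D₁ * |s₀ - s₂| + D₂) + D₁ ^ 2 := ⟨_, rfl⟩
  rw [← hZ] at a1 a2 ⊢
  have hZ0 : 0 ≤ Z := by rw [hZ]; positivity
  have e : exp (2 * s₀) * UUt S τ g₀ + exp s₀ * VVt S τ g₀ +
      (exp (2 * s₂) * UUt S τ g₂ + exp s₂ * VVt S τ g₂) -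
      2 * (exp (2 * s₁) * UUt S τ g₁ + exp s₁ * VVt S τ g₁) =
      (exp (2 * s₀) * UUt S τ g₀ + exp (2 * s₂) * UUt S τ g₂ - 2 * (exp (2 * s₁) * UUt S τ g₁)) +
      (exp s₀ * VVt S τ g₀ + exp s₂ * VVt S τ g₂ - 2 * (exp s₁ * VVt S τ g₁)) := by ring
  rw [e]
  refine (abs_add_le _ _).trans ?_
  have hfin := mul_le_mul_of_nonneg_right hLT hZ0
  linarith

end Pool.MP_ad5d82_an.Wl
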