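import Pool.Agent.Lib.MP_ad5d82_an.h24.FDefs
import Pool.Agent.Lib.MP_ad5d82_an.h24.F.F1
import Pool.Agent.Lib.MP_ad5d82_an.h24.F.F4

set_option autoImplicit false

namespace Pool.MP_ad5d82_an.Wl

open Real Set MeasureTheory Filter Topology
open scoped ContDiff

variable {ι : Type} [Fintype ι] [DecidableEq ι]

/-! ### F5 the quadratic part and the inner monotonicity -/
theorem vj_le (S : Sys ι) (s : ℝ) (hs : s ≤ 0) (j : ι) : |vj S s j| ≤ exp s * (S.μ j + 1) := by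
  unfold vj
  have h1 : exp (2 * s) = exp s * exp s := by rw [← Real.exp_add]; ring_nf
  have h2 : exp s ≤ 1 := Real.exp_le_one_iff.2 hs
  have h3 := Real.exp_pos s
  have hμ : (0 : ℝ) ≤ S.μ j := Nat.cast_nonneg _
  rw [h1, abs_le]
  constructor
  · have : 0 ≤ exp s * exp s * ((S.μ j : ℝ) + 1) := by positivity
    have : 0 ≤ exp s * (S.μ j : ℝ) := by positivity
    nlinarith
  · have : 0 ≤ exp s * (1 - exp s) * ((S.μ j : ℝ) + 1) := by
      have : 0 ≤ 1 - exp s := by linarith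
      positivity
    nlinarith

private theorem f5_one_le (S : Sys ι) (j : ι) : (1 : ℝ) ≤ S.μ j := by
  by_cases h : j = S.o
  · rw [h, S.μ_o]; norm_num
  · have := S.one_lt j h
    exact_mod_cast this.le

theorem vj_ge (S : Sys ι) (s : ℝ) (hs : s ≤ 0) (hs' : 99 / 100 ≤ exp s) (j : ι) : 0.97 ≤ vj S s j := by
  unfold vj
  have h1 : exp (2 * s) = exp s * exp s := by rw [← Real.exp_add]; ring_nf
  have hμ := f5_one_le S j
  rw [h1]
  have h2 : 0 ≤ exp s * exp s * ((S.μ j : ℝ) - 1) := by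
    have : 0 ≤ (S.μ j : ℝ) - 1 := by linarith
    positivity
  nlinarith

private theorem f5_lip {M a b : ℝ} (ha : a ≤ M) (hb : b ≤ M) :
    |exp a - exp b| ≤ exp M * |a - b| := by
  have key : ∀ a b : ℝ, a ≤ M → b ≤ a → |exp a - exp b| ≤ exp M * |a - b| := by
    intro a b ha hab
    rw [abs_of_nonneg (by linarith [Real.exp_le_exp.2 hab]), abs_of_nonneg (by linarith)]
    have h1 : exp b = exp a * exp (b - a) := by rw [← Real.exp_add]; ring_nf
    have h2 := Real.add_one_le_exp (b - a)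
    have h3 := Real.exp_pos a
    have h4 : exp a ≤ exp M := Real.exp_le_exp.2 ha
    rw [h1]
    calc exp a - exp a * exp (b - a) = exp a * (1 - exp (b - a)) := by ring
      _ ≤ exp a * (a - b) := by
        apply mul_le_mul_of_nonneg_left _ h3.le
        linarith
      _ ≤ exp M * (a - b) := by
        apply mul_le_mul_of_nonneg_right h4
        linarith
  rcases le_total b a with h | h
  · exact key a b ha h
  · rw [abs_sub_comm, abs_sub_comm a b]
    exact key b a hb h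

private theorem f5_mid {M a b : ℝ} (ha : a ≤ M) (hb : b ≤ M) :
    |exp a + exp b - 2 * exp ((a + b) / 2)| ≤ exp M * (a - b) ^ 2 / 4 := by
  have h1 : exp a = exp (a / 2) * exp (a / 2) := by rw [← Real.exp_add]; ring_nf
  have h2 : exp b = exp (b / 2) * exp (b / 2) := by rw [← Real.exp_add]; ring_nf
  have h3 : exp ((a + b) / 2) = exp (a / 2) * exp (b / 2) := by rw [← Real.exp_add]; ring_nf
  have h4 : exp a + exp b - 2 * exp ((a + b) / 2) = (exp (a / 2) - exp (b / 2)) ^ 2 := by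
    rw [h1, h2, h3]; ring
  have h5 := f5_lip (M := M / 2) (a := a / 2) (b := b / 2) (by linarith) (by linarith)
  have h6 : exp M = exp (M / 2) * exp (M / 2) := by rw [← Real.exp_add]; ring_nf
  rw [h4, abs_of_nonneg (sq_nonneg _), ← sq_abs]
  have h7 : |a / 2 - b / 2| = |a - b| / 2 := by
    rw [← sub_div, abs_div, abs_two]
  rw [h7] at h5
  calc |exp (a / 2) - exp (b / 2)| ^ 2 ≤ (exp (M / 2) * (|a - b| / 2)) ^ 2 :=
        pow_le_pow_left₀ (abs_nonneg _) h5 2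
    _ = exp M * |a - b| ^ 2 / 4 := by rw [h6]; ring
    _ = exp M * (a - b) ^ 2 / 4 := by rw [sq_abs]

private theorem f5_three {M a b c : ℝ} (ha : a ≤ M) (hb : b ≤ M) (hc : c ≤ M) :
    |exp a + exp b - 2 * exp c| ≤ exp M * ((a - b) ^ 2 / 4 + |a + b - 2 * c|) := by
  have h1 := f5_mid ha hb
  have h2 := f5_lip (M := M) (a := (a + b) / 2) (b := c) (by linarith) hc
  have h3 : |(a + b) / 2 - c| = |a + b - 2 * c| / 2 := by
    rw [show (a + b) / 2 - c = (a + b - 2 * c) / 2 by ring, abs_div, abs_two]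
  rw [h3] at h2
  have h4 : exp a + exp b - 2 * exp c =
      (exp a + exp b - 2 * exp ((a + b) / 2)) + 2 * (exp ((a + b) / 2) - exp c) := by ring
  rw [h4]
  refine (abs_add_le _ _).trans ?_
  rw [abs_mul, abs_two]
  linarith

private noncomputable def f5K (S : Sys ι) : ℝ := ∑ j, ((S.μ j : ℝ) + 1)

private theorem f5K_ge (S : Sys ι) (j : ι) : (S.μ j : ℝ) + 1 ≤ f5K S :=
  Finset.single_le_sum (f := fun j => (S.μ j : ℝ) + 1) (fun i _ => by positivity)
    (Finset.mem_univ j)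

private theorem f5K_nonneg (S : Sys ι) : 0 ≤ f5K S := Finset.sum_nonneg fun _ _ => by positivity

theorem vj_s (S : Sys ι) : ∃ C : ℝ, 0 < C ∧ ∀ (s₀ s₁ s₂ M : ℝ), s₀ ≤ M → s₁ ≤ M → s₂ ≤ M → M ≤ 0 →
    ∀ j,
    |vj S s₀ j - vj S s₂ j| ≤ C * exp M * |s₀ - s₂| ∧
    |vj S s₀ j + vj S s₂ j - 2 * vj S s₁ j| ≤ C * exp M * ((s₀ - s₂) ^ 2 + |s₀ + s₂ - 2 * s₁|) := by
  have hK0 := f5K_nonneg S
  refine ⟨2 * f5K S + 1, by linarith, ?_⟩
  intro s₀ s₁ s₂ M h0 h1 h2 hM j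
  have hK := f5K_ge S j
  have hμ : (0 : ℝ) ≤ (S.μ j : ℝ) + 1 := by positivity
  have hEM := Real.exp_pos M
  have hE2 : exp (2 * M) ≤ exp M := Real.exp_le_exp.2 (by linarith)
  constructor
  · have e1 := f5_lip (M := 2 * M) (a := 2 * s₀) (b := 2 * s₂) (by linarith) (by linarith)
    have e2 := f5_lip h0 h2
    have e3 : |2 * s₀ - 2 * s₂| = 2 * |s₀ - s₂| := by
      rw [← mul_sub, abs_mul, abs_two]
    rw [e3] at e1
    have e4 : vj S s₀ j - vj S s₂ j = (exp (2 * s₀) - exp (2 * s₂)) * ((S.μ j : ℝ) + 1) -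
        (exp s₀ - exp s₂) := by unfold vj; ring
    rw [e4]
    have hΔ := abs_nonneg (s₀ - s₂)
    calc |(exp (2 * s₀) - exp (2 * s₂)) * ((S.μ j : ℝ) + 1) - (exp s₀ - exp s₂)|
        ≤ |(exp (2 * s₀) - exp (2 * s₂)) * ((S.μ j : ℝ) + 1)| + |exp s₀ - exp s₂| := abs_sub _ _
      _ = |exp (2 * s₀) - exp (2 * s₂)| * ((S.μ j : ℝ) + 1) + |exp s₀ - exp s₂| := by
          rw [abs_mul, abs_of_nonneg hμ]
      _ ≤ (exp M * (2 * |s₀ - s₂|)) * f5K S + exp M * |s₀ - s₂| := by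
          gcongr
          refine e1.trans ?_
          gcongr
      _ = (2 * f5K S + 1) * exp M * |s₀ - s₂| := by ring
  · have e1 := f5_three (M := 2 * M) (a := 2 * s₀) (b := 2 * s₂) (c := 2 * s₁) (by linarith)
      (by linarith) (by linarith)
    have e2 := f5_three h0 h2 h1
    have e3 : |2 * s₀ + 2 * s₂ - 2 * (2 * s₁)| = 2 * |s₀ + s₂ - 2 * s₁| := by
      rw [show 2 * s₀ + 2 * s₂ - 2 * (2 * s₁) = 2 * (s₀ + s₂ - 2 * s₁) by ring, abs_mul, abs_two]
    rw [e3] at e1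
    have e4 : vj S s₀ j + vj S s₂ j - 2 * vj S s₁ j =
        (exp (2 * s₀) + exp (2 * s₂) - 2 * exp (2 * s₁)) * ((S.μ j : ℝ) + 1) -
        (exp s₀ + exp s₂ - 2 * exp s₁) := by unfold vj; ring
    rw [e4]
    have hΔ := abs_nonneg (s₀ + s₂ - 2 * s₁)
    have hsq := sq_nonneg (s₀ - s₂)
    calc |(exp (2 * s₀) + exp (2 * s₂) - 2 * exp (2 * s₁)) * ((S.μ j : ℝ) + 1) -
        (exp s₀ + exp s₂ - 2 * exp s₁)|
        ≤ |(exp (2 * s₀) + exp (2 * s₂) - 2 * exp (2 * s₁)) * ((S.μ j : ℝ) + 1)| +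
          |exp s₀ + exp s₂ - 2 * exp s₁| := abs_sub _ _
      _ = |exp (2 * s₀) + exp (2 * s₂) - 2 * exp (2 * s₁)| * ((S.μ j : ℝ) + 1) +
          |exp s₀ + exp s₂ - 2 * exp s₁| := by
          rw [abs_mul, abs_of_nonneg hμ]
      _ ≤ (exp M * ((s₀ - s₂) ^ 2 + 2 * |s₀ + s₂ - 2 * s₁|)) * f5K S +
          exp M * ((s₀ - s₂) ^ 2 / 4 + |s₀ + s₂ - 2 * s₁|) := by
          gcongr
          refine e1.trans ?_
          have : (2 * s₀ - 2 * s₂) ^ 2 / 4 = (s₀ - s₂) ^ 2 := by ring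
          rw [this]
          gcongr
      _ ≤ (2 * f5K S + 1) * exp M * ((s₀ - s₂) ^ 2 + |s₀ + s₂ - 2 * s₁|) := by
          have p1 : 0 ≤ exp M * (s₀ - s₂) ^ 2 * f5K S := by positivity
          have p2 : 0 ≤ exp M * (s₀ - s₂) ^ 2 := by positivity
          nlinarith

private theorem f5_norm (g : Ev ι) : ‖g‖ ^ 2 = ∑ j, g j ^ 2 := by
  rw [EuclideanSpace.norm_sq_eq]
  simp

private theorem f5_LT (C τ s : ℝ) (hC : 0 < C) (hτ : 0 < τ) (hτ' : τ ≤ 1) (hs : s ≤ 0) :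
    LT C τ s ≤ C * exp C * τ := by
  unfold LT
  have h1 : exp s ≤ 1 := Real.exp_le_one_iff.2 hs
  have h2 : exp (C * τ) ≤ exp C := Real.exp_le_exp.2 (by nlinarith)
  calc C * exp s * τ * exp (C * τ) ≤ C * 1 * τ * exp C := by gcongr
    _ = _ := by ring

/-- monotonicity and midpoint estimate of the truncated density near `s = 0`. -/
theorem inner_mono (S : Sys ι) : ∃ δ₁ : ℝ, 0 < δ₁ ∧ ∀ (τ s s' : ℝ), 0 < τ → τ ≤ δ₁ → s ≤ s' → s' ≤ 0 →
    99 / 100 ≤ exp s → ∀ g : Ev ι,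
    1 / 2 * qV S s g + RT S τ s g ≤ 1 / 2 * qV S s' g + RT S τ s' g := by
  obtain ⟨C, hC, hRT⟩ := RT_s S
  have hCC : 0 < C * exp C := by positivity
  refine ⟨min 1 (1 / (C * exp C)), by positivity, ?_⟩
  intro τ s s' hτ hτ' hss hs' hexp g
  have hτ1 : τ ≤ 1 := hτ'.trans (min_le_left _ _)
  have hτ2 : C * exp C * τ ≤ 1 := by
    have := hτ'.trans (min_le_right _ _)
    rw [le_div_iff₀ hCC] at this
    linarith
  have h1 := (hRT τ s s' hτ (hss.trans hs') hs' g).1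
  have hLT : LT C τ (max s s') ≤ 1 :=
    (f5_LT C τ _ hC hτ hτ1 (max_le (hss.trans hs') hs')).trans hτ2
  have h2 : |RT S τ s g - RT S τ s' g| ≤ ‖g‖ ^ 2 * (s' - s) := by
    refine h1.trans ?_
    rw [abs_sub_comm, abs_of_nonneg (by linarith : 0 ≤ s' - s)]
    have : 0 ≤ ‖g‖ ^ 2 * (s' - s) := mul_nonneg (sq_nonneg _) (by linarith)
    calc LT C τ (max s s') * ‖g‖ ^ 2 * (s' - s) = LT C τ (max s s') * (‖g‖ ^ 2 * (s' - s)) := by ring
      _ ≤ 1 * (‖g‖ ^ 2 * (s' - s)) := by gcongr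
      _ = _ := one_mul _
  have h3 : ‖g‖ ^ 2 * (s' - s) ≤ 1 / 2 * qV S s' g - 1 / 2 * qV S s g := by
    have h4 : 1 / 2 * qV S s' g - 1 / 2 * qV S s g =
        ∑ j, 1 / 2 * (vj S s' j - vj S s j) * g j ^ 2 := by
      unfold qV
      rw [Finset.mul_sum, Finset.mul_sum, ← Finset.sum_sub_distrib]
      refine Finset.sum_congr rfl fun j _ => ?_
      ring
    rw [h4, f5_norm, Finset.sum_mul]
    refine Finset.sum_le_sum fun j _ => ?_
    have h5 : (s' - s) ≤ 1 / 2 * (vj S s' j - vj S s j) := by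
      have e1 : exp (2 * s) = exp s * exp s := by rw [← Real.exp_add]; ring_nf
      have e2 : exp (2 * s') = exp s' * exp s' := by rw [← Real.exp_add]; ring_nf
      have e3 : vj S s' j - vj S s j =
          (exp s' - exp s) * (((S.μ j : ℝ) + 1) * (exp s' + exp s) - 1) := by
        unfold vj
        rw [e1, e2]
        ring
      have e4 : exp s' = exp s * exp (s' - s) := by rw [← Real.exp_add]; ring_nf
      have e5 := Real.add_one_le_exp (s' - s)
      have e6 : 99 / 100 * (s' - s) ≤ exp s' - exp s := by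
        rw [e4]
        nlinarith
      have e7 : exp s ≤ exp s' := Real.exp_le_exp.2 hss
      have hμ := f5_one_le S j
      have e8 : 2.96 ≤ ((S.μ j : ℝ) + 1) * (exp s' + exp s) - 1 := by nlinarith
      rw [e3]
      have e9 : 0 ≤ exp s' - exp s := by linarith
      have e10 : (exp s' - exp s) * 2.96 ≤
          (exp s' - exp s) * (((S.μ j : ℝ) + 1) * (exp s' + exp s) - 1) :=
        mul_le_mul_of_nonneg_left e8 e9
      linarith
    calc g j ^ 2 * (s' - s) = (s' - s) * g j ^ 2 := by ring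
      _ ≤ _ := mul_le_mul_of_nonneg_right h5 (sq_nonneg _)
  have h6 := (abs_le.1 h2).2
  linarith

private theorem f5_qV_sum (S : Sys ι) (g : Ev ι) (B : ℝ) (f : ι → ℝ) (hf : ∀ j, |f j| ≤ B) :
    |∑ j, f j * g j ^ 2| ≤ B * ‖g‖ ^ 2 := by
  refine (Finset.abs_sum_le_sum_abs _ _).trans ?_
  rw [f5_norm, Finset.mul_sum]
  refine Finset.sum_le_sum fun j _ => ?_
  rw [abs_mul, abs_of_nonneg (sq_nonneg (g j))]
  exact mul_le_mul_of_nonneg_right (hf j) (sq_nonneg _)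

theorem inner_mid (S : Sys ι) : ∃ C : ℝ, 0 < C ∧ ∀ (τ s s' : ℝ), 0 < τ → τ ≤ 1 → s ≤ 0 → s' ≤ 0 →
    ∀ g : Ev ι,
    |(1 / 2 * qV S s g + RT S τ s g) + (1 / 2 * qV S s' g + RT S τ s' g)
      - 2 * (1 / 2 * qV S ((s + s') / 2) g + RT S τ ((s + s') / 2) g)|
      ≤ C * ‖g‖ ^ 2 * (s - s') ^ 2 := by
  obtain ⟨C, hC, hRT⟩ := RT_s S
  obtain ⟨C', hC', hv⟩ := vj_s S
  refine ⟨C' + C * exp C, by positivity, ?_⟩
  intro τ s s' hτ hτ1 hs hs' g
  have hsm : (s + s') / 2 ≤ 0 := by linarith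
  have h1 := (hRT τ s s' hτ hs hs' g).2
  have hLT : LT C τ (max s s') ≤ C * exp C := by
    refine (f5_LT C τ _ hC hτ hτ1 (max_le hs hs')).trans ?_
    have : 0 < C * exp C := by positivity
    nlinarith
  have h2 : |RT S τ s g + RT S τ s' g - 2 * RT S τ ((s + s') / 2) g| ≤
      C * exp C * (‖g‖ ^ 2 * (s - s') ^ 2) := by
    refine h1.trans ?_
    rw [mul_assoc]
    exact mul_le_mul_of_nonneg_right hLT (by positivity)
  have h3 : |∑ j, (vj S s j + vj S s' j - 2 * vj S ((s + s') / 2) j) * g j ^ 2| ≤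
      C' * (s - s') ^ 2 * ‖g‖ ^ 2 := by
    apply f5_qV_sum S
    intro j
    have := (hv s ((s + s') / 2) s' 0 hs hsm hs' le_rfl j).2
    rw [Real.exp_zero, mul_one, show s + s' - 2 * ((s + s') / 2) = 0 by ring, abs_zero,
      add_zero] at this
    exact this
  have h4 : (1 / 2 * qV S s g + RT S τ s g) + (1 / 2 * qV S s' g + RT S τ s' g)
      - 2 * (1 / 2 * qV S ((s + s') / 2) g + RT S τ ((s + s') / 2) g) =
      1 / 2 * (∑ j, (vj S s j + vj S s' j - 2 * vj S ((s + s') / 2) j) * g j ^ 2) +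
      (RT S τ s g + RT S τ s' g - 2 * RT S τ ((s + s') / 2) g) := by
    have : ∑ j, (vj S s j + vj S s' j - 2 * vj S ((s + s') / 2) j) * g j ^ 2 =
        qV S s g + qV S s' g - 2 * qV S ((s + s') / 2) g := by
      unfold qV
      rw [Finset.mul_sum, ← Finset.sum_add_distrib, ← Finset.sum_sub_distrib]
      refine Finset.sum_congr rfl fun j _ => ?_
      ring
    rw [this]
    ring
  rw [h4]
  refine (abs_add_le _ _).trans ?_
  rw [abs_mul, abs_of_pos (by norm_num : (0 : ℝ) < 1 / 2)]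
  have h5 : 0 ≤ C' * (s - s') ^ 2 * ‖g‖ ^ 2 := by positivity
  nlinarith

theorem inner_lip (S : Sys ι) : ∃ C : ℝ, 0 < C ∧ ∀ (τ s s' : ℝ), 0 < τ → τ ≤ 1 → s ≤ 0 → s' ≤ 0 →
    ∀ g : Ev ι,
    |(1 / 2 * qV S s g + RT S τ s g) - (1 / 2 * qV S s' g + RT S τ s' g)|
      ≤ C * ‖g‖ ^ 2 * |s - s'| := by
  obtain ⟨C, hC, hRT⟩ := RT_s S
  obtain ⟨C', hC', hv⟩ := vj_s S
  refine ⟨C' + C * exp C, by positivity, ?_⟩
  intro τ s s' hτ hτ1 hs hs' g
  have h1 := (hRT τ s s' hτ hs hs' g).1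
  have hLT : LT C τ (max s s') ≤ C * exp C := by
    refine (f5_LT C τ _ hC hτ hτ1 (max_le hs hs')).trans ?_
    have : 0 < C * exp C := by positivity
    nlinarith
  have h2 : |RT S τ s g - RT S τ s' g| ≤ C * exp C * (‖g‖ ^ 2 * |s - s'|) := by
    refine h1.trans ?_
    rw [mul_assoc]
    exact mul_le_mul_of_nonneg_right hLT (by positivity)
  have h3 : |∑ j, (vj S s j - vj S s' j) * g j ^ 2| ≤ C' * |s - s'| * ‖g‖ ^ 2 := by
    apply f5_qV_sum S
    intro j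
    have := (hv s s s' 0 hs hs hs' le_rfl j).1
    rw [Real.exp_zero, mul_one] at this
    exact this
  have h4 : (1 / 2 * qV S s g + RT S τ s g) - (1 / 2 * qV S s' g + RT S τ s' g) =
      1 / 2 * (∑ j, (vj S s j - vj S s' j) * g j ^ 2) + (RT S τ s g - RT S τ s' g) := by
    have : ∑ j, (vj S s j - vj S s' j) * g j ^ 2 = qV S s g - qV S s' g := by
      unfold qV
      rw [← Finset.sum_sub_distrib]
      refine Finset.sum_congr rfl fun j _ => ?_
      ring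
    rw [this]
    ring
  rw [h4]
  refine (abs_add_le _ _).trans ?_
  rw [abs_mul, abs_of_pos (by norm_num : (0 : ℝ) < 1 / 2)]
  have h5 : 0 ≤ C' * |s - s'| * ‖g‖ ^ 2 := by positivity
  nlinarith

end Pool.MP_ad5d82_an.Wl
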