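import Pool.Agent.Lib.MP_ad5d82_an.h24.FDefs
import Pool.Agent.Lib.MP_ad5d82_an.h24.H.H1
import Pool.Agent.Lib.MP_ad5d82_an.h24.H.H9
import Pool.Agent.Lib.MP_ad5d82_an.h24.R.R1

set_option autoImplicit false

namespace Pool.MP_ad5d82_an.Wl

open Real Set MeasureTheory Filter Topology
open scoped ContDiff

variable {ι : Type} [Fintype ι] [DecidableEq ι]

/-! ### F6 the cut-off logarithm -/
theorem lg_nonpos (t : ℝ) (ht : 0 ≤ t) : lg t ≤ 0 := by
  unfold lg
  rcases le_total t 1 with h | h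
  · exact mul_nonpos_of_nonpos_of_nonneg (Real.log_nonpos ht h) (Real.smoothTransition.nonneg _)
  · rw [Real.smoothTransition.zero_of_nonpos (by linarith), mul_zero]

theorem lg_zero (t : ℝ) (ht : 1 ≤ t) : lg t = 0 := by
  unfold lg
  rw [Real.smoothTransition.zero_of_nonpos (by linarith), mul_zero]

theorem lg_add (t : ℝ) : lg t = Real.log t + lg1 t := by
  unfold lg lg1
  ring

private theorem f6_st_smooth : ContDiff ℝ ∞ (fun t : ℝ => Real.smoothTransition (2 - 2 * t)) :=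
  Real.smoothTransition.contDiff.comp (by fun_prop)

private theorem f6_lg1_zero (t : ℝ) (ht : t ≤ 1 / 2) : lg1 t = 0 := by
  unfold lg1
  rw [Real.smoothTransition.one_of_one_le (by linarith), sub_self, mul_zero]

private theorem f6_lg1_log (t : ℝ) (ht : 1 ≤ t) : lg1 t = -Real.log t := by
  unfold lg1
  rw [Real.smoothTransition.zero_of_nonpos (by linarith), zero_sub, mul_neg_one]

theorem lg1_smooth : ContDiff ℝ ∞ lg1 := by
  rw [contDiff_iff_contDiffAt]
  intro t
  by_cases ht : t < 1 / 2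
  · have h1 : lg1 =ᶠ[𝓝 t] fun _ => (0 : ℝ) := by
      filter_upwards [Iio_mem_nhds ht] with s hs
      exact f6_lg1_zero s (le_of_lt hs)
    exact contDiffAt_const.congr_of_eventuallyEq h1
  · have ht0 : t ≠ 0 := by
      rintro rfl
      exact ht (by norm_num)
    unfold lg1
    exact (Real.contDiffAt_log.2 ht0).mul (f6_st_smooth.contDiffAt.sub contDiffAt_const)

/-- `exp (lg t)` extends smoothly: -/
theorem exp_lg_smooth : ∃ E : ℝ → ℝ, ContDiff ℝ ∞ E ∧ (∀ t, 0 < t → E t = exp (lg t)) ∧ E 0 = 0 := by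
  classical
  have hlow : ∀ t : ℝ, 0 < t → t ≤ 1 / 2 → exp (lg t) = t := by
    intro t h1 h2
    rw [lg_add, f6_lg1_zero t h2, add_zero, Real.exp_log h1]
  refine ⟨fun t => if t < 1 / 4 then t else exp (lg t), ?_, ?_, ?_⟩
  · rw [contDiff_iff_contDiffAt]
    intro t
    by_cases ht : t < 1 / 2
    · have h1 : (fun t => if t < 1 / 4 then t else exp (lg t)) =ᶠ[𝓝 t] fun s => s := by
        filter_upwards [Iio_mem_nhds ht] with s hs
        by_cases h : s < 1 / 4
        · rw [if_pos h]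
        · rw [if_neg h]
          exact hlow s (by linarith [not_lt.1 h]) (le_of_lt hs)
      exact contDiffAt_id.congr_of_eventuallyEq h1
    · have ht' : 1 / 4 < t := by linarith [not_lt.1 ht]
      have h1 : (fun t => if t < 1 / 4 then t else exp (lg t)) =ᶠ[𝓝 t] fun s => exp (lg s) := by
        filter_upwards [Ioi_mem_nhds ht'] with s hs
        rw [if_neg (not_lt.2 (le_of_lt hs))]
      have ht0 : t ≠ 0 := by linarith
      have h2 : ContDiffAt ℝ ∞ (fun s => exp (lg s)) t := by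
        have h3 : ContDiffAt ℝ ∞ lg t := by
          unfold lg
          exact (Real.contDiffAt_log.2 ht0).mul f6_st_smooth.contDiffAt
        exact h3.exp
      exact h2.congr_of_eventuallyEq h1
  · intro t ht
    simp only
    by_cases h : t < 1 / 4
    · rw [if_pos h]
      exact (hlow t ht (by linarith)).symm
    · rw [if_neg h]
  · simp

private theorem f6_L_smooth : ContDiff ℝ ∞ (fun w : ℂ => lg1 (‖w‖ ^ 2)) :=
  lg1_smooth.comp (contDiff_norm_sq ℝ)

private theorem f6_dir_smooth {f : ℂ → ℝ} (hf : ContDiff ℝ ∞ f) (v : ℂ) :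
    ContDiff ℝ ∞ (fun z => fderiv ℝ f z v) :=
  (hf.fderiv_right (m := ∞) (by norm_num)).clm_apply contDiff_const

private theorem f6_lap_smooth {f : ℂ → ℝ} (hf : ContDiff ℝ ∞ f) : ContDiff ℝ ∞ (lapC f) := by
  unfold lapC
  exact (f6_dir_smooth (f6_dir_smooth hf 1) 1).add
    (f6_dir_smooth (f6_dir_smooth hf Complex.I) Complex.I)

private theorem f6_dir_congr {f g : ℂ → ℝ} {z : ℂ} (h : f =ᶠ[𝓝 z] g) (v : ℂ) :
    (fun w => fderiv ℝ f w v) =ᶠ[𝓝 z] (fun w => fderiv ℝ g w v) := by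
  have h1 : ∀ᶠ w in 𝓝 z, f =ᶠ[𝓝 w] g := eventually_eventually_nhds.2 h
  filter_upwards [h1] with w hw
  rw [hw.fderiv_eq]

private theorem f6_lap_congr {f g : ℂ → ℝ} {z : ℂ} (h : f =ᶠ[𝓝 z] g) : lapC f z = lapC g z := by
  unfold lapC
  rw [(f6_dir_congr h 1).fderiv_eq, (f6_dir_congr h Complex.I).fderiv_eq]

theorem gam_smooth : ContDiff ℝ ∞ gam := by
  unfold gam
  exact (f6_lap_smooth f6_L_smooth).neg

private theorem f6_lap_log (z : ℂ) (hz : z ≠ 0) :
    lapC (fun w => -Real.log (‖w‖ ^ 2)) z = 0 := by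
  have hn : ∀ w : ℂ, ‖w‖ ^ 2 = w.re ^ 2 + w.im ^ 2 := by
    intro w
    rw [← Complex.normSq_eq_norm_sq, Complex.normSq_apply]
    ring
  have hpos : ∀ w : ℂ, w ≠ 0 → 0 < w.re ^ 2 + w.im ^ 2 := by
    intro w hw
    rw [← hn]
    positivity
  have hre : ∀ w : ℂ, HasFDerivAt (fun w : ℂ => w.re) Complex.reCLM w := fun w =>
    Complex.reCLM.hasFDerivAt
  have him : ∀ w : ℂ, HasFDerivAt (fun w : ℂ => w.im) Complex.imCLM w := fun w =>
    Complex.imCLM.hasFDerivAt
  have hq : ∀ w : ℂ, HasFDerivAt (fun w : ℂ => w.re ^ 2 + w.im ^ 2)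
      ((2 * w.re) • Complex.reCLM + (2 * w.im) • Complex.imCLM) w := by
    intro w
    have h1 := ((hre w).pow 2).add ((him w).pow 2)
    refine h1.congr_fderiv ?_
    ext v
    simp
  have h1 : ∀ w : ℂ, w ≠ 0 → HasFDerivAt (fun w : ℂ => -Real.log (‖w‖ ^ 2))
      (-((w.re ^ 2 + w.im ^ 2)⁻¹ • ((2 * w.re) • Complex.reCLM + (2 * w.im) • Complex.imCLM))) w := by
    intro w hw
    have h2 := ((hq w).log (hpos w hw).ne').neg
    refine h2.congr_of_eventuallyEq ?_
    filter_upwards with x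
    rw [hn x]
    rfl
  have hne : ∀ᶠ w in 𝓝 z, w ≠ (0 : ℂ) := isOpen_ne.mem_nhds hz
  have e1 : (fun w => fderiv ℝ (fun w => -Real.log (‖w‖ ^ 2)) w 1) =ᶠ[𝓝 z]
      fun w => -((w.re ^ 2 + w.im ^ 2)⁻¹ * (2 * w.re)) := by
    filter_upwards [hne] with w hw
    rw [(h1 w hw).fderiv]
    simp
  have e2 : (fun w => fderiv ℝ (fun w => -Real.log (‖w‖ ^ 2)) w Complex.I) =ᶠ[𝓝 z]
      fun w => -((w.re ^ 2 + w.im ^ 2)⁻¹ * (2 * w.im)) := by
    filter_upwards [hne] with w hw
    rw [(h1 w hw).fderiv]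
    simp
  unfold lapC
  rw [e1.fderiv_eq, e2.fderiv_eq]
  have hz' := (hpos z hz).ne'
  have d1 : HasFDerivAt (fun w : ℂ => -((w.re ^ 2 + w.im ^ 2)⁻¹ * (2 * w.re))) _ z :=
    (((hasFDerivAt_inv hz').comp z (hq z)).mul ((hre z).const_mul 2)).neg
  have d2 : HasFDerivAt (fun w : ℂ => -((w.re ^ 2 + w.im ^ 2)⁻¹ * (2 * w.im))) _ z :=
    (((hasFDerivAt_inv hz').comp z (hq z)).mul ((him z).const_mul 2)).neg
  rw [d1.fderiv, d2.fderiv]
  simp
  field_simp
  ring

theorem gam_supp (z : ℂ) (hz : 1 ≤ ‖z‖) : gam z = 0 := by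
  have h1 : ∀ w : ℂ, 1 < ‖w‖ → gam w = 0 := by
    intro w hw
    unfold gam
    have h2 : (fun w : ℂ => lg1 (‖w‖ ^ 2)) =ᶠ[𝓝 w] fun w => -Real.log (‖w‖ ^ 2) := by
      have h3 : ∀ᶠ x : ℂ in 𝓝 w, 1 < ‖x‖ := continuous_norm.continuousAt.eventually (Ioi_mem_nhds hw)
      filter_upwards [h3] with x hx
      exact f6_lg1_log _ (by nlinarith)
    rw [f6_lap_congr h2, f6_lap_log w (by
      intro h0
      rw [h0, norm_zero] at hw
      linarith), neg_zero]
  -- closure
  have hz0 : z ≠ 0 := by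
    intro h0
    rw [h0, norm_zero] at hz
    linarith
  have h2 : Tendsto (fun n : ℕ => ((1 + 1 / ((n : ℝ) + 1) : ℝ) : ℂ) * z) atTop (𝓝 z) := by
    have h3 : Tendsto (fun n : ℕ => (1 + 1 / ((n : ℝ) + 1) : ℝ)) atTop (𝓝 (1 + 0)) :=
      tendsto_const_nhds.add tendsto_one_div_add_atTop_nhds_zero_nat
    have h4 : Tendsto (fun n : ℕ => ((1 + 1 / ((n : ℝ) + 1) : ℝ) : ℂ)) atTop (𝓝 ((1 + 0 : ℝ) : ℂ)) :=
      (Complex.continuous_ofReal.tendsto _).comp h3
    have h5 := h4.mul_const z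
    simpa using h5
  have h3 : Tendsto (fun n : ℕ => gam (((1 + 1 / ((n : ℝ) + 1) : ℝ) : ℂ) * z)) atTop (𝓝 (gam z)) :=
    (gam_smooth.continuous.tendsto z).comp h2
  have h4 : ∀ n : ℕ, gam (((1 + 1 / ((n : ℝ) + 1) : ℝ) : ℂ) * z) = 0 := by
    intro n
    apply h1
    rw [norm_mul, Complex.norm_real, Real.norm_eq_abs, abs_of_pos (by positivity)]
    have h5 : (0 : ℝ) < 1 / ((n : ℝ) + 1) := by positivity
    nlinarith
  simp only [h4] at h3
  exact (tendsto_nhds_unique h3 tendsto_const_nhds)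

theorem gam_supp' (z : ℂ) (hz : ‖z‖ ≤ 1 / 2) : gam z = 0 := by
  unfold gam
  have h2 : (fun w : ℂ => lg1 (‖w‖ ^ 2)) =ᶠ[𝓝 z] fun _ => (0 : ℝ) := by
    have h3 : ∀ᶠ x : ℂ in 𝓝 z, ‖x‖ < 0.7 :=
      continuous_norm.continuousAt.eventually (Iio_mem_nhds (lt_of_le_of_lt hz (by norm_num)))
    filter_upwards [h3] with x hx
    exact f6_lg1_zero _ (by nlinarith [norm_nonneg x])
  rw [f6_lap_congr h2]
  simp [lapC]

private theorem f6_meas (p : ℂ) : Measurable (fun x : ℂ => lg (‖x - p‖ ^ 2)) := by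
  unfold lg
  have h1 : Measurable (fun x : ℂ => ‖x - p‖ ^ 2) := by fun_prop
  exact (Real.measurable_log.comp h1).mul (f6_st_smooth.continuous.measurable.comp h1)

private theorem f6_log_eq (p x : ℂ) : Real.log (‖x - p‖ ^ 2) = 2 * Real.log (‖p - x‖ / 1) := by
  rw [Real.log_pow, div_one, norm_sub_rev]
  push_cast
  ring

private theorem f6_abs_le (p x : ℂ) : |lg (‖x - p‖ ^ 2)| ≤ 2 * |Real.log (‖p - x‖ / 1)| := by
  unfold lg
  rw [abs_mul, f6_log_eq, abs_mul, abs_two]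
  have h1 : |Real.smoothTransition (2 - 2 * ‖x - p‖ ^ 2)| ≤ 1 := by
    rw [abs_of_nonneg (Real.smoothTransition.nonneg _)]
    exact Real.smoothTransition.le_one _
  calc 2 * |Real.log (‖p - x‖ / 1)| * |Real.smoothTransition (2 - 2 * ‖x - p‖ ^ 2)|
      ≤ 2 * |Real.log (‖p - x‖ / 1)| * 1 := by gcongr
    _ = _ := mul_one _

private theorem f6_zero_off (p x : ℂ) (hx : x ∉ Metric.ball p 1) : lg (‖x - p‖ ^ 2) = 0 := by
  apply lg_zero
  rw [Metric.mem_ball, not_lt, dist_eq_norm] at hx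
  nlinarith

theorem lg_sq_integrable (p : ℂ) : Integrable (fun x : ℂ => lg (‖x - p‖ ^ 2) ^ 2) volume := by
  have h1 : IntegrableOn (fun x : ℂ => lg (‖x - p‖ ^ 2) ^ 2) (Metric.ball p 1) volume := by
    have h2 := (log_sq_integrable 1 one_pos p 1).const_mul 4
    refine Integrable.mono' h2 ((f6_meas p).pow_const 2).aestronglyMeasurable ?_
    filter_upwards with x
    rw [Real.norm_eq_abs, abs_of_nonneg (sq_nonneg _)]
    have h3 := f6_abs_le p x
    have h4 : lg (‖x - p‖ ^ 2) ^ 2 ≤ (2 * |Real.log (‖p - x‖ / 1)|) ^ 2 := by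
      rw [← sq_abs (lg (‖x - p‖ ^ 2))]
      exact pow_le_pow_left₀ (abs_nonneg _) h3 2
    refine h4.trans (le_of_eq ?_)
    rw [mul_pow, sq_abs]
    norm_num
  exact (integrableOn_iff_integrable_of_support_subset (by
    intro x hx
    by_contra h
    exact hx (by simp only [f6_zero_off p x h]; norm_num))).1 h1

private theorem f6_log_integrableOn (p : ℂ) (R : ℝ) :
    IntegrableOn (fun x : ℂ => Real.log (‖x - p‖ ^ 2)) (Metric.ball p R) volume := by
  have h2 := ((log_sq_integrable 1 one_pos p R).const_mul 4)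
  have h3 : IntegrableOn (fun _ : ℂ => (1 : ℝ)) (Metric.ball p R) volume :=
    integrableOn_const (by exact measure_ball_lt_top.ne)
  have h4 : IntegrableOn (fun y : ℂ => 1 + 4 * Real.log (‖p - y‖ / 1) ^ 2) (Metric.ball p R) volume :=
    h3.add h2
  refine Integrable.mono' h4 ?_ ?_
  · exact (Real.measurable_log.comp (by fun_prop)).aestronglyMeasurable
  · filter_upwards with x
    rw [f6_log_eq, Real.norm_eq_abs, abs_mul, abs_two]
    nlinarith [sq_nonneg (2 * |Real.log (‖p - x‖ / 1)| - 1), sq_abs (Real.log (‖p - x‖ / 1)),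
      abs_nonneg (Real.log (‖p - x‖ / 1))]

theorem lg_integrable (p : ℂ) : Integrable (fun x : ℂ => lg (‖x - p‖ ^ 2)) volume := by
  have h1 : IntegrableOn (fun x : ℂ => lg (‖x - p‖ ^ 2)) (Metric.ball p 1) volume := by
    refine Integrable.mono (f6_log_integrableOn p 1) (f6_meas p).aestronglyMeasurable ?_
    filter_upwards with x
    unfold lg
    rw [norm_mul]
    have h1 : ‖Real.smoothTransition (2 - 2 * ‖x - p‖ ^ 2)‖ ≤ 1 := by
      rw [Real.norm_eq_abs, abs_of_nonneg (Real.smoothTransition.nonneg _)]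
      exact Real.smoothTransition.le_one _
    calc ‖Real.log (‖x - p‖ ^ 2)‖ * ‖Real.smoothTransition (2 - 2 * ‖x - p‖ ^ 2)‖
        ≤ ‖Real.log (‖x - p‖ ^ 2)‖ * 1 := by gcongr
      _ = _ := mul_one _
  exact (integrableOn_iff_integrable_of_support_subset (by
    intro x hx
    by_contra h
    exact hx (f6_zero_off p x h))).1 h1

private theorem f6_dir_supp {f : ℂ → ℝ} (hf : HasCompactSupport f) (v : ℂ) :
    HasCompactSupport (fun z => fderiv ℝ f z v) :=
  hf.fderiv_apply ℝ v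

private theorem f6_parts {g φ : ℂ → ℝ} (hg : ContDiff ℝ ∞ g) (hφ : IsTestR φ) (v : ℂ) :
    ∫ x, g x * fderiv ℝ (fun w => fderiv ℝ φ w v) x v =
      ∫ x, fderiv ℝ (fun w => fderiv ℝ g w v) x v * φ x := by
  obtain ⟨hφ1, hφ2⟩ := hφ
  have s1 := f6_dir_smooth hφ1 v
  have s2 := f6_dir_smooth s1 v
  have t1 := f6_dir_smooth hg v
  have t2 := f6_dir_smooth t1 v
  have c1 := f6_dir_supp hφ2 v
  have c2 := f6_dir_supp c1 v
  have hint : ∀ {a b : ℂ → ℝ}, ContDiff ℝ ∞ a → ContDiff ℝ ∞ b → HasCompactSupport b →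
      Integrable (fun x => a x * b x) volume := by
    intro a b ha hb hc
    exact (ha.continuous.mul hb.continuous).integrable_of_hasCompactSupport hc.mul_left
  have e1 := integral_mul_fderiv_eq_neg_fderiv_mul_of_integrable (μ := volume) (𝕜 := ℝ)
    (f := g) (g := fun w => fderiv ℝ φ w v) (v := v)
    (hint t1 s1 c1) (hint hg s2 c2) (hint hg s1 c1)
    (fun x _ => (hg.differentiable (by norm_num)) x)
    (fun x _ => (s1.differentiable (by norm_num)) x)
  have e2 := integral_mul_fderiv_eq_neg_fderiv_mul_of_integrable (μ := volume) (𝕜 := ℝ)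
    (f := fun w => fderiv ℝ g w v) (g := φ) (v := v)
    (hint t2 hφ1 hφ2) (hint t1 s1 c1) (hint t1 hφ1 hφ2)
    (fun x _ => (t1.differentiable (by norm_num)) x)
    (fun x _ => (hφ1.differentiable (by norm_num)) x)
  rw [e1, e2, neg_neg]

private theorem f6_green {g φ : ℂ → ℝ} (hg : ContDiff ℝ ∞ g) (hφ : IsTestR φ) :
    ∫ x, g x * lapC φ x = ∫ x, lapC g x * φ x := by
  have hint : ∀ {a b : ℂ → ℝ}, ContDiff ℝ ∞ a → ContDiff ℝ ∞ b → HasCompactSupport b →
      Integrable (fun x => a x * b x) volume := by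
    intro a b ha hb hc
    exact (ha.continuous.mul hb.continuous).integrable_of_hasCompactSupport hc.mul_left
  unfold lapC
  simp only [mul_add, add_mul]
  rw [integral_add (hint hg (f6_dir_smooth (f6_dir_smooth hφ.1 1) 1)
      (f6_dir_supp (f6_dir_supp hφ.2 1) 1))
    (hint hg (f6_dir_smooth (f6_dir_smooth hφ.1 Complex.I) Complex.I)
      (f6_dir_supp (f6_dir_supp hφ.2 Complex.I) Complex.I)),
    integral_add (hint (f6_dir_smooth (f6_dir_smooth hg 1) 1) hφ.1 hφ.2)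
      (hint (f6_dir_smooth (f6_dir_smooth hg Complex.I) Complex.I) hφ.1 hφ.2),
    f6_parts hg hφ 1, f6_parts hg hφ Complex.I]

private theorem f6_lap_sub (f : ℂ → ℝ) (p x : ℂ) :
    lapC (fun w => f (w - p)) x = lapC f (x - p) := by
  unfold lapC
  have h1 : ∀ v : ℂ, (fun w => fderiv ℝ (fun w => f (w - p)) w v) =
      fun w => (fun u => fderiv ℝ f u v) (w - p) := by
    intro v
    funext w
    rw [fderiv_comp_sub]
  rw [h1 1, h1 Complex.I]
  have h2 : ∀ g : ℂ → ℝ, fderiv ℝ (fun w => g (w - p)) x = fderiv ℝ g (x - p) := fun g =>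
    fderiv_comp_sub p
  rw [h2 (fun u => fderiv ℝ f u 1), h2 (fun u => fderiv ℝ f u Complex.I)]

/-- `Δ lg(|x-p|²) = 4πδ_p - γ(x-p)`, tested with any smooth function. -/
theorem lg_laplacian (p : ℂ) (D : ℂ → ℝ) (hD : ContDiff ℝ ∞ D) :
    ∫ x, lg (‖x - p‖ ^ 2) * lapC D x = 4 * π * D p - ∫ x, gam (x - p) * D x := by
  -- cut-off
  let η : ContDiffBump p := ⟨2, 3, by norm_num, by norm_num⟩
  set φ : ℂ → ℝ := fun x => η x * D x with hφdef
  have hφ : IsTestR φ := ⟨η.contDiff.mul hD, η.hasCompactSupport.mul_right⟩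
  have hη : ∀ x ∈ Metric.closedBall p 2, η x = 1 := fun x hx => η.one_of_mem_closedBall hx
  have hDφ : ∀ x ∈ Metric.ball p 2, D =ᶠ[𝓝 x] φ := by
    intro x hx
    filter_upwards [Metric.isOpen_ball.mem_nhds hx] with y hy
    rw [hφdef]
    simp only
    rw [hη y (Metric.ball_subset_closedBall hy), one_mul]
  have e1 : ∫ x, lg (‖x - p‖ ^ 2) * lapC D x = ∫ x, lg (‖x - p‖ ^ 2) * lapC φ x := by
    congr 1
    funext x
    by_cases hx : x ∈ Metric.ball p 1
    · rw [f6_lap_congr (hDφ x (Metric.ball_subset_ball (by norm_num) hx))]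
    · rw [f6_zero_off p x hx, zero_mul, zero_mul]
  have e2 : ∫ x, gam (x - p) * D x = ∫ x, gam (x - p) * φ x := by
    congr 1
    funext x
    by_cases hx : x ∈ Metric.ball p 1
    · rw [(hDφ x (Metric.ball_subset_ball (by norm_num) hx)).self_of_nhds]
    · rw [Metric.mem_ball, not_lt, dist_eq_norm] at hx
      rw [gam_supp _ hx, zero_mul, zero_mul]
  have e3 : D p = φ p := (hDφ p (Metric.mem_ball_self (by norm_num))).self_of_nhds
  rw [e1, e2, e3]
  -- the logarithm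
  have hlapφ : ContDiff ℝ ∞ (lapC φ) := f6_lap_smooth hφ.1
  have hlapc : HasCompactSupport (lapC φ) := by
    unfold lapC
    exact (f6_dir_supp (f6_dir_supp hφ.2 1) 1).add
      (f6_dir_supp (f6_dir_supp hφ.2 Complex.I) Complex.I)
  have hI1 : Integrable (fun x => Real.log (‖x - p‖ ^ 2) * lapC φ x) volume := by
    obtain ⟨M, hM⟩ := hlapφ.continuous.bounded_above_of_compact_support hlapc
    obtain ⟨R, hR⟩ := (hlapc.isCompact.isBounded).subset_ball p
    have h1 : IntegrableOn (fun x => Real.log (‖x - p‖ ^ 2) * lapC φ x) (Metric.ball p R) volume := by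
      have := (f6_log_integrableOn p R).mul_bdd (c := M) (g := lapC φ)
        hlapφ.continuous.aestronglyMeasurable (Eventually.of_forall hM)
      exact this
    exact (integrableOn_iff_integrable_of_support_subset (by
      intro x hx
      apply hR
      apply subset_tsupport
      intro h0
      exact hx (by simp only [h0, mul_zero]))).1 h1
  have hg : ContDiff ℝ ∞ (fun x : ℂ => lg1 (‖x - p‖ ^ 2)) :=
    lg1_smooth.comp ((contDiff_norm_sq ℝ).comp (contDiff_id.sub contDiff_const))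
  have hI2 : Integrable (fun x => lg1 (‖x - p‖ ^ 2) * lapC φ x) volume :=
    (hg.continuous.mul hlapφ.continuous).integrable_of_hasCompactSupport hlapc.mul_left
  have e4 : ∫ x, lg (‖x - p‖ ^ 2) * lapC φ x =
      (∫ x, Real.log (‖x - p‖ ^ 2) * lapC φ x) + ∫ x, lg1 (‖x - p‖ ^ 2) * lapC φ x := by
    rw [← integral_add hI1 hI2]
    congr 1
    funext x
    rw [lg_add, add_mul]
  have e5 : ∫ x, Real.log (‖x - p‖ ^ 2) * lapC φ x = 4 * π * φ p := by
    have h1 := log_kernel hφ 1 one_pos p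
    have h2 : ∫ x, Real.log (‖x - p‖ ^ 2) * lapC φ x =
        2 * ∫ y, Real.log (‖p - y‖ / 1) * lapC φ y := by
      rw [← integral_const_mul]
      congr 1
      funext x
      rw [f6_log_eq, mul_assoc]
    rw [h2, h1]
    ring
  have e6 : ∫ x, lg1 (‖x - p‖ ^ 2) * lapC φ x = -∫ x, gam (x - p) * φ x := by
    rw [f6_green hg hφ, ← integral_neg]
    congr 1
    funext x
    have h1 : lapC (fun x : ℂ => lg1 (‖x - p‖ ^ 2)) x = lapC (fun w : ℂ => lg1 (‖w‖ ^ 2)) (x - p) :=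
      f6_lap_sub (fun w : ℂ => lg1 (‖w‖ ^ 2)) p x
    rw [h1]
    unfold gam
    ring
  rw [e4, e5, e6]
  ring

end Pool.MP_ad5d82_an.Wl
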