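import Pool.Agent.Lib.MP_ad5d82_an.h24.FDefs
import Pool.Agent.Lib.MP_ad5d82_an.h24.F.F1
import Pool.Agent.Lib.MP_ad5d82_an.h24.F.F3

set_option autoImplicit false

namespace Pool.MP_ad5d82_an.Wl

open Real Set MeasureTheory Filter Topology
open scoped ContDiff

variable {ι : Type} [Fintype ι] [DecidableEq ι]

/-! ### F7 first order expansion in `(s, g)` along `s1 + g` -/

private theorem f7_exp1 (t : ℝ) : |exp t - 1| ≤ |t| * exp |t| := by
  have h := Complex.norm_exp_sub_sum_le_norm_mul_exp (t : ℂ) 1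
  simp only [Finset.range_one, Finset.sum_singleton, pow_zero, Nat.factorial_zero, Nat.cast_one,
    div_one, pow_one, Complex.norm_real, Real.norm_eq_abs] at h
  have h2 : Complex.exp (t : ℂ) - 1 = ((exp t - 1 : ℝ) : ℂ) := by push_cast; rfl
  rw [h2, Complex.norm_real, Real.norm_eq_abs] at h
  exact h

private theorem f7_exp2 (t : ℝ) : |exp t - 1 - t| ≤ |t| ^ 2 * exp |t| := by
  have h := Complex.norm_exp_sub_sum_le_norm_mul_exp (t : ℂ) 2
  simp only [Finset.sum_range_succ, Finset.range_zero, Finset.sum_empty, zero_add, pow_zero,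
    Nat.factorial_zero, Nat.cast_one, div_one, pow_one, Nat.factorial_one, Complex.norm_real,
    Real.norm_eq_abs] at h
  have h2 : Complex.exp (t : ℂ) - (1 + t) = ((exp t - 1 - t : ℝ) : ℂ) := by push_cast; ring
  rw [h2, Complex.norm_real, Real.norm_eq_abs] at h
  exact h

private theorem f7_T_o (S : Sys ι) (a : ι) : Real.sqrt (∑ b, S.m b) * S.T a S.o = 1 := by
  rw [mul_comm]; exact S.T_o a

private theorem f7_sumT (S : Sys ι) (j : ι) : ∑ a, S.m a * S.T a j =
    Real.sqrt (∑ b, S.m b) * (if j = S.o then 1 else 0) := by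
  rw [← S.orth j S.o, Finset.mul_sum]
  apply Finset.sum_congr rfl
  intro a _
  have := f7_T_o S a
  linear_combination (-(S.m a * S.T a j)) * this

private theorem f7_sum_lin (S : Sys ι) (h : Ev ι) : ∑ a, S.m a * lin S a h =
    Real.sqrt (∑ b, S.m b) * h S.o := by
  unfold lin
  have h1 : ∀ a, S.m a * ∑ j, S.T a j * h j = ∑ j, (S.m a * S.T a j) * h j := by
    intro a
    rw [Finset.mul_sum]
    exact Finset.sum_congr rfl fun j _ => by ring
  simp only [h1]
  rw [Finset.sum_comm]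
  simp only [← Finset.sum_mul, f7_sumT]
  rw [Finset.sum_eq_single S.o]
  · simp
  · intro j _ hj
    simp [hj]
  · intro h
    exact absurd (Finset.mem_univ _) h

/-- the sums `A_j`. -/
private noncomputable def f7A (S : Sys ι) (e : ι → ℝ) (j : ι) : ℝ := ∑ a, S.m a * S.T a j * e a

private theorem f7A_o (S : Sys ι) (e : ι → ℝ) :
    Real.sqrt (∑ b, S.m b) * f7A S e S.o = ∑ a, S.m a * e a := by
  unfold f7A
  rw [Finset.mul_sum]
  apply Finset.sum_congr rfl
  intro a _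
  have := f7_T_o S a
  linear_combination (S.m a * e a) * this

private theorem f7A_sub_one (S : Sys ι) (e : ι → ℝ) (j : ι) :
    ∑ a, S.m a * S.T a j * (e a - 1) =
      f7A S e j - Real.sqrt (∑ b, S.m b) * (if j = S.o then 1 else 0) := by
  rw [← f7_sumT S j]
  unfold f7A
  rw [← Finset.sum_sub_distrib]
  exact Finset.sum_congr rfl fun a _ => by ring

private theorem f7_delta (S : Sys ι) (f : ι → ℝ) :
    ∑ j, (S.μ j : ℝ) * (f j * (if j = S.o then 1 else 0)) = f S.o := by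
  rw [Finset.sum_eq_single S.o]
  · simp [S.μ_o]
  · intro j _ hj
    simp [hj]
  · intro h
    exact absurd (Finset.mem_univ _) h

private theorem f7_csq (S : Sys ι) : Real.sqrt (∑ b, S.m b) * Real.sqrt (∑ b, S.m b) = ∑ b, S.m b :=
  Real.mul_self_sqrt (Finset.sum_nonneg fun b _ => (S.m_pos b).le)

private theorem f7_WW (S : Sys ι) (s : ℝ) (h : Ev ι) : WW S s h =
    1 / 2 * exp s ^ 2 * (∑ j, (S.μ j : ℝ) * f7A S (fun a => exp (lin S a h)) j ^ 2)
      - exp s * (∑ a, S.m a * exp (lin S a h)) - 1 / 2 * (∑ a, S.m a) * exp s ^ 2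
      + (∑ a, S.m a) * exp s
      - (exp s ^ 2 - exp s) * (Real.sqrt (∑ a, S.m a) * h S.o) := by
  have haa : aa S h = (∑ j, (S.μ j : ℝ) * f7A S (fun a => exp (lin S a h)) j ^ 2)
      - 2 * (∑ a, S.m a * exp (lin S a h)) + ∑ a, S.m a := by
    unfold aa
    have h1 : ∀ j, (S.μ j : ℝ) * (∑ a, S.m a * S.T a j * (exp (lin S a h) - 1)) ^ 2 =
        (S.μ j : ℝ) * f7A S (fun a => exp (lin S a h)) j ^ 2
          + (S.μ j : ℝ) * ((-2 * Real.sqrt (∑ b, S.m b) * f7A S (fun a => exp (lin S a h)) j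
            + Real.sqrt (∑ b, S.m b) * Real.sqrt (∑ b, S.m b)) * (if j = S.o then 1 else 0)) := by
      intro j
      rw [f7A_sub_one S (fun a => exp (lin S a h)) j]
      by_cases hj : j = S.o
      · simp only [hj, if_true]; ring
      · simp only [hj, if_false]; ring
    simp only [h1]
    rw [Finset.sum_add_distrib, f7_delta S (fun j => -2 * Real.sqrt (∑ b, S.m b) *
      f7A S (fun a => exp (lin S a h)) j + Real.sqrt (∑ b, S.m b) * Real.sqrt (∑ b, S.m b)),
      f7_csq]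
    have := f7A_o S (fun a => exp (lin S a h))
    linear_combination (-2) * this
  have hbb : bb S h = (∑ a, S.m a * exp (lin S a h)) - (∑ a, S.m a)
      - Real.sqrt (∑ a, S.m a) * h S.o := by
    unfold bb
    rw [← f7_sum_lin, ← Finset.sum_sub_distrib, ← Finset.sum_sub_distrib]
    exact Finset.sum_congr rfl fun a _ => by ring
  have h2 : exp (2 * s) = exp s ^ 2 := by rw [← Real.exp_nat_mul]; norm_num
  unfold WW
  rw [haa, hbb, h2]
  ring

private theorem f7_dWW (S : Sys ι) (s : ℝ) (h k : Ev ι) : fderiv ℝ (WW S s) h k =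
    exp s ^ 2 * (∑ j, (S.μ j : ℝ) * (f7A S (fun a => exp (lin S a h)) j *
        f7A S (fun a => exp (lin S a h) * lin S a k) j))
      - exp s * (∑ a, S.m a * (exp (lin S a h) * lin S a k))
      - (exp s ^ 2 - exp s) * (Real.sqrt (∑ a, S.m a) * k S.o) := by
  rw [dWW_eq]
  have h1 : ∀ j, (S.μ j : ℝ) * (∑ a, S.m a * S.T a j * (exp (lin S a h) - 1)) *
        (∑ a, S.m a * S.T a j * (exp (lin S a h) * lin S a k)) =
      (S.μ j : ℝ) * (f7A S (fun a => exp (lin S a h)) j *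
        f7A S (fun a => exp (lin S a h) * lin S a k) j)
      + (S.μ j : ℝ) * ((-Real.sqrt (∑ b, S.m b) *
        f7A S (fun a => exp (lin S a h) * lin S a k) j) * (if j = S.o then 1 else 0)) := by
    intro j
    rw [f7A_sub_one S (fun a => exp (lin S a h)) j]
    have : (∑ a, S.m a * S.T a j * (exp (lin S a h) * lin S a k)) =
      f7A S (fun a => exp (lin S a h) * lin S a k) j := rfl
    rw [this]
    ring
  simp only [h1]
  rw [Finset.sum_add_distrib, f7_delta S (fun j => -Real.sqrt (∑ b, S.m b) *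
    f7A S (fun a => exp (lin S a h) * lin S a k) j)]
  have h3 := f7A_o S (fun a => exp (lin S a h) * lin S a k)
  have h4 : ∑ a, S.m a * ((exp (lin S a h) - 1) * lin S a k) =
      (∑ a, S.m a * (exp (lin S a h) * lin S a k)) - Real.sqrt (∑ a, S.m a) * k S.o := by
    rw [← f7_sum_lin, ← Finset.sum_sub_distrib]
    exact Finset.sum_congr rfl fun a _ => by ring
  have h2 : exp (2 * s) = exp s ^ 2 := by rw [← Real.exp_nat_mul]; norm_num
  rw [h4, h2]
  linear_combination (-exp s ^ 2) * h3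

/-- the exact identity -/
private theorem f7_id (S : Sys ι) (s d : ℝ) (h k : Ev ι) :
    WW S (s + d) (h + k) - WW S s h - fderiv ℝ (WW S s) h (d • one S + k)
      + Real.sqrt (∑ a, S.m a) * h S.o *
        (exp (s + d) * (exp (s + d) - 1) - exp s * (exp s - 1)) =
    1 / 2 * exp s ^ 2 * (∑ j, (S.μ j : ℝ) *
      (f7A S (fun a => exp (lin S a h) * (exp (d + lin S a k) - 1)) j ^ 2
        + 2 * f7A S (fun a => exp (lin S a h)) j *
          f7A S (fun a => exp (lin S a h) * (exp (d + lin S a k) - 1 - (d + lin S a k))) j))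
    - exp s * (∑ a, S.m a * (exp (lin S a h) * (exp (d + lin S a k) - 1 - (d + lin S a k))))
    - 1 / 2 * (∑ a, S.m a) * exp s ^ 2 * (exp (2 * d) - 1 - 2 * d)
    + (∑ a, S.m a) * exp s * (exp d - 1 - d)
    - Real.sqrt (∑ a, S.m a) * k S.o *
      (exp s ^ 2 * (exp (2 * d) - 1) - exp s * (exp d - 1)) := by
  have hlin : ∀ a, lin S a (d • one S + k) = d + lin S a k := by
    intro a
    have h1 : lin S a (d • one S + k) = d * lin S a (one S) + lin S a k := by
      unfold lin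
      rw [Finset.mul_sum, ← Finset.sum_add_distrib]
      apply Finset.sum_congr rfl
      intro j _
      simp only [PiLp.add_apply, PiLp.smul_apply, smul_eq_mul]
      ring
    rw [h1, lin_one, mul_one]
  have hadd : ∀ a, lin S a (h + k) = lin S a h + lin S a k := by
    intro a
    unfold lin
    rw [← Finset.sum_add_distrib]
    apply Finset.sum_congr rfl
    intro j _
    simp only [PiLp.add_apply]
    ring
  have hko : (d • one S + k) S.o = d * Real.sqrt (∑ a, S.m a) + k S.o := by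
    unfold one bv
    simp [PiLp.add_apply, PiLp.smul_apply]
  have hho : (h + k) S.o = h S.o + k S.o := by simp [PiLp.add_apply]
  rw [f7_WW, f7_WW, f7_dWW, hko, hho]
  simp only [hlin, hadd]
  have e1 : ∀ a, exp (d + lin S a k) = exp d * exp (lin S a k) := fun a => by rw [Real.exp_add]
  have e2 : ∀ a, exp (lin S a h + lin S a k) = exp (lin S a h) * exp (lin S a k) := fun a => by
    rw [Real.exp_add]
  have e3 : exp (s + d) = exp s * exp d := Real.exp_add s d
  have e4 : exp (2 * d) = exp d ^ 2 := by rw [← Real.exp_nat_mul]; norm_num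
  -- the `A` sums
  have k1 : ∀ j, f7A S (fun a => exp (lin S a h) * (exp (d + lin S a k) - 1)) j =
      exp d * f7A S (fun a => exp (lin S a h + lin S a k)) j - f7A S (fun a => exp (lin S a h)) j := by
    intro j
    unfold f7A
    rw [Finset.mul_sum, ← Finset.sum_sub_distrib]
    apply Finset.sum_congr rfl
    intro a _
    beta_reduce
    rw [e1, e2]; ring
  have k2 : ∀ j, f7A S (fun a => exp (lin S a h) *
      (exp (d + lin S a k) - 1 - (d + lin S a k))) j =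
      exp d * f7A S (fun a => exp (lin S a h + lin S a k)) j - f7A S (fun a => exp (lin S a h)) j
        - f7A S (fun a => exp (lin S a h) * (d + lin S a k)) j := by
    intro j
    unfold f7A
    rw [Finset.mul_sum, ← Finset.sum_sub_distrib, ← Finset.sum_sub_distrib]
    apply Finset.sum_congr rfl
    intro a _
    beta_reduce
    rw [e1, e2]; ring
  have k3 : ∑ a, S.m a * (exp (lin S a h) * (exp (d + lin S a k) - 1 - (d + lin S a k))) =
      exp d * (∑ a, S.m a * exp (lin S a h + lin S a k)) - (∑ a, S.m a * exp (lin S a h))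
        - ∑ a, S.m a * (exp (lin S a h) * (d + lin S a k)) := by
    rw [Finset.mul_sum, ← Finset.sum_sub_distrib, ← Finset.sum_sub_distrib]
    apply Finset.sum_congr rfl
    intro a _
    rw [e1, e2]; ring
  have k4 : ∀ j, (S.μ j : ℝ) *
      (f7A S (fun a => exp (lin S a h) * (exp (d + lin S a k) - 1)) j ^ 2
        + 2 * f7A S (fun a => exp (lin S a h)) j *
          f7A S (fun a => exp (lin S a h) * (exp (d + lin S a k) - 1 - (d + lin S a k))) j) =
      exp d ^ 2 * ((S.μ j : ℝ) * f7A S (fun a => exp (lin S a h + lin S a k)) j ^ 2)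
      - (S.μ j : ℝ) * f7A S (fun a => exp (lin S a h)) j ^ 2
      - 2 * ((S.μ j : ℝ) * (f7A S (fun a => exp (lin S a h)) j *
        f7A S (fun a => exp (lin S a h) * (d + lin S a k)) j)) := by
    intro j
    rw [k1, k2]; ring
  simp only [k4]
  rw [Finset.sum_sub_distrib, Finset.sum_sub_distrib, ← Finset.mul_sum, ← Finset.mul_sum, k3, e3, e4]
  have hc := f7_csq S
  linear_combination (d * (exp s ^ 2 - exp s)) * hc

private theorem f7A_bound (S : Sys ι) {M : ℝ} (hM : ∀ j, ∑ a, |S.m a * S.T a j| ≤ M) (e : ι → ℝ)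
    (B : ℝ) (hB : ∀ a, |e a| ≤ B) (hB0 : 0 ≤ B) (j : ι) : |f7A S e j| ≤ M * B := by
  unfold f7A
  calc |∑ a, S.m a * S.T a j * e a| ≤ ∑ a, |S.m a * S.T a j * e a| :=
        Finset.abs_sum_le_sum_abs _ _
    _ ≤ ∑ a, |S.m a * S.T a j| * B := by
        apply Finset.sum_le_sum
        intro a _
        rw [abs_mul]
        exact mul_le_mul_of_nonneg_left (hB a) (abs_nonneg _)
    _ = (∑ a, |S.m a * S.T a j|) * B := by rw [Finset.sum_mul]
    _ ≤ M * B := mul_le_mul_of_nonneg_right (hM j) hB0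

theorem WW_shift (S : Sys ι) : ∃ C : ℝ, 0 < C ∧ ∀ (s d : ℝ) (v g k : Ev ι), s ≤ 0 → s + d ≤ 0 → |d| ≤ 1 →
    (∀ a, lin S a v ≤ 0) →
    |WW S (s + d) (v + g + k) - WW S s (v + g) - fderiv ℝ (WW S s) (v + g) (d • one S + k)
      + Real.sqrt (∑ a, S.m a) * (v + g) S.o *
        (exp (s + d) * (exp (s + d) - 1) - exp s * (exp s - 1))|
      ≤ C * exp (max s (s + d)) * exp (C * (‖g‖ + ‖k‖)) * (d ^ 2 + ‖k‖ ^ 2) := by
  obtain ⟨C₁, hC₁, hlin⟩ := lin_le S
  obtain ⟨M, hM0, hM⟩ : ∃ M : ℝ, 0 ≤ M ∧ ∀ j, ∑ a, |S.m a * S.T a j| ≤ M := by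
    refine ⟨∑ j, ∑ a, |S.m a * S.T a j|, Finset.sum_nonneg fun _ _ => Finset.sum_nonneg fun _ _ =>
      abs_nonneg _, fun j => ?_⟩
    exact Finset.single_le_sum (f := fun j => ∑ a, |S.m a * S.T a j|)
      (fun _ _ => Finset.sum_nonneg fun _ _ => abs_nonneg _) (Finset.mem_univ j)
  obtain ⟨L, hL⟩ : ∃ L : ℝ, L = ∑ j, (S.μ j : ℝ) := ⟨_, rfl⟩
  have hL0 : 0 ≤ L := by rw [hL]; exact Finset.sum_nonneg fun _ _ => Nat.cast_nonneg _
  obtain ⟨c, hc⟩ : ∃ c : ℝ, c = ∑ a, S.m a := ⟨_, rfl⟩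
  have hc0 : 0 ≤ c := by rw [hc]; exact Finset.sum_nonneg fun a _ => (S.m_pos a).le
  have hsc : 0 ≤ Real.sqrt c := Real.sqrt_nonneg c
  obtain ⟨N, hN⟩ : ∃ N : ℝ, N = 3 * L * M ^ 2 * (1 + C₁ ^ 2) + 2 * c * (1 + C₁ ^ 2) + 3 * c
    + 3 * Real.sqrt c := ⟨_, rfl⟩
  have hN0 : 0 ≤ N := by rw [hN]; positivity
  refine ⟨2 * C₁ + exp 2 * N, by positivity, ?_⟩
  intro s d v g k hs hsd hd hv
  rw [f7_id, ← hc]
  obtain ⟨K, hK⟩ : ∃ K : ℝ, K = exp s := ⟨_, rfl⟩
  have hK0 : 0 < K := by rw [hK]; exact exp_pos s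
  have hK1 : K ≤ 1 := by rw [hK]; exact Real.exp_le_one_iff.mpr hs
  have hK2 : K ^ 2 ≤ K := by nlinarith
  obtain ⟨E, hE⟩ : ∃ E : ℝ, E = exp (C₁ * ‖g‖) := ⟨_, rfl⟩
  have hE1 : 1 ≤ E := by rw [hE]; exact Real.one_le_exp (by positivity)
  obtain ⟨ζ, hζ⟩ : ∃ ζ : ℝ, ζ = |d| + C₁ * ‖k‖ := ⟨_, rfl⟩
  have hζ0 : 0 ≤ ζ := by rw [hζ]; positivity
  obtain ⟨X, hX⟩ : ∃ X : ℝ, X = exp ζ := ⟨_, rfl⟩
  have hX1 : 1 ≤ X := by rw [hX]; exact Real.one_le_exp hζ0
  obtain ⟨D, hD⟩ : ∃ D : ℝ, D = d ^ 2 + ‖k‖ ^ 2 := ⟨_, rfl⟩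
  have hD0 : 0 ≤ D := by rw [hD]; positivity
  have hζD : ζ ^ 2 ≤ 2 * (1 + C₁ ^ 2) * D := by
    rw [hζ, hD]
    have h1 : (|d| + C₁ * ‖k‖) ^ 2 ≤ 2 * (|d| ^ 2 + (C₁ * ‖k‖) ^ 2) := by
      nlinarith [sq_nonneg (|d| - C₁ * ‖k‖)]
    rw [sq_abs] at h1
    nlinarith [sq_nonneg d, sq_nonneg (C₁ * d), sq_nonneg ‖k‖, sq_nonneg (C₁ * ‖k‖)]
  -- pointwise bounds
  have hadd : ∀ a, lin S a (v + g) = lin S a v + lin S a g := by
    intro a
    unfold lin
    rw [← Finset.sum_add_distrib]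
    apply Finset.sum_congr rfl
    intro j _
    simp only [PiLp.add_apply]
    ring
  have he : ∀ a, exp (lin S a (v + g)) ≤ E := by
    intro a
    rw [hE, hadd]
    apply exp_le_exp.mpr
    have h1 := hv a
    have h2 := (abs_le.mp (hlin a g)).2
    linarith
  have hz : ∀ a, |d + lin S a k| ≤ ζ := by
    intro a
    rw [hζ]
    exact (abs_add_le _ _).trans (add_le_add_right (hlin a k) _)
  have hz1 : ∀ a, |exp (lin S a (v + g)) * (exp (d + lin S a k) - 1)| ≤ E * ζ * X := by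
    intro a
    rw [abs_mul, abs_of_pos (exp_pos _), mul_assoc]
    apply mul_le_mul (he a) _ (abs_nonneg _) (by linarith)
    refine (f7_exp1 _).trans ?_
    rw [hX]
    exact mul_le_mul (hz a) (exp_le_exp.mpr (hz a)) (exp_pos _).le hζ0
  have hz2 : ∀ a, |exp (lin S a (v + g)) * (exp (d + lin S a k) - 1 - (d + lin S a k))| ≤
      E * ζ ^ 2 * X := by
    intro a
    rw [abs_mul, abs_of_pos (exp_pos _), mul_assoc]
    apply mul_le_mul (he a) _ (abs_nonneg _) (by linarith)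
    refine (f7_exp2 _).trans ?_
    rw [hX]
    exact mul_le_mul (pow_le_pow_left₀ (abs_nonneg _) (hz a) 2) (exp_le_exp.mpr (hz a))
      (exp_pos _).le (by positivity)
  have hz0 : ∀ a, |exp (lin S a (v + g))| ≤ E := by
    intro a
    rw [abs_of_pos (exp_pos _)]
    exact he a
  -- term 1
  have t1 : |1 / 2 * exp s ^ 2 * (∑ j, (S.μ j : ℝ) *
      (f7A S (fun a => exp (lin S a (v + g)) * (exp (d + lin S a k) - 1)) j ^ 2
        + 2 * f7A S (fun a => exp (lin S a (v + g))) j *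
          f7A S (fun a => exp (lin S a (v + g)) * (exp (d + lin S a k) - 1 - (d + lin S a k))) j))|
      ≤ 3 / 2 * L * M ^ 2 * K * (E ^ 2 * X ^ 2) * ζ ^ 2 := by
    have hj : ∀ j, |f7A S (fun a => exp (lin S a (v + g)) * (exp (d + lin S a k) - 1)) j ^ 2
        + 2 * f7A S (fun a => exp (lin S a (v + g))) j *
          f7A S (fun a => exp (lin S a (v + g)) * (exp (d + lin S a k) - 1 - (d + lin S a k))) j|
        ≤ 3 * M ^ 2 * (E ^ 2 * X ^ 2) * ζ ^ 2 := by
      intro j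
      have b1 := f7A_bound S hM _ _ hz1 (by positivity) j
      have b2 := f7A_bound S hM _ _ hz2 (by positivity) j
      have b0 := f7A_bound S hM _ _ hz0 (by positivity) j
      have c1 : |f7A S (fun a => exp (lin S a (v + g)) * (exp (d + lin S a k) - 1)) j ^ 2| ≤
          (M * (E * ζ * X)) ^ 2 := by
        rw [abs_pow]
        exact pow_le_pow_left₀ (abs_nonneg _) b1 2
      have c2 : |2 * f7A S (fun a => exp (lin S a (v + g))) j *
          f7A S (fun a => exp (lin S a (v + g)) * (exp (d + lin S a k) - 1 - (d + lin S a k))) j| ≤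
          2 * (M * E) * (M * (E * ζ ^ 2 * X)) := by
        rw [abs_mul, abs_mul, abs_of_pos (show (0 : ℝ) < 2 by norm_num)]
        exact mul_le_mul (mul_le_mul_of_nonneg_left b0 (by norm_num)) b2 (abs_nonneg _)
          (by positivity)
      refine (abs_add_le _ _).trans ((add_le_add c1 c2).trans ?_)
      have : 2 * (M * E) * (M * (E * ζ ^ 2 * X)) ≤ 2 * (M * E) * (M * (E * ζ ^ 2 * X)) * X :=
        le_mul_of_one_le_right (by positivity) hX1
      calc (M * (E * ζ * X)) ^ 2 + 2 * (M * E) * (M * (E * ζ ^ 2 * X))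
          ≤ (M * (E * ζ * X)) ^ 2 + 2 * (M * E) * (M * (E * ζ ^ 2 * X)) * X := by linarith
        _ = 3 * M ^ 2 * (E ^ 2 * X ^ 2) * ζ ^ 2 := by ring
    rw [abs_mul, ← hK, abs_of_nonneg (show (0 : ℝ) ≤ 1 / 2 * K ^ 2 by positivity)]
    have hsum : |∑ j, (S.μ j : ℝ) *
      (f7A S (fun a => exp (lin S a (v + g)) * (exp (d + lin S a k) - 1)) j ^ 2
        + 2 * f7A S (fun a => exp (lin S a (v + g))) j *
          f7A S (fun a => exp (lin S a (v + g)) * (exp (d + lin S a k) - 1 - (d + lin S a k))) j)|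
        ≤ L * (3 * M ^ 2 * (E ^ 2 * X ^ 2) * ζ ^ 2) := by
      rw [hL, Finset.sum_mul]
      refine (Finset.abs_sum_le_sum_abs _ _).trans (Finset.sum_le_sum fun j _ => ?_)
      rw [abs_mul, abs_of_nonneg (Nat.cast_nonneg _)]
      exact mul_le_mul_of_nonneg_left (hj j) (Nat.cast_nonneg _)
    calc 1 / 2 * K ^ 2 * _ ≤ 1 / 2 * K * (L * (3 * M ^ 2 * (E ^ 2 * X ^ 2) * ζ ^ 2)) :=
          mul_le_mul (by linarith) hsum (abs_nonneg _) (by positivity)
      _ = _ := by ring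
  -- term 2
  have t2 : |exp s * (∑ a, S.m a * (exp (lin S a (v + g)) *
      (exp (d + lin S a k) - 1 - (d + lin S a k))))| ≤ c * K * (E ^ 2 * X ^ 2) * ζ ^ 2 := by
    rw [abs_mul, ← hK, abs_of_pos hK0]
    have hsum : |∑ a, S.m a * (exp (lin S a (v + g)) *
      (exp (d + lin S a k) - 1 - (d + lin S a k)))| ≤ c * (E * ζ ^ 2 * X) := by
      rw [hc, Finset.sum_mul]
      refine (Finset.abs_sum_le_sum_abs _ _).trans (Finset.sum_le_sum fun a _ => ?_)
      rw [abs_mul, abs_of_pos (S.m_pos a)]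
      exact mul_le_mul_of_nonneg_left (hz2 a) (S.m_pos a).le
    have hEX : E * X ≤ E ^ 2 * X ^ 2 := by
      have : 1 ≤ E * X := one_le_mul_of_one_le_of_one_le hE1 hX1
      nlinarith
    calc K * _ ≤ K * (c * (E * ζ ^ 2 * X)) := mul_le_mul_of_nonneg_left hsum hK0.le
      _ = c * K * (E * X) * ζ ^ 2 := by ring
      _ ≤ c * K * (E ^ 2 * X ^ 2) * ζ ^ 2 := by
        apply mul_le_mul_of_nonneg_right _ (sq_nonneg _)
        exact mul_le_mul_of_nonneg_left hEX (by positivity)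
  have hdX : exp |d| ≤ X := by
    rw [hX, hζ]
    exact exp_le_exp.mpr (by have : 0 ≤ C₁ * ‖k‖ := by positivity
                             linarith)
  have hdX2 : exp |2 * d| ≤ X ^ 2 := by
    rw [abs_mul, abs_of_pos (show (0 : ℝ) < 2 by norm_num)]
    have : exp (2 * |d|) = exp |d| ^ 2 := by rw [← Real.exp_nat_mul]; norm_num
    rw [this]
    exact pow_le_pow_left₀ (exp_pos _).le hdX 2
  have hE2 : 1 ≤ E ^ 2 := one_le_pow₀ hE1
  have hXE : X ^ 2 ≤ E ^ 2 * X ^ 2 := le_mul_of_one_le_left (by positivity) hE2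
  have hX2 : X ≤ X ^ 2 := by nlinarith
  -- term 3
  have t3 : |1 / 2 * c * exp s ^ 2 * (exp (2 * d) - 1 - 2 * d)| ≤
      2 * c * K * (E ^ 2 * X ^ 2) * d ^ 2 := by
    rw [abs_mul, ← hK, abs_of_nonneg (show (0 : ℝ) ≤ 1 / 2 * c * K ^ 2 by positivity)]
    have h1 : |exp (2 * d) - 1 - 2 * d| ≤ 4 * d ^ 2 * (E ^ 2 * X ^ 2) := by
      refine (f7_exp2 _).trans ?_
      have : |2 * d| ^ 2 = 4 * d ^ 2 := by rw [sq_abs]; ring
      rw [this]
      exact mul_le_mul_of_nonneg_left (hdX2.trans hXE) (by positivity)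
    calc 1 / 2 * c * K ^ 2 * _ ≤ 1 / 2 * c * K * (4 * d ^ 2 * (E ^ 2 * X ^ 2)) :=
          mul_le_mul (mul_le_mul_of_nonneg_left hK2 (by positivity)) h1 (abs_nonneg _)
            (by positivity)
      _ = _ := by ring
  -- term 4
  have t4 : |c * exp s * (exp d - 1 - d)| ≤ c * K * (E ^ 2 * X ^ 2) * d ^ 2 := by
    rw [abs_mul, ← hK, abs_of_nonneg (show (0 : ℝ) ≤ c * K by positivity)]
    have h1 : |exp d - 1 - d| ≤ d ^ 2 * (E ^ 2 * X ^ 2) := by
      refine (f7_exp2 _).trans ?_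
      rw [sq_abs]
      exact mul_le_mul_of_nonneg_left (hdX.trans (hX2.trans hXE)) (by positivity)
    calc c * K * _ ≤ c * K * (d ^ 2 * (E ^ 2 * X ^ 2)) :=
          mul_le_mul_of_nonneg_left h1 (by positivity)
      _ = _ := by ring
  -- term 5
  have t5 : |Real.sqrt c * k S.o * (exp s ^ 2 * (exp (2 * d) - 1) - exp s * (exp d - 1))| ≤
      3 * Real.sqrt c * K * (E ^ 2 * X ^ 2) * (|d| * ‖k‖) := by
    rw [abs_mul, abs_mul, abs_of_nonneg hsc, ← hK]
    have h0 : |k S.o| ≤ ‖k‖ := by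
      have := PiLp.norm_apply_le k S.o
      rwa [Real.norm_eq_abs] at this
    have h1 : |exp (2 * d) - 1| ≤ 2 * |d| * (E ^ 2 * X ^ 2) := by
      refine (f7_exp1 _).trans ?_
      have : |2 * d| = 2 * |d| := by rw [abs_mul, abs_of_pos (show (0 : ℝ) < 2 by norm_num)]
      calc |2 * d| * exp |2 * d| ≤ |2 * d| * (E ^ 2 * X ^ 2) :=
            mul_le_mul_of_nonneg_left (hdX2.trans hXE) (abs_nonneg _)
        _ = _ := by rw [this]
    have h2 : |exp d - 1| ≤ |d| * (E ^ 2 * X ^ 2) :=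
      (f7_exp1 _).trans (mul_le_mul_of_nonneg_left (hdX.trans (hX2.trans hXE)) (abs_nonneg _))
    have h3 : |K ^ 2 * (exp (2 * d) - 1) - K * (exp d - 1)| ≤ 3 * K * (|d| * (E ^ 2 * X ^ 2)) := by
      refine (abs_sub _ _).trans ?_
      rw [abs_mul, abs_mul, abs_of_pos hK0, abs_of_nonneg (sq_nonneg K)]
      have a1 : K ^ 2 * |exp (2 * d) - 1| ≤ K * (2 * |d| * (E ^ 2 * X ^ 2)) :=
        mul_le_mul hK2 h1 (abs_nonneg _) hK0.le
      have a2 : K * |exp d - 1| ≤ K * (|d| * (E ^ 2 * X ^ 2)) :=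
        mul_le_mul_of_nonneg_left h2 hK0.le
      linarith
    calc Real.sqrt c * |k S.o| * _ ≤ Real.sqrt c * ‖k‖ * (3 * K * (|d| * (E ^ 2 * X ^ 2))) :=
          mul_le_mul (mul_le_mul_of_nonneg_left h0 hsc) h3 (abs_nonneg _) (by positivity)
      _ = _ := by ring
  -- total
  have hdk : |d| * ‖k‖ ≤ D := by
    rw [hD]
    have := sq_nonneg (|d| - ‖k‖)
    have h2 := sq_abs d
    nlinarith [sq_nonneg d, sq_nonneg ‖k‖]
  have hdD : d ^ 2 ≤ D := by rw [hD]; nlinarith [sq_nonneg ‖k‖]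
  have htot : ∀ x1 x2 x3 x4 x5 : ℝ, |x1 - x2 - x3 + x4 - x5| ≤ |x1| + |x2| + |x3| + |x4| + |x5| := by
    intro x1 x2 x3 x4 x5
    have i1 := abs_sub (x1 - x2 - x3 + x4) x5
    have i2 := abs_add_le (x1 - x2 - x3) x4
    have i3 := abs_sub (x1 - x2) x3
    have i4 := abs_sub x1 x2
    linarith
  refine (htot _ _ _ _ _).trans ?_
  have hP : 0 ≤ K * (E ^ 2 * X ^ 2) := by positivity
  have hsum : 3 / 2 * L * M ^ 2 * K * (E ^ 2 * X ^ 2) * ζ ^ 2 + c * K * (E ^ 2 * X ^ 2) * ζ ^ 2 +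
      2 * c * K * (E ^ 2 * X ^ 2) * d ^ 2 + c * K * (E ^ 2 * X ^ 2) * d ^ 2 +
      3 * Real.sqrt c * K * (E ^ 2 * X ^ 2) * (|d| * ‖k‖) ≤ N * (K * (E ^ 2 * X ^ 2)) * D := by
    have j1 : 3 / 2 * L * M ^ 2 * K * (E ^ 2 * X ^ 2) * ζ ^ 2 ≤
        3 / 2 * L * M ^ 2 * K * (E ^ 2 * X ^ 2) * (2 * (1 + C₁ ^ 2) * D) :=
      mul_le_mul_of_nonneg_left hζD (by positivity)
    have j2 : c * K * (E ^ 2 * X ^ 2) * ζ ^ 2 ≤
        c * K * (E ^ 2 * X ^ 2) * (2 * (1 + C₁ ^ 2) * D) :=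
      mul_le_mul_of_nonneg_left hζD (by positivity)
    have j3 : 2 * c * K * (E ^ 2 * X ^ 2) * d ^ 2 ≤ 2 * c * K * (E ^ 2 * X ^ 2) * D :=
      mul_le_mul_of_nonneg_left hdD (by positivity)
    have j4 : c * K * (E ^ 2 * X ^ 2) * d ^ 2 ≤ c * K * (E ^ 2 * X ^ 2) * D :=
      mul_le_mul_of_nonneg_left hdD (by positivity)
    have j5 : 3 * Real.sqrt c * K * (E ^ 2 * X ^ 2) * (|d| * ‖k‖) ≤
        3 * Real.sqrt c * K * (E ^ 2 * X ^ 2) * D :=
      mul_le_mul_of_nonneg_left hdk (by positivity)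
    rw [hN]
    calc _ ≤ 3 / 2 * L * M ^ 2 * K * (E ^ 2 * X ^ 2) * (2 * (1 + C₁ ^ 2) * D) +
        c * K * (E ^ 2 * X ^ 2) * (2 * (1 + C₁ ^ 2) * D) + 2 * c * K * (E ^ 2 * X ^ 2) * D +
        c * K * (E ^ 2 * X ^ 2) * D + 3 * Real.sqrt c * K * (E ^ 2 * X ^ 2) * D := by linarith
      _ = _ := by ring
  refine (add_le_add (add_le_add (add_le_add (add_le_add t1 t2) t3) t4) t5).trans (hsum.trans ?_)
  rw [← hD]
  apply mul_le_mul_of_nonneg_right _ hD0
  have hKm : K ≤ exp (max s (s + d)) := by rw [hK]; exact exp_le_exp.mpr (le_max_left _ _)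
  have hEX : E ^ 2 * X ^ 2 ≤ exp 2 * exp ((2 * C₁ + exp 2 * N) * (‖g‖ + ‖k‖)) := by
    have h1 : E ^ 2 * X ^ 2 = exp (2 * (C₁ * ‖g‖) + 2 * ζ) := by
      rw [hE, hX, Real.exp_add, ← Real.exp_nat_mul, ← Real.exp_nat_mul]
      norm_num
    rw [h1, ← Real.exp_add]
    apply exp_le_exp.mpr
    rw [hζ]
    have h2 : 0 ≤ exp 2 * N * (‖g‖ + ‖k‖) := by positivity
    nlinarith
  calc N * (K * (E ^ 2 * X ^ 2)) ≤ N * (exp (max s (s + d)) *
        (exp 2 * exp ((2 * C₁ + exp 2 * N) * (‖g‖ + ‖k‖)))) := by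
        apply mul_le_mul_of_nonneg_left _ hN0
        exact mul_le_mul hKm hEX (by positivity) (exp_pos _).le
    _ = (exp 2 * N) * exp (max s (s + d)) * exp ((2 * C₁ + exp 2 * N) * (‖g‖ + ‖k‖)) := by ring
    _ ≤ (2 * C₁ + exp 2 * N) * exp (max s (s + d)) *
        exp ((2 * C₁ + exp 2 * N) * (‖g‖ + ‖k‖)) := by
        apply mul_le_mul_of_nonneg_right _ (exp_pos _).le
        exact mul_le_mul_of_nonneg_right (by linarith) (exp_pos _).le

end Pool.MP_ad5d82_an.Wl
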