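import Pool.Agent.Lib.MP_ad5d82_an.h24.FDefs
import Pool.Agent.Lib.MP_ad5d82_an.h24.F.F1
import Pool.Agent.Lib.MP_ad5d82_an.h24.F.F3

set_option autoImplicit false

namespace Pool.MP_ad5d82_an.Wl

open Real Set MeasureTheory Filter Topology
open scoped ContDiff

variable {ι : Type} [Fintype ι] [DecidableEq ι]

/-! ### F8 the gradient in the original coordinates -/
/-- the matrix `A` in the original coordinates. -/
noncomputable def Amat (S : Sys ι) (a b : ι) : ℝ := S.m b * ∑ j, (S.μ j : ℝ) * S.T a j * S.T b j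

private theorem f8_sum_mT (S : Sys ι) (j : ι) :
    ∑ b, S.m b * S.T b j = if j = S.o then Real.sqrt (∑ a, S.m a) else 0 := by
  have h1 := S.orth j S.o
  have h2 : ∑ b, S.m b * S.T b j =
      Real.sqrt (∑ a, S.m a) * ∑ a, S.m a * S.T a j * S.T a S.o := by
    rw [Finset.mul_sum]
    refine Finset.sum_congr rfl fun b _ => ?_
    have := S.T_o b
    calc S.m b * S.T b j = S.m b * S.T b j * (S.T b S.o * Real.sqrt (∑ a, S.m a)) := by
          rw [this, mul_one]
      _ = _ := by ring
  rw [h2, h1]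
  split_ifs <;> simp

theorem Amat_one (S : Sys ι) (a : ι) : ∑ b, Amat S a b = 1 := by
  have h1 : ∑ b, Amat S a b = ∑ j, (S.μ j : ℝ) * S.T a j * ∑ b, S.m b * S.T b j := by
    unfold Amat
    simp only [Finset.mul_sum]
    rw [Finset.sum_comm]
    exact Finset.sum_congr rfl fun j _ => Finset.sum_congr rfl fun b _ => by ring
  rw [h1]
  simp only [f8_sum_mT, mul_ite, mul_zero]
  rw [Finset.sum_ite_eq' , if_pos (Finset.mem_univ _), S.μ_o, Nat.cast_one, one_mul, S.T_o]

private theorem f8_lin_bv (S : Sys ι) (a j : ι) : lin S a (bv j) = S.T a j := by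
  unfold lin bv
  simp

theorem DWW_orig (S : Sys ι) (s : ℝ) (h : Ev ι) (a : ι) :
    ∑ j, S.T a j * ((S.μ j : ℝ) * fderiv ℝ (WW S s) h (bv j)) + exp s * (exp s - 1)
      = ∑ b, Amat S a b * (exp (s + lin S b h) * (∑ c, Amat S b c * exp (s + lin S c h) - 1)) := by
  have hexp2 : exp (2 * s) = exp s * exp s := by rw [← Real.exp_add]; congr 1; ring
  have hy : ∀ b, exp (s + lin S b h) = exp s * exp (lin S b h) := fun b => Real.exp_add _ _
  simp only [dWW_eq, f8_lin_bv, hexp2, hy]
  generalize exp s = y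
  generalize hE : (fun b => exp (lin S b h)) = E
  have hE' : ∀ b, exp (lin S b h) = E b := fun b => congrFun hE b
  simp only [hE']
  -- the first term
  have hA : ∀ b, S.m b * ∑ j, S.T a j * (S.μ j : ℝ) * S.T b j = Amat S a b := by
    intro b
    unfold Amat
    congr 1
    exact Finset.sum_congr rfl fun j _ => by ring
  have hQ : ∀ b, ∑ i, (S.μ i : ℝ) * (∑ c, S.m c * S.T c i * (E c - 1)) * S.T b i =
      ∑ c, Amat S b c * E c - 1 := by
    intro b
    have h1 : ∑ i, (S.μ i : ℝ) * (∑ c, S.m c * S.T c i * (E c - 1)) * S.T b i =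
        ∑ c, Amat S b c * (E c - 1) := by
      unfold Amat
      simp only [Finset.mul_sum, Finset.sum_mul]
      rw [Finset.sum_comm]
      exact Finset.sum_congr rfl fun c _ => Finset.sum_congr rfl fun i _ => by ring
    rw [h1]
    simp only [mul_sub, mul_one, Finset.sum_sub_distrib, Amat_one]
  have t1 : ∑ j, S.T a j * (S.μ j : ℝ) * (∑ i, (S.μ i : ℝ) *
      (∑ c, S.m c * S.T c i * (E c - 1)) * (∑ b, S.m b * S.T b i * (E b * S.T b j))) =
      ∑ b, Amat S a b * E b * (∑ c, Amat S b c * E c - 1) := by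
    have h1 : ∀ b, Amat S a b * E b * (∑ c, Amat S b c * E c - 1) =
        ∑ j, ∑ i, S.T a j * (S.μ j : ℝ) * ((S.μ i : ℝ) *
          (∑ c, S.m c * S.T c i * (E c - 1)) * (S.m b * S.T b i * (E b * S.T b j))) := by
      intro b
      rw [← hQ b, ← hA b]
      have h2 : ∀ J I : ℝ, S.m b * J * E b * I = J * I * (S.m b * E b) := fun J I => by ring
      rw [h2, Finset.sum_mul_sum, Finset.sum_mul]
      refine Finset.sum_congr rfl fun j _ => ?_
      rw [Finset.sum_mul]
      exact Finset.sum_congr rfl fun i _ => by ring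
    simp only [h1]
    rw [Finset.sum_comm]
    refine Finset.sum_congr rfl fun j _ => ?_
    rw [Finset.sum_comm, Finset.mul_sum]
    refine Finset.sum_congr rfl fun i _ => ?_
    rw [Finset.mul_sum, Finset.mul_sum]
  have t2 : ∑ j, S.T a j * (S.μ j : ℝ) * (∑ b, S.m b * ((E b - 1) * S.T b j)) =
      ∑ b, Amat S a b * E b - 1 := by
    have h1 : ∑ j, S.T a j * (S.μ j : ℝ) * (∑ b, S.m b * ((E b - 1) * S.T b j)) =
        ∑ b, Amat S a b * (E b - 1) := by
      simp only [Finset.mul_sum]
      rw [Finset.sum_comm]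
      refine Finset.sum_congr rfl fun b _ => ?_
      rw [← hA b, Finset.mul_sum, Finset.sum_mul]
      exact Finset.sum_congr rfl fun j _ => by ring
    rw [h1]
    simp only [mul_sub, mul_one, Finset.sum_sub_distrib, Amat_one]
  have hL : ∑ j, S.T a j * ((S.μ j : ℝ) * (y * y * (∑ i, (S.μ i : ℝ) *
      (∑ c, S.m c * S.T c i * (E c - 1)) * (∑ b, S.m b * S.T b i * (E b * S.T b j))) +
      (y * y - y) * (∑ b, S.m b * ((E b - 1) * S.T b j)))) =
      y * y * (∑ b, Amat S a b * E b * (∑ c, Amat S b c * E c - 1)) +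
        (y * y - y) * (∑ b, Amat S a b * E b - 1) := by
    rw [← t1, ← t2, Finset.mul_sum, Finset.mul_sum, ← Finset.sum_add_distrib]
    exact Finset.sum_congr rfl fun j _ => by ring
  rw [hL]
  have hR : ∑ b, Amat S a b * (y * E b * (∑ c, Amat S b c * (y * E c) - 1)) =
      y * y * (∑ b, Amat S a b * E b * (∑ c, Amat S b c * E c - 1)) +
        (y * y - y) * ∑ b, Amat S a b * E b := by
    rw [Finset.mul_sum, Finset.mul_sum, ← Finset.sum_add_distrib]
    refine Finset.sum_congr rfl fun b _ => ?_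
    have : ∑ c, Amat S b c * (y * E c) = y * ∑ c, Amat S b c * E c := by
      rw [Finset.mul_sum]
      exact Finset.sum_congr rfl fun c _ => by ring
    rw [this]
    ring
  rw [hR]
  ring

end Pool.MP_ad5d82_an.Wl
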